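import Pool.Agent.H6.QL.RwDefs
import Pool.Agent.H81.QG.Nrm

/-!
# [H24 QL Axv] THEOREM QL (MP_576eff_lc), bridge (B4): the axioms are true up to a small error

`cl_fal`: the value of a clause is `1 -` the indicator of the falsifying assignments, up to `(3 * 2 ^ m - 4) η`.
`ax_vi`: the clauses of `Gam` are true up to `3 * 2 ^ m η`.
-/

set_option autoImplicit false

namespace Pool.Agent.H24.QL

open Pool.Agent.H3.Frg Pool.Agent.H81.QG Pool.H6.QL

variable {H : Type} [NormedAddCommGroup H] [InnerProductSpace ℝ H] {n K : ℕ}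
  {Gam : Set (List (Fin n × Bool))} {X : Option (Fin n) → Op H} {L : ℕ → Submodule ℝ H}
  {cl : Rn n →ₗ[ℝ] H} {dg : ℕ → Submodule ℝ (Rn n)}

/-- the indicator function of the assignments which falsify the literal -/
def flt {n : ℕ} (l : Fin n × Bool) : Rn n := if l.2 then 1 - yy l.1 else yy l.1

theorem fal_cons (a : Fin n × Bool) (c : List (Fin n × Bool)) : fal (a :: c) = flt a * fal c := by
  funext x
  obtain ⟨i, b⟩ := a
  have h1 : fal ((i, b) :: c) x = if ∀ l ∈ (i, b) :: c, x l.1 ≠ l.2 then (1 : ℝ) else 0 := rfl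
  have h2 : fal c x = if ∀ l ∈ c, x l.1 ≠ l.2 then (1 : ℝ) else 0 := rfl
  have h3 : (flt (i, b) * fal c) x = flt (i, b) x * fal c x := rfl
  have h4 : flt (i, b) x = if x i ≠ b then (1 : ℝ) else 0 := by
    cases b
    · show (if x i = true then (1 : ℝ) else 0) = _
      cases x i <;> simp
    · show (1 : ℝ) - (if x i = true then (1 : ℝ) else 0) = _
      cases x i <;> simp
  rw [h1, h3, h2, h4]
  by_cases hx : x i = b
  · simp [hx]
  · by_cases hy : ∀ l ∈ c, x l.1 ≠ l.2
    · rw [if_pos hx, if_pos hy, if_pos, one_mul]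
      intro l hl
      rcases List.mem_cons.1 hl with rfl | hl
      · exact hx
      · exact hy l hl
    · rw [if_neg hy, if_neg, mul_zero]
      intro h5
      exact hy fun l hl => h5 l (List.mem_cons_of_mem _ hl)

theorem fal_nil : fal ([] : List (Fin n × Bool)) = 1 := by
  funext x
  show (if ∀ l ∈ ([] : List (Fin n × Bool)), x l.1 ≠ l.2 then (1 : ℝ) else 0) = 1
  rw [if_pos]
  intro l hl
  simp at hl

theorem fal_mul (c : List (Fin n × Bool)) : fal c * fal c = fal c := by
  funext x
  show (if ∀ l ∈ c, x l.1 ≠ l.2 then (1 : ℝ) else 0) * (if ∀ l ∈ c, x l.1 ≠ l.2 then (1 : ℝ) else 0) =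
    if ∀ l ∈ c, x l.1 ≠ l.2 then (1 : ℝ) else 0
  split_ifs <;> norm_num

theorem flt_mem (h : RW n K Gam X L cl dg) (a : Fin n × Bool) : flt a ∈ dg 1 := by
  unfold flt
  split_ifs
  · exact sub_mem (h.liar.mono (Nat.zero_le 1) h.liar.one) (h.ymem _)
  · exact h.ymem _

theorem fal_mem (h : RW n K Gam X L cl dg) (c : List (Fin n × Bool)) : fal c ∈ dg c.length := by
  induction c with
  | nil =>
    rw [fal_nil]
    exact h.liar.one
  | cons a c ih =>
    rw [fal_cons, List.length_cons, Nat.add_comm]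
    exact h.liar.mul _ _ _ _ (flt_mem h a) ih

/-- an indicator function is a contraction -/
theorem fal_norm (h : RW n K Gam X L cl dg) (c : List (Fin n × Bool)) {b : ℕ} (hb : b + 2 * c.length ≤ K) :
    Sml cl dg b 1 (fal c) := by
  intro p hp
  rw [one_mul]
  have h1 : inner ℝ (cl (fal c * p)) (cl (fal c * p)) = inner ℝ (cl p) (cl (fal c * (fal c * p))) :=
    h.liar.sym c.length b (c.length + b) (fal c) p (fal c * p) (fal_mem h c) hp
      (h.liar.mul _ _ _ _ (fal_mem h c) hp) (by omega) (by omega)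
  rw [← mul_assoc, fal_mul, real_inner_self_eq_norm_sq] at h1
  have h2 := real_inner_le_norm (cl p) (cl (fal c * p))
  rcases (norm_nonneg (cl (fal c * p))).eq_or_lt with h3 | h3
  · rw [← h3]
    exact norm_nonneg _
  · rw [← h1, pow_two] at h2
    exact le_of_mul_le_mul_right h2 h3

private theorem litF_leaves (l : Fin n × Bool) : (litF l).leaves = 1 := by
  rcases l with ⟨i, b⟩
  cases b <;> simp [litF, Fm.leaves]

theorem clF_leaves (c : List (Fin n × Bool)) (a : Fin n × Bool) : (clF a c).leaves = c.length + 1 := by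
  induction c generalizing a with
  | nil => simp [clF, litF_leaves]
  | cons b c ih =>
    rw [clF, Fm.leaves, Fm.leaves, litF_leaves, ih b, List.length_cons]
    omega

variable {V : Fm (Fin n) → Rn n} {Wd s k : ℕ} {η : ℝ}

private theorem lit_v (h : VI cl dg V yy Wd s k η) (hs : 1 ≤ s) (hη : 0 ≤ η) (l : Fin n × Bool) :
    Sml cl dg k (2 * η) (V (litF l) - (1 - flt l)) ∧ Sml cl dg k (3 * η) (V (.neg (litF l)) - flt l) := by
  have h1 : Sml cl dg k (2 * η) (V (litF l) - (1 - flt l)) := by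
    obtain ⟨i, b⟩ := l
    cases b
    · have e : V (litF (i, false)) - (1 - flt (i, false)) =
          (V (.neg (.var i)) - (1 - V (.var i))) - (V (.var i) - yy i) := by
        show V (.neg (.var i)) - (1 - yy i) = _
        ring
      rw [e, two_mul]
      exact (h.neg (.var i) hs).sub (h.var i)
    · have e : V (litF (i, true)) - (1 - flt (i, true)) = V (.var i) - yy i := by
        show V (.var i) - (1 - (1 - yy i)) = _
        ring
      rw [e, two_mul]
      intro p hp
      have h2 := h.var i p hp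
      have h3 : 0 ≤ η * ‖cl p‖ := mul_nonneg hη (norm_nonneg _)
      linarith
  refine ⟨h1, ?_⟩
  have e : V (.neg (litF l)) - flt l = (V (.neg (litF l)) - (1 - V (litF l))) - (V (litF l) - (1 - flt l)) := by ring
  have e2 : 3 * η = η + 2 * η := by ring
  rw [e, e2]
  exact (h.neg (litF l) (by rw [litF_leaves]; exact hs)).sub h1

/-- the value of a clause -/
theorem cl_fal (hR : RW n K Gam X L cl dg) (h : VI cl dg V yy Wd s k η) (hη : 0 ≤ η) (hη1 : η ≤ 1)
    (hkW : k + 2 * Wd ≤ K) (c : List (Fin n × Bool)) : ∀ (a : Fin n × Bool) (k' : ℕ), c.length + 1 ≤ s →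
      k' + Wd + c.length ≤ k → k' + 2 * c.length ≤ K →
      Sml cl dg k' ((3 * 2 ^ (c.length + 1) - 4) * η) (V (clF a c) - (1 - fal (a :: c))) := by
  have hL := hR.liar
  induction c with
  | nil =>
    intro a k' hs hk' _ p hp
    have h1 := (lit_v h (by simpa using hs) hη a).1 p (hL.mono (by omega) hp)
    rw [fal_cons, fal_nil, mul_one]
    refine h1.trans (le_of_eq ?_)
    norm_num
  | cons b c ih =>
    intro a k' hs hk' hk2 p hp
    rw [List.length_cons] at hs hk' hk2
    have h1 := ih b (k' + 1) (by omega) (by omega) (by omega) p (hL.mono (Nat.le_succ _) hp)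
    have hk0 : k' ≤ k := by omega
    have hl : (Fm.imp (Fm.neg (litF a)) (clF b c)).leaves ≤ s := by
      rw [Fm.leaves, Fm.leaves, litF_leaves, clF_leaves]
      omega
    have h2 := h.imp _ _ hl p (hL.mono hk0 hp)
    obtain ⟨A, hA⟩ : ∃ A, A = V (.neg (litF a)) := ⟨_, rfl⟩
    obtain ⟨B, hB⟩ : ∃ B, B = V (clF b c) := ⟨_, rfl⟩
    obtain ⟨F, hF⟩ : ∃ F : Rn n, F = fal (b :: c) := ⟨_, rfl⟩
    rw [← hA, ← hB] at h2
    rw [← hB, ← hF] at h1
    have hleA : (Fm.neg (litF a)).leaves ≤ s := by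
      rw [Fm.leaves, litF_leaves]
      omega
    have hAd : A ∈ dg Wd := by
      rw [hA]
      exact h.deg _ hleA
    have hAn : Sml cl dg k (1 + η) A := by
      rw [hA]
      exact (vbd hL (h.deg _ hleA) hη (h.idem _ hleA) hkW).1
    have hFd : F ∈ dg (c.length + 1) := by
      rw [hF]
      exact fal_mem hR (b :: c)
    have hBd : B ∈ dg Wd := by
      rw [hB]
      exact h.deg _ (by rw [clF_leaves]; omega)
    -- `(B - (1 - F)) p`
    have h3 : (B - (1 - F)) * p ∈ dg k := by
      have h4 : B - (1 - F) ∈ dg (Wd + (c.length + 1)) :=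
        sub_mem (hL.mono (by omega) hBd) (sub_mem (hL.mono (Nat.zero_le _) hL.one) (hL.mono (by omega) hFd))
      exact hL.mono (by omega) (hL.mul _ _ _ _ h4 hp)
    have h5 := hAn _ h3
    have h6 : ‖cl (A * ((B - (1 - F)) * p))‖ ≤ 2 * ((3 * 2 ^ (c.length + 1) - 4) * η * ‖cl p‖) := by
      refine h5.trans ?_
      have h7 : (1 + η) * ‖cl ((B - (1 - F)) * p)‖ ≤ 2 * ‖cl ((B - (1 - F)) * p)‖ :=
        mul_le_mul_of_nonneg_right (by linarith) (norm_nonneg _)
      linarith
    have h8 : ‖cl ((A - flt a) * (F * p))‖ ≤ 3 * η * ‖cl p‖ := by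
      have h9 : F * p ∈ dg k := hL.mono (by omega) (hL.mul _ _ _ _ hFd hp)
      have h10 := (lit_v h (by omega) hη a).2 _ h9
      rw [← hA] at h10
      have h11 := fal_norm hR (b :: c) (b := k') (by rw [List.length_cons]; omega) p hp
      rw [← hF, one_mul] at h11
      exact h10.trans (mul_le_mul_of_nonneg_left h11 (by positivity))
    have e : (V (clF a (b :: c)) - (1 - fal (a :: b :: c))) * p =
        (V (Fm.imp (Fm.neg (litF a)) (clF b c)) - (1 - A + A * B)) * p + A * ((B - (1 - F)) * p) -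
          (A - flt a) * (F * p) := by
      rw [fal_cons a, ← hF]
      show (V (Fm.imp (Fm.neg (litF a)) (clF b c)) - (1 - flt a * F)) * p = _
      ring
    rw [e, map_sub, map_add]
    refine (norm_sub_le _ _).trans ?_
    have h12 := norm_add_le (cl ((V (Fm.imp (Fm.neg (litF a)) (clF b c)) - (1 - A + A * B)) * p))
      (cl (A * ((B - (1 - F)) * p)))
    have e3 : (3 * (2 : ℝ) ^ ((b :: c).length + 1) - 4) * η * ‖cl p‖
        = 2 * ((3 * 2 ^ (c.length + 1) - 4) * η * ‖cl p‖) + 4 * η * ‖cl p‖ := by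
      rw [List.length_cons, pow_succ]
      ring
    rw [e3]
    linarith

/-- **the axioms are true up to a small error** -/
theorem ax_vi (hR : RW n K Gam X L cl dg) (h : VI cl dg V yy Wd s k η) (hη : 0 ≤ η) (hη1 : η ≤ 1)
    (hkW : k + 2 * Wd ≤ K) {a : Fin n × Bool} {c : List (Fin n × Bool)} (hc : a :: c ∈ Gam) (hs : c.length + 1 ≤ s)
    {k' : ℕ} (hk' : k' + Wd + (c.length + 1) ≤ k) (hk2 : k' + 2 * (c.length + 1) ≤ K) :
    Sml cl dg k' (3 * 2 ^ (c.length + 1) * η) (V (clF a c) - 1) := by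
  intro p hp
  have h1 := cl_fal hR h hη hη1 hkW c a k' hs (by omega) (by omega) p hp
  have h2 := hR.null _ hc k' (by rw [List.length_cons]; omega) p hp
  have e : (V (clF a c) - 1) * p = (V (clF a c) - (1 - fal (a :: c))) * p - fal (a :: c) * p := by ring
  rw [e, map_sub, h2, sub_zero]
  refine h1.trans ?_
  have : 0 ≤ η * ‖cl p‖ := mul_nonneg hη (norm_nonneg _)
  nlinarith

end Pool.Agent.H24.QL
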