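import Mathlib

/-!
# [H24 QL Bool] THEOREM QL (MP_576eff_lc), chapter (5): approximate Boolean algebra

`Lev Sm`: the sets `Sm j` of small elements of level `j`.  `Mu Sm c a`: multiplication by `a` raises the level by at most `c`.
`refl_lem`: for approximately idempotent elements, every Boolean consequence of approximate Boolean equations holds
approximately, with a loss of levels which depends only on the formulas.
-/

set_option autoImplicit false

namespace Pool.Agent.H24.QL

/-- small elements of level `j` -/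
structure Lev {R : Type} [CommRing R] (Sm : ℕ → Set R) : Prop where
  zero : 0 ∈ Sm 0
  neg : ∀ j a, a ∈ Sm j → -a ∈ Sm j
  add : ∀ j a b, a ∈ Sm j → b ∈ Sm j → a + b ∈ Sm (j + 1)
  succ : ∀ j a, a ∈ Sm j → a ∈ Sm (j + 1)

/-- multiplication by `a` raises the level by at most `c` -/
def Mu {R : Type} [CommRing R] (Sm : ℕ → Set R) (c : ℕ) (a : R) : Prop := ∀ j x, x ∈ Sm j → a * x ∈ Sm (j + c)

/-- Boolean expressions; `op true` is the conjunction, `op false` the disjunction -/
inductive BE (N : ℕ) : Type
  | v (i : Fin N)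
  | tt
  | ff
  | op (o : Bool) (p q : BE N)
  | no (p : BE N)

/-- conjunction (`true`) and disjunction (`false`) in a commutative ring -/
def opv {R : Type} [CommRing R] (o : Bool) (x y : R) : R := if o then x * y else x + y - x * y

/-- conjunction (`true`) and disjunction (`false`) of truth values -/
def opb (o : Bool) (x y : Bool) : Bool := if o then x && y else x || y

/-- value in a commutative ring -/
def ev {N : ℕ} {R : Type} [CommRing R] (x : Fin N → R) : BE N → R
  | .v i => x i
  | .tt => 1
  | .ff => 0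
  | .op o p q => opv o (ev x p) (ev x q)
  | .no p => 1 - ev x p

/-- Boolean value -/
def bv {N : ℕ} (a : Fin N → Bool) : BE N → Bool
  | .v i => a i
  | .tt => true
  | .ff => false
  | .op o p q => opb o (bv a p) (bv a q)
  | .no p => !bv a p

section basic

variable {R : Type} [CommRing R] {Sm : ℕ → Set R}

theorem Lev.mono (h : Lev Sm) {i j : ℕ} (hij : i ≤ j) {a : R} (ha : a ∈ Sm i) : a ∈ Sm j := by
  induction j, hij using Nat.le_induction with
  | base => exact ha
  | succ j _ ih => exact h.succ _ _ ih

theorem Lev.zero' (h : Lev Sm) (j : ℕ) : (0 : R) ∈ Sm j := h.mono (Nat.zero_le _) h.zero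

theorem Lev.sub (h : Lev Sm) {j : ℕ} {a b : R} (ha : a ∈ Sm j) (hb : b ∈ Sm j) : a - b ∈ Sm (j + 1) := by
  rw [sub_eq_add_neg]
  exact h.add _ _ _ ha (h.neg _ _ hb)

theorem Lev.sum (h : Lev Sm) {ι : Type} (s : Finset ι) (f : ι → R) {j : ℕ} (hf : ∀ i ∈ s, f i ∈ Sm j) :
    ∑ i ∈ s, f i ∈ Sm (j + s.card) := by
  classical
  induction s using Finset.induction_on with
  | empty =>
    rw [Finset.sum_empty]
    exact h.zero' _
  | insert a s ha ih =>
    rw [Finset.sum_insert ha, Finset.card_insert_of_notMem ha, ← add_assoc]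
    exact h.add _ _ _ (h.mono (Nat.le_add_right _ _) (hf a (Finset.mem_insert_self _ _)))
      (ih fun i hi => hf i (Finset.mem_insert_of_mem hi))

theorem Mu.mono (h : Lev Sm) {c d : ℕ} (hcd : c ≤ d) {a : R} (ha : Mu Sm c a) : Mu Sm d a := fun j x hx =>
  h.mono (Nat.add_le_add_left hcd j) (ha j x hx)

theorem Mu.mul {c d : ℕ} {a b : R} (ha : Mu Sm c a) (hb : Mu Sm d b) : Mu Sm (d + c) (a * b) := by
  intro j x hx
  rw [mul_assoc, ← add_assoc]
  exact ha _ _ (hb _ _ hx)

theorem Mu.add (h : Lev Sm) {c : ℕ} {a b : R} (ha : Mu Sm c a) (hb : Mu Sm c b) : Mu Sm (c + 1) (a + b) := by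
  intro j x hx
  rw [add_mul, ← add_assoc]
  exact h.add _ _ _ (ha _ _ hx) (hb _ _ hx)

theorem Mu.sub (h : Lev Sm) {c : ℕ} {a b : R} (ha : Mu Sm c a) (hb : Mu Sm c b) : Mu Sm (c + 1) (a - b) := by
  intro j x hx
  rw [sub_mul, ← add_assoc]
  exact h.sub (ha _ _ hx) (hb _ _ hx)

theorem Mu.one : Mu Sm 0 (1 : R) := fun j x hx => by rwa [one_mul]

theorem Mu.zero (h : Lev Sm) : Mu Sm 0 (0 : R) := fun j x _ => by
  rw [zero_mul]
  exact h.zero' _

theorem ite_mem (h : Lev Sm) (b : Bool) {j : ℕ} {y : R} (hy : y ∈ Sm j) : (if b then 1 else 0) * y ∈ Sm j := by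
  cases b
  · have e : (if false = true then (1 : R) else 0) * y = 0 := by simp
    rw [e]
    exact h.zero' _
  · have e : (if true = true then (1 : R) else 0) * y = y := by simp
    rw [e]
    exact hy

theorem Mu.prod {ι : Type} (s : Finset ι) (f : ι → R) {c : ℕ} (hf : ∀ i ∈ s, Mu Sm c (f i)) :
    Mu Sm (s.card * c) (∏ i ∈ s, f i) := by
  classical
  induction s using Finset.induction_on with
  | empty =>
    rw [Finset.prod_empty, Finset.card_empty, Nat.zero_mul]
    exact Mu.one
  | insert a s ha ih =>
    rw [Finset.prod_insert ha, Finset.card_insert_of_notMem ha, Nat.succ_mul]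
    exact Mu.mul (hf a (Finset.mem_insert_self _ _)) (ih fun i hi => hf i (Finset.mem_insert_of_mem hi))

end basic

/-- the cost of multiplication by the value of an expression -/
def mu {N : ℕ} : BE N → ℕ
  | .v _ => 1
  | .tt => 0
  | .ff => 0
  | .op _ p q => mu q + mu p + 2
  | .no p => mu p + 1

/-- the cost of the evaluation at an atom -/
def cs {N : ℕ} : BE N → ℕ
  | .v _ => N * 2
  | .tt => 0
  | .ff => 0
  | .op _ p q => cs p + cs q + mu q + 3
  | .no p => cs p

section refl

variable {R : Type} [CommRing R] {Sm : ℕ → Set R} {N : ℕ}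

theorem mu_ev (h : Lev Sm) {x : Fin N → R} (hx : ∀ i, Mu Sm 1 (x i)) (p : BE N) : Mu Sm (mu p) (ev x p) := by
  induction p with
  | v i => exact hx i
  | tt => exact Mu.one
  | ff => exact Mu.zero h
  | op o p q hp hq =>
    cases o
    · exact Mu.sub h (Mu.add h (hp.mono h (Nat.le_add_left _ _)) (hq.mono h (Nat.le_add_right _ _)))
        ((hp.mul hq).mono h (Nat.le_succ _))
    · exact (hp.mul hq).mono h (Nat.le_add_right _ _)
  | no p hp => exact Mu.sub h (Mu.one.mono h (Nat.zero_le _)) hp

/-- the atoms -/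
def chi (x : Fin N → R) (a : Fin N → Bool) : R := ∏ i, if a i then x i else 1 - x i

theorem mu_chi (h : Lev Sm) {x : Fin N → R} (hx : ∀ i, Mu Sm 1 (x i)) (a : Fin N → Bool) :
    Mu Sm (N * 2) (chi x a) := by
  have h1 := Mu.prod Finset.univ (fun i => if a i then x i else 1 - x i) (c := 2) (fun i _ => by
    split_ifs
    · exact (hx i).mono h (by omega)
    · exact Mu.sub h (Mu.one.mono h (by omega)) (hx i))
  rwa [Finset.card_univ, Fintype.card_fin] at h1

theorem sum_chi (x : Fin N → R) : ∑ a, chi x a = 1 := by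
  have h1 := Finset.prod_univ_sum (fun _ : Fin N => (Finset.univ : Finset Bool))
    (fun i b => if b then x i else 1 - x i)
  rw [Fintype.piFinset_univ] at h1
  unfold chi
  rw [← h1]
  refine Finset.prod_eq_one fun i _ => ?_
  rw [Fintype.sum_bool]
  simp

theorem chi_v (h : Lev Sm) {x : Fin N → R} (hx : ∀ i, Mu Sm 1 (x i)) {j : ℕ} (hid : ∀ i, x i * x i - x i ∈ Sm j)
    (a : Fin N → Bool) (i : Fin N) : chi x a * x i - (if a i then 1 else 0) * chi x a ∈ Sm (j + N * 2) := by
  classical
  obtain ⟨rest, hr⟩ : ∃ rest, rest = ∏ l ∈ Finset.univ.erase i, (if a l then x l else 1 - x l) := ⟨_, rfl⟩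
  have e1 : chi x a = (if a i then x i else 1 - x i) * rest := by
    rw [hr]
    exact (Finset.mul_prod_erase _ _ (Finset.mem_univ i)).symm
  have h2 : Mu Sm (N * 2) rest := by
    have h1 := Mu.prod (Finset.univ.erase i) (fun i => if a i then x i else 1 - x i) (c := 2) (fun i _ => by
      split_ifs
      · exact (hx i).mono h (by omega)
      · exact Mu.sub h (Mu.one.mono h (by omega)) (hx i))
    rw [← hr] at h1
    refine h1.mono h (Nat.mul_le_mul_right 2 ?_)
    rw [Finset.card_erase_of_mem (Finset.mem_univ i), Finset.card_univ, Fintype.card_fin]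
    omega
  rw [e1]
  split_ifs with hi
  · have e2 : x i * rest * x i - 1 * (x i * rest) = rest * (x i * x i - x i) := by ring
    rw [e2]
    exact h2 _ _ (hid i)
  · have e2 : (1 - x i) * rest * x i - 0 * ((1 - x i) * rest) = rest * -(x i * x i - x i) := by ring
    rw [e2]
    exact h2 _ _ (h.neg _ _ (hid i))

/-- an atom decides every expression -/
theorem chi_ev (h : Lev Sm) {x : Fin N → R} (hx : ∀ i, Mu Sm 1 (x i)) {j : ℕ} (hid : ∀ i, x i * x i - x i ∈ Sm j)
    (a : Fin N → Bool) (p : BE N) :
    chi x a * ev x p - (if bv a p then 1 else 0) * chi x a ∈ Sm (j + cs p) := by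
  induction p with
  | v i => exact chi_v h hx hid a i
  | tt =>
    have e : chi x a * ev x .tt - (if bv a (.tt : BE N) then 1 else 0) * chi x a = 0 := by
      simp [ev, bv]
    rw [e]
    exact h.zero' _
  | ff =>
    have e : chi x a * ev x .ff - (if bv a (.ff : BE N) then 1 else 0) * chi x a = 0 := by
      simp [ev, bv]
    rw [e]
    exact h.zero' _
  | no p ih =>
    have e : chi x a * ev x (.no p) - (if bv a (.no p) then 1 else 0) * chi x a =
        -(chi x a * ev x p - (if bv a p then 1 else 0) * chi x a) := by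
      cases hb : bv a p <;> simp [ev, bv, hb] <;> ring
    rw [e]
    exact h.neg _ _ ih
  | op o p q hp hq =>
    have h1 := mu_ev h hx q _ _ hp
    have h2 : (if bv a p then 1 else 0) * (chi x a * ev x q - (if bv a q then 1 else 0) * chi x a) ∈
        Sm (j + cs q) := ite_mem h _ hq
    have h3 := h.add (j + (cs p + cs q + mu q)) _ _ (h.mono (by omega) h1) (h.mono (by omega) h2)
    cases o
    · have e : chi x a * ev x (.op false p q) - (if bv a (.op false p q) then 1 else 0) * chi x a =
          (chi x a * ev x p - (if bv a p then 1 else 0) * chi x a) +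
            (chi x a * ev x q - (if bv a q then 1 else 0) * chi x a) -
          (ev x q * (chi x a * ev x p - (if bv a p then 1 else 0) * chi x a) +
            (if bv a p then 1 else 0) * (chi x a * ev x q - (if bv a q then 1 else 0) * chi x a)) := by
        cases hb : bv a p <;> cases hc : bv a q <;> simp [ev, bv, opv, opb, hb, hc] <;> ring
      rw [e]
      have h4 := h.add (j + (cs p + cs q + mu q)) _ _ (h.mono (by omega) hp) (h.mono (by omega) hq)
      exact h.mono (by show _ ≤ j + (cs p + cs q + mu q + 3); omega) (h.sub h4 h3)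
    · have e : chi x a * ev x (.op true p q) - (if bv a (.op true p q) then 1 else 0) * chi x a =
          ev x q * (chi x a * ev x p - (if bv a p then 1 else 0) * chi x a) +
            (if bv a p then 1 else 0) * (chi x a * ev x q - (if bv a q then 1 else 0) * chi x a) := by
        cases hb : bv a p <;> cases hc : bv a q <;> simp [ev, bv, opv, opb, hb, hc] <;> ring
      rw [e]
      exact h.mono (by show _ ≤ j + (cs p + cs q + mu q + 3); omega) h3

/-- the loss -/
def loss {N : ℕ} (hyps : List (BE N × BE N)) (p q : BE N) : ℕ :=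
  (hyps.map fun h => cs h.1 + cs h.2 + N * 2).sum + cs p + cs q + mu p + mu q + 4 + 2 ^ N

/-- **approximate Boolean consequence** -/
theorem refl_lem (h : Lev Sm) {x : Fin N → R} (hx : ∀ i, Mu Sm 1 (x i)) {j : ℕ}
    (hid : ∀ i, x i * x i - x i ∈ Sm j) (hyps : List (BE N × BE N)) (hh : ∀ g ∈ hyps, ev x g.1 - ev x g.2 ∈ Sm j)
    (p q : BE N) (ht : ∀ a : Fin N → Bool, (∀ g ∈ hyps, bv a g.1 = bv a g.2) → bv a p = bv a q) :
    ev x p - ev x q ∈ Sm (j + loss hyps p q) := by
  obtain ⟨m, hm⟩ : ∃ m, m = (hyps.map fun h => cs h.1 + cs h.2 + N * 2).sum + cs p + cs q + mu p + mu q + 4 :=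
    ⟨_, rfl⟩
  have key : ∀ a : Fin N → Bool, chi x a * (ev x p - ev x q) ∈ Sm (j + m) := by
    intro a
    by_cases hg : ∀ g ∈ hyps, bv a g.1 = bv a g.2
    · have h1 := chi_ev h hx hid a p
      have h2 := chi_ev h hx hid a q
      rw [ht a hg] at h1
      have h3 := h.sub (j := j + (cs p + cs q)) (h.mono (by omega) h1) (h.mono (by omega) h2)
      have e : chi x a * (ev x p - ev x q) =
          chi x a * ev x p - (if bv a q then 1 else 0) * chi x a -
            (chi x a * ev x q - (if bv a q then 1 else 0) * chi x a) := by ring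
      rw [e]
      exact h.mono (by omega) h3
    · push Not at hg
      obtain ⟨g, hg1, hg2⟩ := hg
      have hle : cs g.1 + cs g.2 + N * 2 ≤ (hyps.map fun h => cs h.1 + cs h.2 + N * 2).sum :=
        List.le_sum_of_mem (List.mem_map_of_mem (f := fun h : BE N × BE N => cs h.1 + cs h.2 + N * 2) hg1)
      have h1 := chi_ev h hx hid a g.1
      have h2 := chi_ev h hx hid a g.2
      have h3 := mu_chi h hx a _ _ (hh g hg1)
      obtain ⟨l, hl⟩ : ∃ l, l = cs g.1 + cs g.2 + N * 2 := ⟨_, rfl⟩
      have h4 := h.sub (j := j + l) (h.mono (by omega) h1) (h.mono (by omega) h2)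
      have h5 := h.sub (j := j + l + 1) (h.mono (by omega) h3) h4
      have h6 : chi x a ∈ Sm (j + l + 2) := by
        have e : chi x a * (ev x g.1 - ev x g.2) -
            (chi x a * ev x g.1 - (if bv a g.1 then 1 else 0) * chi x a -
              (chi x a * ev x g.2 - (if bv a g.2 then 1 else 0) * chi x a)) =
            ((if bv a g.1 then 1 else 0) - (if bv a g.2 then 1 else 0)) * chi x a := by ring
        rw [e] at h5
        cases hb : bv a g.1 <;> cases hc : bv a g.2 <;> rw [hb, hc] at h5 hg2
        · exact absurd rfl hg2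
        · have h7 := h.neg _ _ h5
          simpa using h7
        · simpa using h5
        · exact absurd rfl hg2
      have h7 : Mu Sm (mu p + mu q + 1) (ev x p - ev x q) :=
        Mu.sub h ((mu_ev h hx p).mono h (by omega)) ((mu_ev h hx q).mono h (by omega))
      have h8 := h7 _ _ h6
      rw [mul_comm] at h8
      exact h.mono (by omega) h8
  have h1 := h.sum Finset.univ (fun a => chi x a * (ev x p - ev x q)) (fun a _ => key a)
  rw [← Finset.sum_mul, sum_chi, one_mul, Finset.card_univ, Fintype.card_fun, Fintype.card_bool,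
    Fintype.card_fin] at h1
  refine h.mono ?_ h1
  unfold loss
  omega

end refl

end Pool.Agent.H24.QL
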