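import Pool.Agent.H24.QL.Star
import Pool.Agent.H3.Frg.Formula

/-!
# [H24 QL Frm] THEOREM QL (MP_576eff_lc), chapter (5): the output

`rebalance`: if `T` is an approximate homomorphism on the trees of depth `≤ C (log s + 1)` with `≤ C s ^ (1 + ε)` leaves
(literals `(i, b)`, constants), then there is an approximate homomorphism `V` on all formulas of the Frege system with
at most `s` occurrences of variables, of ANY depth, with values among the values of `T`.
-/

set_option autoImplicit false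

namespace Pool.Agent.H24.QL

open Pool.Agent.H3.Frg

/-- negation of literals -/
def ngl {ι : Type} (a : ι × Bool) : ι × Bool := (a.1, !a.2)

/-- negation normal form of `A` (`b = true`) or of `¬ A` (`b = false`) -/
def nnf {ι : Type} : Bool → Fm ι → Tr (ι × Bool)
  | b, .var i => .lit (i, b)
  | b, .neg A => nnf (!b) A
  | b, .imp A B => .op (!b) (nnf (!b) A) (nnf b B)

variable {ι R : Type} [CommRing R]

theorem nnf_sz (b : Bool) (A : Fm ι) : (nnf b A).sz = A.leaves := by
  induction A generalizing b with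
  | var i => rfl
  | neg A ih => exact ih _
  | imp A B ihA ihB =>
    show (nnf (!b) A).sz + (nnf b B).sz = _
    rw [ihA, ihB]
    rfl

theorem nnf_dual (b : Bool) (A : Fm ι) : dual ngl (nnf b A) = nnf (!b) A := by
  induction A generalizing b with
  | var i => rfl
  | neg A ih => exact ih _
  | imp A B ihA ihB =>
    show Tr.op (!(!b)) (dual ngl (nnf (!b) A)) (dual ngl (nnf b B)) = Tr.op (!(!b)) (nnf (!(!b)) A) (nnf (!b) B)
    rw [ihA, ihB]

theorem fm_inh (A : Fm ι) : Nonempty ι := by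
  induction A with
  | var i => exact ⟨i⟩
  | neg A ih => exact ih
  | imp A B ihA ihB => exact ihA

theorem fm_pos (A : Fm ι) : 1 ≤ A.leaves := by
  induction A with
  | var i => exact le_rfl
  | neg A ih => exact ih
  | imp A B ihA ihB => exact Nat.le_add_right_of_le ihA

/-- the output for a fixed `k` -/
theorem rebalance_k {Sm : ℕ → Set R} {d S s k : ℕ} {T : Tr (ι × Bool) → R} (hk : 3 ≤ k) (hs : 1 ≤ s)
    (h : HT Sm ngl d S T) (hd : 3 * sc k s ≤ d) (hS : 3 * s * 2 ^ Nat.log k s ≤ S) :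
    ∃ V : Fm ι → R, (∀ A, A.leaves ≤ s → ∃ F, V A = T F ∧ F.dp ≤ d ∧ F.lv ≤ S) ∧ (∀ A, ∃ F, V A = T F) ∧
      (∀ i, V (.var i) = T (.lit (i, true))) ∧ (∀ A, A.leaves ≤ s → V A * V A - V A ∈ Sm 0) ∧
      (∀ A, A.leaves ≤ s → V (.neg A) - (1 - V A) ∈ Sm (lvl k s + KK)) ∧
      ∀ A B, (Fm.imp A B).leaves ≤ s → V (.imp A B) - (1 - V A + V A * V B) ∈ Sm (lvl k s + KK + KK) := by
  by_cases hι : Nonempty ι
  swap
  · exact ⟨fun A => absurd (fm_inh A) hι, fun A => absurd (fm_inh A) hι, fun A => absurd (fm_inh A) hι,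
      fun i => absurd ⟨i⟩ hι, fun A => absurd (fm_inh A) hι, fun A => absurd (fm_inh A) hι,
      fun A => absurd (fm_inh A) hι⟩
  obtain ⟨i₀⟩ := hι
  have hbd : ∀ F : Tr (ι × Bool), F.sz ≤ s → (star k hk F).dp ≤ d ∧ (star k hk F).lv ≤ S := by
    intro F hF
    refine ⟨(star_dp hk (i₀, true) s F hF).trans hd, (star_lv hk (i₀, true) _ F rfl).trans (le_trans ?_ hS)⟩
    unfold lb
    split_ifs with h1
    · have h2 : 1 ≤ 2 ^ Nat.log k s := Nat.one_le_two_pow
      have h3 : 3 * s * 1 ≤ 3 * s * 2 ^ Nat.log k s := Nat.mul_le_mul_left _ h2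
      omega
    · exact Nat.mul_le_mul (by omega) (Nat.pow_le_pow_right (by norm_num) (Nat.log_mono_right hF))
  have hU := hu_of_ht hk h (i₀, true) hbd
  have hng : ∀ a : ι × Bool, T (star k hk (.lit (ngl a))) - (1 - T (star k hk (.lit a))) ∈ Sm (0 + KK) := by
    intro a
    rw [star_small hk (F := .lit (ngl a)) le_rfl, star_small hk (F := .lit a) le_rfl]
    exact h.lev.mono (Nat.zero_le _) (h.ng a)
  obtain ⟨hP, hH, hM, hD⟩ := all_scales hU (i₀, true) hng hs s le_rfl
  refine ⟨fun A => T (star k hk (nnf true A)), ?_, fun A => ⟨_, rfl⟩, ?_, ?_, ?_, ?_⟩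
  · intro A hA
    have h1 := hbd (nnf true A) (by rw [nnf_sz]; exact hA)
    exact ⟨_, rfl, h1.1, h1.2⟩
  · intro i
    show T (star k hk (.lit (i, true))) = _
    rw [star_small hk (F := .lit (i, true)) le_rfl]
    rfl
  · intro A hA
    have h1 := hbd (nnf true A) (by rw [nnf_sz]; exact hA)
    exact h.idem _ h1.1 h1.2
  · intro A hA
    have h1 := hD (nnf true A) (by rw [nnf_sz]; exact hA)
    rw [nnf_dual] at h1
    exact h1
  · intro A B hAB
    have hAB' : A.leaves + B.leaves ≤ s := hAB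
    have hpA := fm_pos A
    have hpB := fm_pos B
    have h1 := hD (nnf true A) (by rw [nnf_sz]; omega)
    rw [nnf_dual] at h1
    have h2 := hH false (nnf false A) (nnf true B) (by rw [nnf_sz, nnf_sz]; exact hAB')
    have key := refl_lem h.lev (x := fun i => T (star k hk ((![nnf true (.imp A B), nnf true A, nnf true B,
      nnf false A] : Fin 4 → Tr (ι × Bool)) i))) (fun i => h.mu _) (j := lvl k s + KK) (by
      intro i
      have h3 : ((![nnf true (.imp A B), nnf true A, nnf true B, nnf false A] : Fin 4 → Tr (ι × Bool)) i).sz ≤ s := by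
        fin_cases i
        · show (nnf true (.imp A B)).sz ≤ s
          rw [nnf_sz]
          exact hAB
        · show (nnf true A).sz ≤ s
          rw [nnf_sz]
          omega
        · show (nnf true B).sz ≤ s
          rw [nnf_sz]
          omega
        · show (nnf false A).sz ≤ s
          rw [nnf_sz]
          omega
      exact h.lev.mono (Nat.zero_le _) (h.idem _ (hbd _ h3).1 (hbd _ h3).2))
      [(.v 0, .op false (.v 3) (.v 2)), (.v 3, .no (.v 1))] (by
      simp only [List.mem_cons, List.not_mem_nil, or_false]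
      rintro g (rfl | rfl)
      · exact h2
      · exact h1)
      (.v 0) (.no (.op true (.v 1) (.no (.v 2)))) (by
      intro a ha
      have e1 : a 0 = opb false (a 3) (a 2) := ha (.v 0, .op false (.v 3) (.v 2)) (by simp)
      have e2 : a 3 = !a 1 := ha (.v 3, .no (.v 1)) (by simp)
      show a 0 = !(opb true (a 1) (!a 2))
      rw [e1, e2]
      cases a 1 <;> cases a 2 <;> rfl)
    have e : T (star k hk (nnf true (.imp A B))) - (1 - T (star k hk (nnf true A)) +
        T (star k hk (nnf true A)) * T (star k hk (nnf true B))) =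
        T (star k hk (nnf true (.imp A B))) - (1 - T (star k hk (nnf true A)) *
          (1 - T (star k hk (nnf true B)))) := by ring
    show T (star k hk (nnf true (.imp A B))) - (1 - T (star k hk (nnf true A)) +
        T (star k hk (nnf true A)) * T (star k hk (nnf true B))) ∈ Sm (lvl k s + KK + KK)
    rw [e]
    exact h.lev.mono (Nat.add_le_add_left (by decide) _) key

/-- **the output of chapter (5)** -/
theorem rebalance (ε : ℝ) (hε : 0 < ε) : ∃ C : ℕ, ∀ (ι R : Type) [CommRing R] (Sm : ℕ → Set R) (d S s : ℕ)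
    (T : Tr (ι × Bool) → R), 1 ≤ s → HT Sm ngl d S T → C * (Nat.log 2 s + 1) ≤ d → (C : ℝ) * (s : ℝ) ^ (1 + ε) ≤ S →
    ∃ V : Fm ι → R, (∀ A, A.leaves ≤ s → ∃ F, V A = T F ∧ F.dp ≤ d ∧ F.lv ≤ S) ∧ (∀ A, ∃ F, V A = T F) ∧
      (∀ i, V (.var i) = T (.lit (i, true))) ∧ (∀ A, A.leaves ≤ s → V A * V A - V A ∈ Sm 0) ∧
      (∀ A, A.leaves ≤ s → V (.neg A) - (1 - V A) ∈ Sm (C * (Nat.log 2 s + 1))) ∧
      ∀ A B, (Fm.imp A B).leaves ≤ s → V (.imp A B) - (1 - V A + V A * V B) ∈ Sm (C * (Nat.log 2 s + 1)) := by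
  obtain ⟨m, hm⟩ := exists_nat_ge (1 / ε)
  obtain ⟨m', hm'⟩ : ∃ m', m' = m + 2 := ⟨_, rfl⟩
  obtain ⟨k, hk⟩ : ∃ k, k = 2 ^ m' := ⟨_, rfl⟩
  have hk3 : 3 ≤ k := by
    have h1 : 2 ^ 2 ≤ 2 ^ m' := Nat.pow_le_pow_right (by norm_num) (by omega)
    omega
  refine ⟨300 + 2 * KK + (KK + 1 + KK + KK) * k, ?_⟩
  obtain ⟨C, hC⟩ : ∃ C, C = 300 + 2 * KK + (KK + 1 + KK + KK) * k := ⟨_, rfl⟩
  rw [← hC]
  intro ι R _ Sm d S s T hs h hd hS
  have hsc : sc k s ≤ k * (Nat.log 2 s + 1) :=
    sc_pow (by omega) _ s (Nat.lt_pow_succ_log_self (by norm_num) s).le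
  have hC3 : 3 * k ≤ C := by
    have h1 : 3 * k ≤ (KK + 1 + KK + KK) * k := Nat.mul_le_mul_right _ (by decide)
    omega
  have hlvl : lvl k s + KK + KK ≤ C * (Nat.log 2 s + 1) := by
    have h1 : (KK + 1 + KK + KK) * sc k s ≤ (KK + 1 + KK + KK) * (k * (Nat.log 2 s + 1)) := Nat.mul_le_mul_left _ hsc
    have h2 : C * (Nat.log 2 s + 1) = (300 + 2 * KK) * (Nat.log 2 s + 1) +
        (KK + 1 + KK + KK) * (k * (Nat.log 2 s + 1)) := by rw [hC]; ring
    have h3 : (300 + 2 * KK) * 1 ≤ (300 + 2 * KK) * (Nat.log 2 s + 1) := Nat.mul_le_mul_left _ (by omega)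
    unfold lvl
    omega
  obtain ⟨V, h1, h2, h3, h4, h5, h6⟩ := rebalance_k hk3 hs h (by
    refine le_trans ?_ hd
    calc 3 * sc k s ≤ 3 * (k * (Nat.log 2 s + 1)) := Nat.mul_le_mul_left _ hsc
      _ = 3 * k * (Nat.log 2 s + 1) := by ring
      _ ≤ C * (Nat.log 2 s + 1) := Nat.mul_le_mul_right _ hC3) (by
    have hs0 : (1 : ℝ) ≤ s := by exact_mod_cast hs
    have hs00 : (0 : ℝ) < s := by linarith
    have h1 : ((2 : ℝ) ^ Nat.log k s) ^ m' ≤ s := by
      have h2 : (2 ^ Nat.log k s) ^ m' ≤ s := by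
        rw [← pow_mul, mul_comm, pow_mul, ← hk]
        exact Nat.pow_log_le_self k (by omega)
      exact_mod_cast h2
    have hm0 : (0 : ℝ) < m' := by
      have : 0 < m' := by omega
      exact_mod_cast this
    have h3 : (2 : ℝ) ^ Nat.log k s ≤ (s : ℝ) ^ ε := by
      have h4 : (2 : ℝ) ^ Nat.log k s = (((2 : ℝ) ^ Nat.log k s) ^ m') ^ (1 / (m' : ℝ)) := by
        rw [← Real.rpow_natCast (((2 : ℝ) ^ Nat.log k s)) m', ← Real.rpow_mul (by positivity), mul_one_div_cancel hm0.ne',
          Real.rpow_one]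
      rw [h4]
      calc (((2 : ℝ) ^ Nat.log k s) ^ m') ^ (1 / (m' : ℝ)) ≤ (s : ℝ) ^ (1 / (m' : ℝ)) :=
            Real.rpow_le_rpow (by positivity) h1 (by positivity)
        _ ≤ (s : ℝ) ^ ε := by
            refine Real.rpow_le_rpow_of_exponent_le hs0 ?_
            rw [div_le_iff₀ hm0]
            have h5 : (m : ℝ) ≤ m' := by
              rw [hm']
              push_cast
              linarith
            rw [div_le_iff₀ hε] at hm
            nlinarith
    have h6 : ((3 * s * 2 ^ Nat.log k s : ℕ) : ℝ) ≤ (S : ℝ) := by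
      refine le_trans ?_ hS
      rw [Real.rpow_add hs00, Real.rpow_one]
      push_cast
      have h7 : (3 : ℝ) ≤ C := by
        have : 3 ≤ C := by omega
        exact_mod_cast this
      calc (3 : ℝ) * s * 2 ^ Nat.log k s ≤ 3 * s * (s : ℝ) ^ ε := by
            refine mul_le_mul_of_nonneg_left h3 (by positivity)
        _ ≤ C * s * (s : ℝ) ^ ε := by
            refine mul_le_mul_of_nonneg_right (mul_le_mul_of_nonneg_right h7 hs00.le) (by positivity)
        _ = C * ((s : ℝ) * (s : ℝ) ^ ε) := by ring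
    exact_mod_cast h6)
  exact ⟨V, h1, h2, h3, h4, fun A hA => h.lev.mono (by omega) (h5 A hA), fun A B hAB => h.lev.mono hlvl (h6 A B hAB)⟩

end Pool.Agent.H24.QL
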