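import Pool.Agent.H24.QL.Mono

/-!
# [H24 QL Ind] THEOREM QL (MP_576eff_lc), chapter (5): induction over the scales

`sc k n`: the number of scales; `n ≤ 2 ^ m → sc k n ≤ k m`.
`all_scales`: PI, HOM, MONO, DUAL for trees with at most `n` literals at level `lvl k n = 300 + (3 KK + 1) sc k n`.
-/

set_option autoImplicit false

namespace Pool.Agent.H24.QL

variable {L R : Type} [CommRing R] {Sm : ℕ → Set R} {k s : ℕ} {U : Tr L → R}

theorem sg_lt {k n : ℕ} (hn : 1 ≤ n) : sg k n < n := by
  unfold sg
  rcases Nat.eq_zero_or_pos k with rfl | hk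
  · rw [Nat.div_zero]
    exact hn
  · rw [Nat.div_lt_iff_lt_mul hk, mul_comm n k]
    exact (Nat.mul_lt_mul_right hn).2 (by omega)

theorem sg_mono {k m n : ℕ} (h : m ≤ n) : sg k m ≤ sg k n := by
  unfold sg
  exact Nat.div_le_div_right (Nat.mul_le_mul_left _ h)

/-- the number of scales -/
def sc (k n : ℕ) : ℕ := if h : n ≤ 1 then 0 else sc k (sg k n) + 1
termination_by n
decreasing_by exact sg_lt (by omega)

theorem sc_small {k n : ℕ} (h : n ≤ 1) : sc k n = 0 := by
  rw [sc, dif_pos h]

theorem sc_step {k n : ℕ} (h : 2 ≤ n) : sc k n = sc k (sg k n) + 1 := by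
  rw [sc, dif_neg (by omega)]

theorem sc_mono {k n : ℕ} : ∀ {m : ℕ}, m ≤ n → sc k m ≤ sc k n := by
  induction n using Nat.strong_induction_on with
  | _ n ih =>
    intro m hm
    rcases Nat.lt_or_ge m 2 with h | h
    · rw [sc_small (by omega)]
      exact Nat.zero_le _
    · rw [sc_step h, sc_step (h.trans hm)]
      exact Nat.succ_le_succ (ih _ (sg_lt (by omega)) (sg_mono hm))

theorem sc_pow {k : ℕ} (hk : 1 ≤ k) (m : ℕ) : ∀ n, n ≤ 2 ^ m → sc k n ≤ k * m := by
  induction m with
  | zero =>
    intro n hn
    rw [sc_small (by simpa using hn)]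
    exact Nat.zero_le _
  | succ m ih =>
    have key : ∀ j n, k * n ≤ (k + j) * 2 ^ m → sc k n ≤ k * m + j := by
      intro j
      induction j with
      | zero =>
        intro n hn
        exact ih n (Nat.le_of_mul_le_mul_left (by simpa using hn) hk)
      | succ j ihj =>
        intro n hn
        rcases Nat.lt_or_ge (2 ^ m) n with h | h
        · have h1 : 2 ≤ n := by
            have := Nat.one_le_two_pow (n := m)
            omega
          rw [sc_step h1, ← add_assoc]
          refine Nat.succ_le_succ (ihj _ ?_)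
          have h2 : k * sg k n ≤ (k - 1) * n := by
            unfold sg
            exact Nat.mul_div_le _ _
          refine h2.trans ?_
          have h3 : k * n = (k - 1) * n + n := by
            obtain ⟨l, rfl⟩ : ∃ l, k = l + 1 := ⟨k - 1, by omega⟩
            rw [Nat.add_sub_cancel, Nat.succ_mul]
          have h4 : (k + (j + 1)) * 2 ^ m = (k + j) * 2 ^ m + 2 ^ m := by ring
          omega
        · exact (ih n h).trans (Nat.le_add_right _ _)
    intro n hn
    have h1 := key k n (by
      have h2 : (k + k) * 2 ^ m = k * 2 ^ (m + 1) := by ring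
      rw [h2]
      exact Nat.mul_le_mul_left _ hn)
    rw [Nat.mul_succ]
    exact h1

/-- the level -/
def lvl (k n : ℕ) : ℕ := 300 + (KK + 1 + KK + KK) * sc k n

/-- **all scales** -/
theorem all_scales (h : HU Sm k s U) (a₀ : L) {ng : L → L} (hng : ∀ a, U (.lit (ng a)) - (1 - U (.lit a)) ∈ Sm 0)
    (hs : 1 ≤ s) (n : ℕ) : n ≤ s → PIc Sm U n (lvl k n) ∧ HOMc Sm U n (lvl k n) ∧ MONOc Sm U n (lvl k n) ∧
      DUALc Sm U ng n (lvl k n) := by
  induction n using Nat.strong_induction_on with
  | _ n ih =>
    intro hn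
    rcases Nat.lt_or_ge n 2 with h2 | h2
    · have h1 : lvl k n = 300 := by
        unfold lvl
        rw [sc_small (by omega), Nat.mul_zero]
      rw [h1]
      refine ⟨fun C w hw => h.lev.mono (by omega) (pi_base h hs a₀ C w (by omega)),
        fun o F G hF => h.lev.mono (by omega) (hom_base h hs a₀ o F G (by omega)),
        fun F F' hle hF => h.lev.mono (by omega) (mono_base h hs a₀ F F' hle (by omega)),
        fun F hF => dual_base h hs a₀ hng F (by omega)⟩
    · have h1 : lvl k n = lvl k (sg k n) + (KK + 1 + KK + KK) := by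
        unfold lvl
        rw [sc_step h2, Nat.mul_succ, ← add_assoc]
      have h3 : 300 ≤ lvl k (sg k n) := Nat.le_add_right _ _
      obtain ⟨hP, hH, hM, hD⟩ := ih (sg k n) (sg_lt (by omega)) (sg_le.trans hn)
      rw [h1]
      refine ⟨?_, ?_, ?_, ?_⟩
      · intro C w hw
        exact h.lev.mono (by omega) (pi_step h a₀ hn hs (by omega) hP hH C w hw)
      · intro o F G hF
        exact h.lev.mono (by omega) (hom_step h a₀ hn hs (by omega) hP hH o F G hF)
      · intro F F' hle hF
        exact h.lev.mono (by omega) (mono_step h a₀ hn hs (by omega) hP hH hM F F' hle hF)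
      · intro F hF
        exact h.lev.mono (by omega) (dual_step h a₀ hng hn hs h3 hP hH hM hD F hF)

end Pool.Agent.H24.QL
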