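import Pool.Agent.H24.QL.StepC

/-!
# [H24 QL Mono] THEOREM QL (MP_576eff_lc), chapter (5): monotonicity and duality

`Le`: the order on trees generated by `0 ≤ 1`; `MONOc n j`: `U F ∧ ¬ U F' ≈ 0` for `Le F F'`;
`dual ng`: the dual tree (negation); `DUALc n j`: `U (dual F) ≈ ¬ U F`.
-/

set_option autoImplicit false

namespace Pool.Agent.H24.QL

variable {L R : Type} [CommRing R] {Sm : ℕ → Set R} {k s : ℕ} {U : Tr L → R}

/-- the order generated by `0 ≤ 1` -/
inductive Le : Tr L → Tr L → Prop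
  | lit (a : L) : Le (.lit a) (.lit a)
  | cst (b : Bool) : Le (.cst b) (.cst b)
  | zo : Le (.cst false) (.cst true)
  | op (o : Bool) (s t s' t' : Tr L) : Le s s' → Le t t' → Le (.op o s t) (.op o s' t')

theorem Le.refl (F : Tr L) : Le F F := by
  induction F with
  | lit a => exact .lit a
  | cst b => exact .cst b
  | op o s t ihs iht => exact .op o s t s t ihs iht

theorem Le.sz {F F' : Tr L} (h : Le F F') : F'.sz = F.sz := by
  induction h with
  | lit a => rfl
  | cst b => rfl
  | zo => rfl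
  | op o s t s' t' _ _ ihs iht => simp only [Tr.sz, ihs, iht]

theorem Le.all {a : L} {F F' : Tr L} (h : Le F F') (hF : All a F) : All a F' := by
  induction h with
  | lit a => exact hF
  | cst b => exact hF
  | zo => exact trivial
  | op o s t s' t' _ _ ihs iht => exact ⟨ihs hF.1, iht hF.2⟩

theorem Le.vl {F F' : Tr L} (h : Le F F') (y : L → Bool) : (vl y F && !vl y F') = false := by
  induction h with
  | lit a => simp
  | cst b => simp
  | zo => simp [QL.vl]
  | op o s t s' t' _ _ ihs iht =>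
    simp only [QL.vl]
    revert ihs iht
    cases o <;> cases QL.vl y s <;> cases QL.vl y s' <;> cases QL.vl y t <;> cases QL.vl y t' <;> simp

theorem le_plug {C : Cx L} {w F' : Tr L} (h : Le (plug C w) F') : ∃ (C' : Cx L) (w' : Tr L), F' = plug C' w' ∧ Le w w' ∧
    C'.sz = C.sz ∧ ∀ u, Le (plug C u) (plug C' u) := by
  induction C generalizing F' with
  | hole => exact ⟨.hole, F', rfl, h, rfl, fun u => Le.refl u⟩
  | l o C t ih =>
    cases h with
    | op _ _ _ s' t' h1 h2 =>
      obtain ⟨C', w', rfl, h3, h4, h5⟩ := ih h1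
      refine ⟨.l o C' t', w', rfl, h3, ?_, fun u => ?_⟩
      · simp only [Cx.sz, h4, h2.sz]
      · exact .op _ _ _ _ _ (h5 u) h2
  | r o t C ih =>
    cases h with
    | op _ _ _ s' t' h1 h2 =>
      obtain ⟨C', w', rfl, h3, h4, h5⟩ := ih h2
      refine ⟨.r o s' C', w', rfl, h3, ?_, fun u => ?_⟩
      · simp only [Cx.sz, h4, h1.sz]
      · exact .op _ _ _ _ _ h1 (h5 u)

theorem le_cst (C : Cx L) : Le (plug C (.cst false)) (plug C (.cst true)) := by
  induction C with
  | hole => exact .zo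
  | l o C t ih => exact .op _ _ _ _ _ ih (Le.refl t)
  | r o t C ih => exact .op _ _ _ _ _ (Le.refl t) ih

/-- monotonicity -/
def MONOc (Sm : ℕ → Set R) (U : Tr L → R) (n j : ℕ) : Prop :=
  ∀ F F' : Tr L, Le F F' → F.sz ≤ n → U F * (1 - U F') ∈ Sm j

/-- the dual tree -/
def dual (ng : L → L) : Tr L → Tr L
  | .lit a => .lit (ng a)
  | .cst b => .cst (!b)
  | .op o s t => .op (!o) (dual ng s) (dual ng t)

/-- the dual context -/
def dualC (ng : L → L) : Cx L → Cx L
  | .hole => .hole
  | .l o C t => .l (!o) (dualC ng C) (dual ng t)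
  | .r o t C => .r (!o) (dual ng t) (dualC ng C)

theorem dual_plug (ng : L → L) (C : Cx L) (w : Tr L) : dual ng (plug C w) = plug (dualC ng C) (dual ng w) := by
  induction C with
  | hole => rfl
  | l o C t ih => simp only [plug, dual, dualC, ih]
  | r o t C ih => simp only [plug, dual, dualC, ih]

theorem dual_sz (ng : L → L) (F : Tr L) : (dual ng F).sz = F.sz := by
  induction F with
  | lit a => rfl
  | cst b => rfl
  | op o s t ihs iht => simp only [dual, Tr.sz, ihs, iht]

theorem dualC_sz (ng : L → L) (C : Cx L) : (dualC ng C).sz = C.sz := by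
  induction C with
  | hole => rfl
  | l o C t ih => simp only [dualC, Cx.sz, ih, dual_sz]
  | r o t C ih => simp only [dualC, Cx.sz, ih, dual_sz]

theorem dual_all {ng : L → L} {a : L} {F : Tr L} (h : All a F) : All (ng a) (dual ng F) := by
  induction F with
  | lit b =>
    have h1 : b = a := h
    subst h1
    exact rfl
  | cst b => exact trivial
  | op o s t ihs iht => exact ⟨ihs h.1, iht h.2⟩

theorem dual_vl {ng : L → L} (b : Bool) (F : Tr L) : vl (fun _ => !b) (dual ng F) = !vl (fun _ => b) F := by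
  induction F with
  | lit b => rfl
  | cst b => rfl
  | op o s t ihs iht =>
    simp only [dual, vl, ihs, iht]
    cases o <;> cases vl (fun _ => b) s <;> cases vl (fun _ => b) t <;> rfl

/-- duality -/
def DUALc (Sm : ℕ → Set R) (U : Tr L → R) (ng : L → L) (n j : ℕ) : Prop :=
  ∀ F : Tr L, F.sz ≤ n → U (dual ng F) - (1 - U F) ∈ Sm j

/-- a tree with at most one literal is a constant or a literal -/
theorem small_be (h : HU Sm k s U) {N : ℕ} (t : Fin N → Tr L) (a : L) (i0 i1 i2 : Fin N) (h0 : t i0 = .lit a)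
    (h1 : t i1 = .cst false) (h2 : t i2 = .cst true) (F : Tr L) (hF : F.sz ≤ 1) (hA : All a F) :
    ∃ i : Fin N, (i = i0 ∨ i = i1 ∨ i = i2) ∧ U F = U (t i) ∧
      ∀ z : Fin N → Bool, z i1 = false → z i2 = true → z i = vl (fun _ => z i0) F := by
  rw [h.small F hF]
  have h3 := fun y => red_vl hF hA y
  rcases red_bas hF hA with h4 | h4 | h4
  · refine ⟨i1, Or.inr (Or.inl rfl), by rw [h4, h1], fun z hz1 hz2 => ?_⟩
    rw [← h3, h4]
    exact hz1
  · refine ⟨i2, Or.inr (Or.inr rfl), by rw [h4, h2], fun z hz1 hz2 => ?_⟩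
    rw [← h3, h4]
    exact hz2
  · refine ⟨i0, Or.inl rfl, by rw [h4, h0], fun z hz1 hz2 => ?_⟩
    rw [← h3, h4]
    rfl

theorem mono_base (h : HU Sm k s U) (hs : 1 ≤ s) (a₀ : L) : MONOc Sm U 1 200 := by
  intro F F' hle hF
  obtain ⟨a, ha⟩ := all_of_sz hF a₀
  obtain ⟨p, hp, hF1, hF2⟩ := small_be h (![.lit a, .cst false, .cst true] : Fin 3 → Tr L) a 0 1 2 rfl rfl rfl F hF ha
  obtain ⟨p', hp', hF1', hF2'⟩ := small_be h (![.lit a, .cst false, .cst true] : Fin 3 → Tr L) a 0 1 2 rfl rfl rfl F'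
    (by rw [hle.sz]; exact hF) (hle.all ha)
  have h1 := h.use (![.lit a, .cst false, .cst true] : Fin 3 → Tr L) (by
    intro i
    fin_cases i
    · exact hs
    · exact Nat.zero_le _
    · exact Nat.zero_le _) (j := 0) [(.v 1, .ff), (.v 2, .tt)] (.op true (.v p) (.no (.v p'))) .ff (by
      intro g hg
      rcases List.mem_cons.1 hg with rfl | hg
      · show U (.cst false) - 0 ∈ Sm 0
        rw [sub_zero]
        exact h.c0
      · rw [List.mem_singleton] at hg
        subst hg
        exact h.c1) (by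
      intro z hz
      have hz1 : z 1 = false := hz (.v 1, .ff) (by simp)
      have hz2 : z 2 = true := hz (.v 2, .tt) (by simp)
      show (z p && !z p') = false
      rw [hF2 z hz1 hz2, hF2' z hz1 hz2]
      exact hle.vl _)
  have h2 : U F * (1 - U F') = ev (fun i => U ((![.lit a, .cst false, .cst true] : Fin 3 → Tr L) i))
      (.op true (.v p) (.no (.v p'))) - ev (fun i => U ((![.lit a, .cst false, .cst true] : Fin 3 → Tr L) i)) .ff := by
    rw [hF1, hF1']
    show _ = _ - (0 : R)
    rw [sub_zero]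
    rfl
  rw [h2]
  refine h.lev.mono ?_ h1
  rcases hp with rfl | rfl | rfl <;> rcases hp' with rfl | rfl | rfl <;> decide

theorem dual_base (h : HU Sm k s U) (hs : 1 ≤ s) (a₀ : L) {ng : L → L}
    (hng : ∀ a, U (.lit (ng a)) - (1 - U (.lit a)) ∈ Sm 0) : DUALc Sm U ng 1 300 := by
  intro F hF
  obtain ⟨a, ha⟩ := all_of_sz hF a₀
  obtain ⟨p, hp, hF1, hF2⟩ := small_be h (![.lit a, .cst false, .cst true, .lit (ng a)] : Fin 4 → Tr L) a 0 1 2 rfl rfl
    rfl F hF ha
  obtain ⟨p', hp', hF1', hF2'⟩ := small_be h (![.lit a, .cst false, .cst true, .lit (ng a)] : Fin 4 → Tr L) (ng a) 3 1 2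
    rfl rfl rfl (dual ng F) (by rw [dual_sz]; exact hF) (dual_all ha)
  have h1 := h.use (![.lit a, .cst false, .cst true, .lit (ng a)] : Fin 4 → Tr L) (by
    intro i
    fin_cases i
    · exact hs
    · exact Nat.zero_le _
    · exact Nat.zero_le _
    · exact hs) (j := 0) [(.v 1, .ff), (.v 2, .tt), (.v 3, .no (.v 0))] (.v p') (.no (.v p)) (by
      simp only [List.mem_cons, List.not_mem_nil, or_false]
      rintro g (rfl | rfl | rfl)
      · show U (.cst false) - 0 ∈ Sm 0
        rw [sub_zero]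
        exact h.c0
      · exact h.c1
      · exact hng a) (by
      intro z hz
      have hz1 : z 1 = false := hz (.v 1, .ff) (by simp)
      have hz2 : z 2 = true := hz (.v 2, .tt) (by simp)
      have hz3 : z 3 = !z 0 := hz (.v 3, .no (.v 0)) (by simp)
      show z p' = !z p
      rw [hF2 z hz1 hz2, hF2' z hz1 hz2, hz3]
      exact dual_vl _ F)
  have h2 : U (dual ng F) - (1 - U F) = ev (fun i => U ((![.lit a, .cst false, .cst true, .lit (ng a)] : Fin 4 → Tr L) i))
      (.v p') - ev (fun i => U ((![.lit a, .cst false, .cst true, .lit (ng a)] : Fin 4 → Tr L) i)) (.no (.v p)) := by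
    rw [hF1, hF1']
    rfl
  rw [h2]
  refine h.lev.mono ?_ h1
  rcases hp with rfl | rfl | rfl <;> rcases hp' with rfl | rfl | rfl <;> decide

private theorem bM (o F F' F0 F1 V1 V2 F0' F1' V1' V2' : Bool) (e1 : F = opb false F0 (opb true F1 (opb o V1 V2)))
    (e2 : F' = opb false F0' (opb true F1' (opb o V1' V2'))) (e3 : opb true F0 (!F0') = false)
    (e4 : opb true F1 (!F1') = false) (e5 : opb true V1 (!V1') = false) (e6 : opb true V2 (!V2') = false) :
    opb true F (!F') = false := by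
  subst e1 e2
  revert o F0 F1 V1 V2 F0' F1' V1' V2'
  decide

/-- monotonicity, one scale -/
theorem mono_step (h : HU Sm k s U) (a₀ : L) {n j : ℕ} (hn : n ≤ s) (hs : 1 ≤ s) (hj : 200 ≤ j)
    (hP : PIc Sm U (sg k n) j) (hH : HOMc Sm U (sg k n) j) (hM : MONOc Sm U (sg k n) j) :
    MONOc Sm U n (j + KK + 1 + KK) := by
  intro F F' hle hF
  rcases Nat.lt_or_ge F.sz 2 with h5 | h5
  · exact h.lev.mono (by omega) (mono_base h hs a₀ F F' hle (by omega))
  obtain ⟨C, o, v₁, v₂, e1, e2, e3, e4, e5⟩ := h.step F h5 (hF.trans hn)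
  have hk := h.hk
  have hsz' : F.sz = C.sz + (v₁.sz + v₂.sz) := by
    have := congrArg Tr.sz e1
    simpa only [plug_sz, Tr.sz] using this
  have g1 : C.sz ≤ sg k n := le_sg1 hk e2 hF
  have g2 : v₁.sz ≤ sg k n := le_sg3 hk e3 hF
  have g3 : v₂.sz ≤ sg k n := le_sg3 hk e4 hF
  have g4 : C.sz < v₁.sz + v₂.sz := ctx_lt hk (by rw [← hsz']; exact e2) (by omega)
  rw [e1] at hle
  obtain ⟨C', w', rfl, h6, h7, h8⟩ := le_plug hle
  cases h6 with
  | op _ _ _ v₁' v₂' h9 h10 =>
    have h11 := good h a₀ hn hs hj hP hH C' o v₁' v₂' (by rw [h7, h9.sz, h10.sz, ← hsz']; exact hF)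
      (by rw [h7]; exact g1) (by rw [h9.sz]; exact g2) (by rw [h10.sz]; exact g3) (by rw [h7, h9.sz, h10.sz]; exact g4)
    have e6 : ∀ b, (plug C (.cst b)).sz ≤ sg k n := by
      intro b
      rw [plug_sz]
      exact g1
    have key := h.use (![F, plug C' (.op o v₁' v₂'), plug C (.cst false), plug C (.cst true), v₁, v₂,
      plug C' (.cst false), plug C' (.cst true), v₁', v₂'] : Fin 10 → Tr L) (by
      intro i
      have := h9.sz
      have := h10.sz
      fin_cases i <;> simp [Tr.sz, plug_sz] <;> omega) (j := j + KK + 1)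
      [(.v 0, .op false (.v 2) (.op true (.v 3) (.op o (.v 4) (.v 5)))),
        (.v 1, .op false (.v 6) (.op true (.v 7) (.op o (.v 8) (.v 9)))), (.op true (.v 2) (.no (.v 6)), .ff),
        (.op true (.v 3) (.no (.v 7)), .ff), (.op true (.v 4) (.no (.v 8)), .ff), (.op true (.v 5) (.no (.v 9)), .ff)]
      (.op true (.v 0) (.no (.v 1))) .ff (by
        simp only [List.mem_cons, List.not_mem_nil, or_false]
        rintro g (rfl | rfl | rfl | rfl | rfl | rfl)
        · exact h.lev.mono (Nat.zero_le _) e5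
        · exact h11
        · show U (plug C (.cst false)) * (1 - U (plug C' (.cst false))) - 0 ∈ Sm _
          rw [sub_zero]
          exact h.lev.mono (by omega) (hM _ _ (h8 _) (e6 _))
        · show U (plug C (.cst true)) * (1 - U (plug C' (.cst true))) - 0 ∈ Sm _
          rw [sub_zero]
          exact h.lev.mono (by omega) (hM _ _ (h8 _) (e6 _))
        · show U v₁ * (1 - U v₁') - 0 ∈ Sm _
          rw [sub_zero]
          exact h.lev.mono (by omega) (hM _ _ h9 g2)
        · show U v₂ * (1 - U v₂') - 0 ∈ Sm _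
          rw [sub_zero]
          exact h.lev.mono (by omega) (hM _ _ h10 g3)) (by
        intro a ha
        exact bM o (a 0) (a 1) (a 2) (a 3) (a 4) (a 5) (a 6) (a 7) (a 8) (a 9)
          (ha (.v 0, .op false (.v 2) (.op true (.v 3) (.op o (.v 4) (.v 5)))) (by simp))
          (ha (.v 1, .op false (.v 6) (.op true (.v 7) (.op o (.v 8) (.v 9)))) (by simp))
          (ha (.op true (.v 2) (.no (.v 6)), .ff) (by simp)) (ha (.op true (.v 3) (.no (.v 7)), .ff) (by simp))
          (ha (.op true (.v 4) (.no (.v 8)), .ff) (by simp)) (ha (.op true (.v 5) (.no (.v 9)), .ff) (by simp)))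
    have h12 : U F * (1 - U (plug C' (.op o v₁' v₂'))) - 0 ∈ Sm (j + KK + 1 + KK) := by
      refine h.lev.mono ?_ key
      refine Nat.add_le_add_left ?_ _
      cases o <;> decide
    rwa [sub_zero] at h12

private theorem bD (o F F0 F1 V1 V2 D D0 D1 W1 W2 : Bool) (e1 : F = opb false F0 (opb true F1 (opb o V1 V2)))
    (e2 : D = opb false D1 (opb true D0 (opb (!o) W1 W2))) (e3 : D0 = !F0) (e4 : D1 = !F1) (e5 : W1 = !V1)
    (e6 : W2 = !V2) (e7 : opb true F0 (!F1) = false) : D = !F := by
  subst e1 e2 e3 e4 e5 e6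
  revert o F0 F1 V1 V2
  decide

/-- duality, one scale -/
theorem dual_step (h : HU Sm k s U) (a₀ : L) {ng : L → L} (hng : ∀ a, U (.lit (ng a)) - (1 - U (.lit a)) ∈ Sm 0)
    {n j : ℕ} (hn : n ≤ s) (hs : 1 ≤ s) (hj : 300 ≤ j) (hP : PIc Sm U (sg k n) j) (hH : HOMc Sm U (sg k n) j)
    (hM : MONOc Sm U (sg k n) j) (hD : DUALc Sm U ng (sg k n) j) : DUALc Sm U ng n (j + KK + 1 + KK) := by
  intro F hF
  rcases Nat.lt_or_ge F.sz 2 with h5 | h5
  · exact h.lev.mono (by omega) (dual_base h hs a₀ hng F (by omega))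
  obtain ⟨C, o, v₁, v₂, e1, e2, e3, e4, e5⟩ := h.step F h5 (hF.trans hn)
  have hk := h.hk
  have hsz' : F.sz = C.sz + (v₁.sz + v₂.sz) := by
    have := congrArg Tr.sz e1
    simpa only [plug_sz, Tr.sz] using this
  have g1 : C.sz ≤ sg k n := le_sg1 hk e2 hF
  have g2 : v₁.sz ≤ sg k n := le_sg3 hk e3 hF
  have g3 : v₂.sz ≤ sg k n := le_sg3 hk e4 hF
  have g4 : C.sz < v₁.sz + v₂.sz := ctx_lt hk (by rw [← hsz']; exact e2) (by omega)
  have e6 : ∀ b, (plug C (.cst b)).sz ≤ sg k n := by
    intro b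
    rw [plug_sz]
    exact g1
  have h11 := good h a₀ hn hs (by omega) hP hH (dualC ng C) (!o) (dual ng v₁) (dual ng v₂)
    (by rw [dualC_sz, dual_sz, dual_sz, ← hsz']; exact hF)
    (by rw [dualC_sz]; exact g1) (by rw [dual_sz]; exact g2) (by rw [dual_sz]; exact g3)
    (by rw [dualC_sz, dual_sz, dual_sz]; exact g4)
  have e7 : dual ng F = plug (dualC ng C) (.op (!o) (dual ng v₁) (dual ng v₂)) := by
    rw [e1, dual_plug]
    rfl
  have e8 : plug (dualC ng C) (.cst false) = dual ng (plug C (.cst true)) := by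
    rw [dual_plug]
    rfl
  have e9 : plug (dualC ng C) (.cst true) = dual ng (plug C (.cst false)) := by
    rw [dual_plug]
    rfl
  unfold EXP at h11
  rw [← e7, e8, e9] at h11
  have key := h.use (![F, plug C (.cst false), plug C (.cst true), v₁, v₂, dual ng F, dual ng (plug C (.cst false)),
    dual ng (plug C (.cst true)), dual ng v₁, dual ng v₂] : Fin 10 → Tr L) (by
    intro i
    fin_cases i <;> simp [Tr.sz, plug_sz, dual_sz] <;> omega) (j := j + KK + 1)
    [(.v 0, .op false (.v 1) (.op true (.v 2) (.op o (.v 3) (.v 4)))),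
      (.v 5, .op false (.v 7) (.op true (.v 6) (.op (!o) (.v 8) (.v 9)))), (.v 6, .no (.v 1)), (.v 7, .no (.v 2)),
      (.v 8, .no (.v 3)), (.v 9, .no (.v 4)), (.op true (.v 1) (.no (.v 2)), .ff)] (.v 5) (.no (.v 0)) (by
      simp only [List.mem_cons, List.not_mem_nil, or_false]
      rintro g (rfl | rfl | rfl | rfl | rfl | rfl | rfl)
      · exact h.lev.mono (Nat.zero_le _) e5
      · exact h11
      · exact h.lev.mono (by omega) (hD _ (e6 _))
      · exact h.lev.mono (by omega) (hD _ (e6 _))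
      · exact h.lev.mono (by omega) (hD _ g2)
      · exact h.lev.mono (by omega) (hD _ g3)
      · show U (plug C (.cst false)) * (1 - U (plug C (.cst true))) - 0 ∈ Sm _
        rw [sub_zero]
        exact h.lev.mono (by omega) (hM _ _ (le_cst C) (e6 _))) (by
      intro a ha
      exact bD o (a 0) (a 1) (a 2) (a 3) (a 4) (a 5) (a 6) (a 7) (a 8) (a 9)
        (ha (.v 0, .op false (.v 1) (.op true (.v 2) (.op o (.v 3) (.v 4)))) (by simp))
        (ha (.v 5, .op false (.v 7) (.op true (.v 6) (.op (!o) (.v 8) (.v 9)))) (by simp))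
        (ha (.v 6, .no (.v 1)) (by simp)) (ha (.v 7, .no (.v 2)) (by simp))
        (ha (.v 8, .no (.v 3)) (by simp)) (ha (.v 9, .no (.v 4)) (by simp))
        (ha (.op true (.v 1) (.no (.v 2)), .ff) (by simp)))
  refine h.lev.mono ?_ key
  refine Nat.add_le_add_left ?_ _
  cases o <;> decide

end Pool.Agent.H24.QL
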