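import Pool.Agent.H24.QL.Ind

/-!
# [H24 QL Star] THEOREM QL (MP_576eff_lc), chapter (5): the rebalanced formula

`dp`, `lv`: depth and number of leaves (constants count); `star F`: the rebalanced formula.
`HT Sm ng d S T`: `T` is an approximate homomorphism on the trees of depth at most `d` with at most `S` leaves.
`hu_of_ht`: then `U F := T (star F)` satisfies the recursion `HU`.
-/

set_option autoImplicit false

namespace Pool.Agent.H24.QL

variable {L R : Type} [CommRing R]

/-- depth -/
def Tr.dp : Tr L → ℕ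
  | .lit _ => 0
  | .cst _ => 0
  | .op _ s t => max s.dp t.dp + 1

/-- number of leaves -/
def Tr.lv : Tr L → ℕ
  | .lit _ => 1
  | .cst _ => 1
  | .op _ s t => s.lv + t.lv

/-- `T` is an approximate homomorphism on the trees of depth at most `d` with at most `S` leaves; `ng` is the negation of literals -/
structure HT (Sm : ℕ → Set R) (ng : L → L) (d S : ℕ) (T : Tr L → R) : Prop where
  lev : Lev Sm
  mu : ∀ F, Mu Sm 1 (T F)
  idem : ∀ F, F.dp ≤ d → F.lv ≤ S → T F * T F - T F ∈ Sm 0
  hom : ∀ o F G, (Tr.op o F G).dp ≤ d → (Tr.op o F G).lv ≤ S → T (.op o F G) - opv o (T F) (T G) ∈ Sm 0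
  c0 : T (.cst false) ∈ Sm 0
  c1 : T (.cst true) - 1 ∈ Sm 0
  ng : ∀ a, T (.lit (ng a)) - (1 - T (.lit a)) ∈ Sm 0

/-- the last node on a heavy path -/
theorem heavy {k : ℕ} (hk : 3 ≤ k) (F : Tr L) (h2 : 2 ≤ F.sz) : ∃ (C : Cx L) (o : Bool) (v₁ v₂ : Tr L),
    F = plug C (.op o v₁ v₂) ∧ k * C.sz ≤ F.sz ∧ k * v₁.sz < (k - 1) * F.sz ∧ k * v₂.sz < (k - 1) * F.sz := by
  have key : ∀ (v : Tr L) (C : Cx L), F = plug C v → (k - 1) * F.sz ≤ k * v.sz → ∃ (C : Cx L) (o : Bool) (v₁ v₂ : Tr L),
      F = plug C (.op o v₁ v₂) ∧ k * C.sz ≤ F.sz ∧ k * v₁.sz < (k - 1) * F.sz ∧ k * v₂.sz < (k - 1) * F.sz := by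
    intro v
    induction v with
    | lit a =>
      intro C _ h
      exfalso
      have h1 : (k - 1) * 2 ≤ (k - 1) * F.sz := Nat.mul_le_mul_left _ h2
      simp only [Tr.sz] at h
      omega
    | cst b =>
      intro C _ h
      exfalso
      have h1 : (k - 1) * 2 ≤ (k - 1) * F.sz := Nat.mul_le_mul_left _ h2
      simp only [Tr.sz] at h
      omega
    | op o s t ihs iht =>
      intro C hC h
      rcases Nat.lt_or_ge (k * s.sz) ((k - 1) * F.sz) with h3 | h3
      · rcases Nat.lt_or_ge (k * t.sz) ((k - 1) * F.sz) with h4 | h4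
        · refine ⟨C, o, s, t, hC, ?_, h3, h4⟩
          have h5 : F.sz = C.sz + (Tr.op o s t).sz := by
            have := congrArg Tr.sz hC
            rwa [plug_sz] at this
          have h6 : k * F.sz = k * C.sz + k * (Tr.op o s t).sz := by rw [h5, Nat.mul_add]
          have h7 : k * F.sz = (k - 1) * F.sz + F.sz := by
            obtain ⟨m, rfl⟩ : ∃ m, k = m + 1 := ⟨k - 1, by omega⟩
            rw [Nat.add_sub_cancel, Nat.succ_mul]
          omega
        · refine iht (comp C (.r o s .hole)) ?_ h4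
          rw [plug_comp]
          exact hC
      · refine ihs (comp C (.l o .hole t)) ?_ h3
        rw [plug_comp]
        exact hC
  exact key F .hole rfl (Nat.mul_le_mul_right _ (Nat.sub_le k 1))

open Classical in
/-- the rebalanced formula -/
noncomputable def star (k : ℕ) (hk : 3 ≤ k) (F : Tr L) : Tr L :=
  if h : 2 ≤ F.sz then
    .op false (star k hk (plug (heavy hk F h).choose (.cst false)))
      (.op true (star k hk (plug (heavy hk F h).choose (.cst true)))
        (.op (heavy hk F h).choose_spec.choose (star k hk (heavy hk F h).choose_spec.choose_spec.choose)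
          (star k hk (heavy hk F h).choose_spec.choose_spec.choose_spec.choose)))
  else red F
termination_by F.sz
decreasing_by
  all_goals
    obtain ⟨_, h2, h3, h4⟩ := (heavy hk F h).choose_spec.choose_spec.choose_spec.choose_spec
    first
    | (rw [plug_sz]
       have h5 : 3 * (heavy hk F h).choose.sz ≤ k * (heavy hk F h).choose.sz := Nat.mul_le_mul_right _ hk
       show (heavy hk F h).choose.sz + 0 < F.sz
       omega)
    | (by_contra hcon
       push Not at hcon
       have h5 := Nat.mul_le_mul_left k hcon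
       have h6 : (k - 1) * F.sz ≤ k * F.sz := Nat.mul_le_mul_right _ (Nat.sub_le k 1)
       omega)

theorem star_small {k : ℕ} (hk : 3 ≤ k) {F : Tr L} (h : F.sz ≤ 1) : star k hk F = red F := by
  rw [star, dif_neg (by omega)]

theorem star_step {k : ℕ} (hk : 3 ≤ k) {F : Tr L} (h : 2 ≤ F.sz) : ∃ (C : Cx L) (o : Bool) (v₁ v₂ : Tr L),
    F = plug C (.op o v₁ v₂) ∧ k * C.sz ≤ F.sz ∧ k * v₁.sz < (k - 1) * F.sz ∧ k * v₂.sz < (k - 1) * F.sz ∧
    star k hk F = .op false (star k hk (plug C (.cst false)))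
      (.op true (star k hk (plug C (.cst true))) (.op o (star k hk v₁) (star k hk v₂))) := by
  obtain ⟨h1, h2, h3, h4⟩ := (heavy hk F h).choose_spec.choose_spec.choose_spec.choose_spec
  refine ⟨_, _, _, _, h1, h2, h3, h4, ?_⟩
  conv_lhs => rw [star]
  rw [dif_pos h]

theorem bas_red {a : L} {F : Tr L} (h : Bas a F) : red F = F ∧ F.dp = 0 ∧ F.lv = 1 := by
  rcases h with rfl | rfl | rfl <;> exact ⟨rfl, rfl, rfl⟩

/-- the depth of the rebalanced formula -/
theorem star_dp {k : ℕ} (hk : 3 ≤ k) (a₀ : L) (n : ℕ) : ∀ F : Tr L, F.sz ≤ n → (star k hk F).dp ≤ 3 * sc k n := by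
  induction n using Nat.strong_induction_on with
  | _ n ih =>
    intro F hF
    rcases Nat.lt_or_ge F.sz 2 with h | h
    · obtain ⟨a, ha⟩ := all_of_sz (F := F) (by omega) a₀
      rw [star_small hk (by omega), (bas_red (red_bas (by omega) ha)).2.1]
      exact Nat.zero_le _
    · obtain ⟨C, o, v₁, v₂, h1, h2, h3, h4, h5⟩ := star_step hk h
      have h6 : 2 ≤ n := h.trans hF
      have g1 : C.sz ≤ sg k n := le_sg1 hk h2 hF
      have g2 : v₁.sz ≤ sg k n := le_sg3 hk h3 hF
      have g3 : v₂.sz ≤ sg k n := le_sg3 hk h4 hF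
      have e0 := ih _ (sg_lt (by omega)) (plug C (.cst false)) (by rw [plug_sz]; exact g1)
      have e1 := ih _ (sg_lt (by omega)) (plug C (.cst true)) (by rw [plug_sz]; exact g1)
      have e2 := ih _ (sg_lt (by omega)) v₁ g2
      have e3 := ih _ (sg_lt (by omega)) v₂ g3
      rw [h5, sc_step h6]
      simp only [Tr.dp]
      omega

/-- the bound for the number of leaves -/
def lb (k n : ℕ) : ℕ := if n = 0 then 1 else (3 * n - 2) * 2 ^ Nat.log k n

/-- the number of leaves of the rebalanced formula -/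
theorem star_lv {k : ℕ} (hk : 3 ≤ k) (a₀ : L) (n : ℕ) : ∀ F : Tr L, F.sz = n → (star k hk F).lv ≤ lb k n := by
  induction n using Nat.strong_induction_on with
  | _ n ih =>
    intro F hF
    rcases Nat.lt_or_ge F.sz 2 with h | h
    · obtain ⟨a, ha⟩ := all_of_sz (F := F) (by omega) a₀
      rw [star_small hk (by omega), (bas_red (red_bas (by omega) ha)).2.2]
      unfold lb
      split_ifs with h1
      · exact le_rfl
      · have h2 : n = 1 := by omega
        rw [h2]
        simp
    · obtain ⟨C, o, v₁, v₂, h1, h2, h3, h4, h5⟩ := star_step hk h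
      have hsz : n = C.sz + (v₁.sz + v₂.sz) := by
        rw [← hF]
        have := congrArg Tr.sz h1
        simpa only [plug_sz, Tr.sz] using this
      have hlt : ∀ x, k * x < (k - 1) * F.sz → x < n := by
        intro x hx
        by_contra hcon
        push Not at hcon
        have h6 := Nat.mul_le_mul_left k hcon
        have h7 : (k - 1) * F.sz ≤ k * F.sz := Nat.mul_le_mul_right _ (Nat.sub_le k 1)
        rw [hF] at h7 hx
        omega
      have hC3 : 3 * C.sz ≤ k * C.sz := Nat.mul_le_mul_right _ hk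
      have e0 := ih C.sz (by omega) (plug C (.cst false)) (by rw [plug_sz]; rfl)
      have e1 := ih C.sz (by omega) (plug C (.cst true)) (by rw [plug_sz]; rfl)
      have e2 := ih v₁.sz (hlt _ h3) v₁ rfl
      have e3 := ih v₂.sz (hlt _ h4) v₂ rfl
      have f2 := hlt _ h3
      have f3 := hlt _ h4
      have h6 : (star k hk F).lv = (star k hk (plug C (.cst false))).lv + ((star k hk (plug C (.cst true))).lv +
          ((star k hk v₁).lv + (star k hk v₂).lv)) := by
        rw [h5]
        rfl
      -- the power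
      obtain ⟨G, hG⟩ : ∃ G, G = 2 ^ Nat.log k n := ⟨_, rfl⟩
      have hG1 : 1 ≤ G := by rw [hG]; exact Nat.one_le_two_pow
      have hlbn : lb k n = (3 * n - 2) * G := by
        unfold lb
        rw [if_neg (by omega), hG]
      have hlb : ∀ x, x ≤ n → lb k x ≤ (if x = 0 then 1 else (3 * x - 2)) * G := by
        intro x hx
        unfold lb
        split_ifs with h7
        · rw [one_mul]
          exact hG1
        · rw [hG]
          exact Nat.mul_le_mul_left _ (Nat.pow_le_pow_right (by norm_num) (Nat.log_mono_right hx))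
      have hlbC : 2 * lb k C.sz ≤ (if C.sz = 0 then 2 else (3 * C.sz - 2)) * G := by
        unfold lb
        split_ifs with h7
        · exact Nat.mul_le_mul_left 2 hG1
        · have h8 : Nat.log k C.sz + 1 ≤ Nat.log k n := by
            rw [← Nat.log_mul_base (by omega) h7, mul_comm]
            exact Nat.log_mono_right (by rw [← hF]; exact h2)
          have h9 : 2 * 2 ^ Nat.log k C.sz ≤ G := by
            rw [hG, ← Nat.pow_succ']
            exact Nat.pow_le_pow_right (by norm_num) h8
          calc 2 * ((3 * C.sz - 2) * 2 ^ Nat.log k C.sz) = (3 * C.sz - 2) * (2 * 2 ^ Nat.log k C.sz) := by ring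
            _ ≤ (3 * C.sz - 2) * G := Nat.mul_le_mul_left _ h9
      have b2 := hlb v₁.sz f2.le
      have b3 := hlb v₂.sz f3.le
      have h10 : (star k hk F).lv ≤ ((if C.sz = 0 then 2 else (3 * C.sz - 2)) +
          ((if v₁.sz = 0 then 1 else (3 * v₁.sz - 2)) + (if v₂.sz = 0 then 1 else (3 * v₂.sz - 2)))) * G := by
        rw [h6, Nat.add_mul, Nat.add_mul]
        omega
      refine h10.trans ?_
      rw [hlbn]
      refine Nat.mul_le_mul_right _ ?_
      split_ifs <;> omega

/-- the recursion of the rebalanced formulas -/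
theorem hu_of_ht {Sm : ℕ → Set R} {ng : L → L} {d S s k : ℕ} {T : Tr L → R} (hk : 3 ≤ k) (h : HT Sm ng d S T) (a₀ : L)
    (hs : ∀ F : Tr L, F.sz ≤ s → (star k hk F).dp ≤ d ∧ (star k hk F).lv ≤ S) :
    HU (fun j => Sm (j + KK)) k s (fun F => T (star k hk F)) := by
  have hsh : ∀ {j : ℕ} {a : R}, a ∈ Sm 0 → a ∈ Sm (j + KK) := fun ha => h.lev.mono (Nat.zero_le _) ha
  refine ⟨⟨?_, ?_, ?_, ?_⟩, hk, ?_, ?_, ?_, ?_, ?_, ?_⟩
  · exact hsh h.lev.zero
  · exact fun j a ha => h.lev.neg _ _ ha
  · intro j a b ha hb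
    have := h.lev.add _ _ _ ha hb
    rwa [Nat.add_right_comm] at this
  · intro j a ha
    have := h.lev.succ _ _ ha
    rwa [Nat.add_right_comm] at this
  · intro F j x hx
    have := h.mu (star k hk F) _ _ hx
    rwa [Nat.add_right_comm] at this
  · intro F hF
    exact hsh (h.idem _ (hs F hF).1 (hs F hF).2)
  · show T (star k hk (.cst false)) ∈ _
    rw [star_small hk (F := .cst false) (Nat.zero_le 1)]
    exact hsh h.c0
  · show T (star k hk (.cst true)) - 1 ∈ _
    rw [star_small hk (F := .cst true) (Nat.zero_le 1)]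
    exact hsh h.c1
  · intro F hF
    obtain ⟨a, ha⟩ := all_of_sz hF a₀
    have h1 := red_bas hF ha
    have h2 : (red F).sz ≤ 1 := by
      rcases h1 with h1 | h1 | h1 <;> rw [h1] <;> simp [Tr.sz]
    show T (star k hk F) = T (star k hk (red F))
    rw [star_small hk hF, star_small hk h2, (bas_red h1).1]
  · intro F hF2 hFs
    obtain ⟨C, o, v₁, v₂, h1, h2, h3, h4, h5⟩ := star_step hk hF2
    refine ⟨C, o, v₁, v₂, h1, h2, h3, h4, ?_⟩
    obtain ⟨hd, hS⟩ := hs F hFs
    show T (star k hk F) - opv false (T (star k hk (plug C (.cst false)))) (opv true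
      (T (star k hk (plug C (.cst true)))) (opv o (T (star k hk v₁)) (T (star k hk v₂)))) ∈ Sm (0 + KK)
    rw [h5] at hd hS ⊢
    obtain ⟨A, hA⟩ : ∃ A, A = star k hk (plug C (.cst false)) := ⟨_, rfl⟩
    obtain ⟨B, hB⟩ : ∃ B, B = star k hk (plug C (.cst true)) := ⟨_, rfl⟩
    obtain ⟨V, hV⟩ : ∃ V, V = star k hk v₁ := ⟨_, rfl⟩
    obtain ⟨W, hW⟩ : ∃ W, W = star k hk v₂ := ⟨_, rfl⟩
    rw [← hA, ← hB, ← hV, ← hW] at hd hS ⊢
    have hd' := hd
    have hS' := hS
    simp only [Tr.dp, Tr.lv] at hd' hS'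
    have key := refl_lem h.lev (x := fun i => T ((![.op false A (.op true B (.op o V W)), A, B, V, W,
      .op true B (.op o V W), .op o V W] : Fin 7 → Tr L) i)) (fun i => h.mu _) (j := 0) (by
      intro i
      fin_cases i <;> (refine h.idem _ ?_ ?_ <;> simp [Tr.dp, Tr.lv] <;> omega))
      [(.v 0, .op false (.v 1) (.v 5)), (.v 5, .op true (.v 2) (.v 6)), (.v 6, .op o (.v 3) (.v 4))] (by
      simp only [List.mem_cons, List.not_mem_nil, or_false]
      rintro g (rfl | rfl | rfl)
      · exact h.hom false A _ hd hS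
      · exact h.hom true B _ (by simp only [Tr.dp]; omega) (by simp only [Tr.lv]; omega)
      · exact h.hom o V W (by simp only [Tr.dp]; omega) (by simp only [Tr.lv]; omega))
      (.v 0) (.op false (.v 1) (.op true (.v 2) (.op o (.v 3) (.v 4)))) (by
      intro a ha
      have e1 : a 0 = opb false (a 1) (a 5) := ha (.v 0, .op false (.v 1) (.v 5)) (by simp)
      have e2 : a 5 = opb true (a 2) (a 6) := ha (.v 5, .op true (.v 2) (.v 6)) (by simp)
      have e3 : a 6 = opb o (a 3) (a 4) := ha (.v 6, .op o (.v 3) (.v 4)) (by simp)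
      show a 0 = opb false (a 1) (opb true (a 2) (opb o (a 3) (a 4)))
      rw [e1, e2, e3])
    refine h.lev.mono ?_ key
    refine Nat.add_le_add_left ?_ _
    cases o <;> decide

end Pool.Agent.H24.QL
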