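import Pool.Agent.H24.QL.Tree

/-!
# [H24 QL Step] THEOREM QL (MP_576eff_lc), chapter (5): one scale of the induction

`HU Sm k s U`: the function `U` on trees satisfies the recursion of the rebalanced formulas for trees with at most `s` literals.
`PIc n j`: `U F ≈ U F[w:=0] ∨ (U F[w:=1] ∧ U w)` for all nodes, `HOMc n j`: `U (F o G) ≈ U F o U G`, sizes at most `n`, level `j`.
`good`: (G), the expansion at every good node; `hom_step`: (H); `pi_step`: (P).
-/

set_option autoImplicit false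

namespace Pool.Agent.H24.QL

variable {L R : Type} [CommRing R]

/-- the hypotheses on `U` -/
structure HU (Sm : ℕ → Set R) (k s : ℕ) (U : Tr L → R) : Prop where
  lev : Lev Sm
  hk : 3 ≤ k
  mu : ∀ F, Mu Sm 1 (U F)
  idem : ∀ F, F.sz ≤ s → U F * U F - U F ∈ Sm 0
  c0 : U (.cst false) ∈ Sm 0
  c1 : U (.cst true) - 1 ∈ Sm 0
  small : ∀ F : Tr L, F.sz ≤ 1 → U F = U (red F)
  step : ∀ F : Tr L, 2 ≤ F.sz → F.sz ≤ s → ∃ (C : Cx L) (o : Bool) (v₁ v₂ : Tr L), F = plug C (.op o v₁ v₂) ∧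
    k * C.sz ≤ F.sz ∧ k * v₁.sz < (k - 1) * F.sz ∧ k * v₂.sz < (k - 1) * F.sz ∧
    U F - opv false (U (plug C (.cst false))) (opv true (U (plug C (.cst true))) (opv o (U v₁) (U v₂))) ∈ Sm 0

/-- the smaller scale -/
def sg (k n : ℕ) : ℕ := (k - 1) * n / k

/-- substitution of a node -/
def PIc (Sm : ℕ → Set R) (U : Tr L → R) (n j : ℕ) : Prop :=
  ∀ (C : Cx L) (w : Tr L), C.sz + w.sz ≤ n →
    U (plug C w) - opv false (U (plug C (.cst false))) (opv true (U (plug C (.cst true))) (U w)) ∈ Sm j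

/-- homomorphism -/
def HOMc (Sm : ℕ → Set R) (U : Tr L → R) (n j : ℕ) : Prop :=
  ∀ (o : Bool) (F G : Tr L), F.sz + G.sz ≤ n → U (.op o F G) - opv o (U F) (U G) ∈ Sm j

/-- the expansion at a node -/
def EXP (Sm : ℕ → Set R) (U : Tr L → R) (j : ℕ) (C : Cx L) (o : Bool) (v₁ v₂ : Tr L) : Prop :=
  U (plug C (.op o v₁ v₂)) -
    opv false (U (plug C (.cst false))) (opv true (U (plug C (.cst true))) (opv o (U v₁) (U v₂))) ∈ Sm j

variable {Sm : ℕ → Set R} {k s : ℕ} {U : Tr L → R}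

/-- the reflection lemma for values of `U` -/
theorem HU.use (h : HU Sm k s U) {N : ℕ} (t : Fin N → Tr L) (ht : ∀ i : Fin N, (t i).sz ≤ s) {j : ℕ}
    (hyps : List (BE N × BE N)) (p q : BE N)
    (hh : ∀ g ∈ hyps, ev (fun i => U (t i)) g.1 - ev (fun i => U (t i)) g.2 ∈ Sm j)
    (hb : ∀ a : Fin N → Bool, (∀ g ∈ hyps, bv a g.1 = bv a g.2) → bv a p = bv a q) :
    ev (fun i => U (t i)) p - ev (fun i => U (t i)) q ∈ Sm (j + loss hyps p q) :=
  refl_lem h.lev (fun i => h.mu _) (fun i => h.lev.mono (Nat.zero_le _) (h.idem _ (ht i))) hyps hh p q hb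

section sizes

theorem sg_le {k n : ℕ} : sg k n ≤ n := by
  unfold sg
  refine Nat.div_le_of_le_mul ?_
  exact Nat.mul_le_mul_right n (Nat.sub_le k 1)

theorem le_sg {k n x : ℕ} (hk : 3 ≤ k) (h : k * x ≤ (k - 1) * n) : x ≤ sg k n := by
  unfold sg
  rw [Nat.le_div_iff_mul_le (by omega), mul_comm]
  exact h

theorem le_sg1 {k n m x : ℕ} (hk : 3 ≤ k) (h : k * x ≤ m) (hm : m ≤ n) : x ≤ sg k n := by
  refine le_sg hk (h.trans (hm.trans ?_))
  exact Nat.le_mul_of_pos_left n (by omega)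

theorem le_sg2 {k n m x : ℕ} (hk : 3 ≤ k) (h : k * x ≤ m) (hm : m ≤ n) : 2 * x ≤ sg k n := by
  refine le_sg hk ?_
  have h1 : k * (2 * x) = 2 * (k * x) := by ring
  rw [h1]
  calc 2 * (k * x) ≤ 2 * n := by omega
    _ ≤ (k - 1) * n := Nat.mul_le_mul_right n (by omega)

theorem le_sg3 {k n m x : ℕ} (hk : 3 ≤ k) (h : k * x < (k - 1) * m) (hm : m ≤ n) : x ≤ sg k n :=
  le_sg hk (h.le.trans (Nat.mul_le_mul_left _ hm))

/-- the context is smaller than the node -/
theorem ctx_lt {k x v : ℕ} (hk : 3 ≤ k) (h : k * x ≤ x + v) (hv : 0 < x + v) : x < v := by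
  by_contra hcon
  push Not at hcon
  have h1 : 3 * x ≤ k * x := Nat.mul_le_mul_right x hk
  omega

end sizes

/-- (P) in the base case -/
theorem pi_base (h : HU Sm k s U) (hs : 1 ≤ s) (a₀ : L) : PIc Sm U 1 200 := by
  intro C w hsz
  have hF : (plug C w).sz ≤ 1 := by rw [plug_sz]; exact hsz
  obtain ⟨a, ha⟩ := all_of_sz hF a₀
  obtain ⟨haw, hab⟩ := all_plug ha
  have hsz' : ∀ b, (plug C (.cst b)).sz ≤ 1 := by
    intro b
    rw [plug_sz]
    simp only [Tr.sz]
    omega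
  -- expressions
  have hbe : ∀ F : Tr L, F.sz ≤ 1 → All a F → ∃ p : BE 3, (p = .v 0 ∨ p = .v 1 ∨ p = .v 2) ∧
      U F = ev (fun i => U ((![.lit a, .cst false, .cst true] : Fin 3 → Tr L) i)) p ∧
      ∀ z : Fin 3 → Bool, z 1 = false → z 2 = true → bv z p = vl (fun _ => z 0) F := by
    intro F h1 h2
    rw [h.small F h1]
    have h3 := fun y => red_vl h1 h2 y
    rcases red_bas h1 h2 with h4 | h4 | h4
    · refine ⟨.v 1, Or.inr (Or.inl rfl), by rw [h4]; rfl, fun z hz1 hz2 => ?_⟩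
      rw [← h3, h4]
      exact hz1
    · refine ⟨.v 2, Or.inr (Or.inr rfl), by rw [h4]; rfl, fun z hz1 hz2 => ?_⟩
      rw [← h3, h4]
      exact hz2
    · refine ⟨.v 0, Or.inl rfl, by rw [h4]; rfl, fun z hz1 hz2 => ?_⟩
      rw [← h3, h4]
      rfl
  obtain ⟨pF, hpF, hF1, hF2⟩ := hbe _ hF ha
  obtain ⟨p0, hp0, h01, h02⟩ := hbe _ (hsz' false) (hab false)
  obtain ⟨p1, hp1, h11, h12⟩ := hbe _ (hsz' true) (hab true)
  obtain ⟨pw, hpw, hw1, hw2⟩ := hbe w (by omega) haw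
  have h1 := h.use (![.lit a, .cst false, .cst true] : Fin 3 → Tr L) (by
    intro i
    fin_cases i
    · exact hs
    · exact Nat.zero_le _
    · exact Nat.zero_le _) (j := 0) [(.v 1, .ff), (.v 2, .tt)] pF (.op false p0 (.op true p1 pw)) (by
      intro g hg
      rcases List.mem_cons.1 hg with rfl | hg
      · show U (.cst false) - 0 ∈ Sm 0
        rw [sub_zero]
        exact h.c0
      · rw [List.mem_singleton] at hg
        subst hg
        exact h.c1) (by
      intro z hz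
      have hz1 : z 1 = false := hz (.v 1, .ff) (by simp)
      have hz2 : z 2 = true := hz (.v 2, .tt) (by simp)
      show bv z pF = (bv z p0 || (bv z p1 && bv z pw))
      rw [hF2 z hz1 hz2, h02 z hz1 hz2, h12 z hz1 hz2, hw2 z hz1 hz2]
      exact vl_plug _ C w)
  rw [hF1, h01, h11, hw1]
  refine h.lev.mono ?_ h1
  rcases hpF with rfl | rfl | rfl <;> rcases hp0 with rfl | rfl | rfl <;> rcases hp1 with rfl | rfl | rfl <;>
    rcases hpw with rfl | rfl | rfl <;> decide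

/-- (H) in the base case -/
theorem hom_base (h : HU Sm k s U) (hs : 1 ≤ s) (a₀ : L) : HOMc Sm U 1 200 := by
  intro o F G hsz
  have hF : (Tr.op o F G).sz ≤ 1 := hsz
  obtain ⟨a, ha⟩ := all_of_sz hF a₀
  -- expressions
  have hbe : ∀ F : Tr L, F.sz ≤ 1 → All a F → ∃ p : BE 3, (p = .v 0 ∨ p = .v 1 ∨ p = .v 2) ∧
      U F = ev (fun i => U ((![.lit a, .cst false, .cst true] : Fin 3 → Tr L) i)) p ∧
      ∀ z : Fin 3 → Bool, z 1 = false → z 2 = true → bv z p = vl (fun _ => z 0) F := by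
    intro F h1 h2
    rw [h.small F h1]
    have h3 := fun y => red_vl h1 h2 y
    rcases red_bas h1 h2 with h4 | h4 | h4
    · refine ⟨.v 1, Or.inr (Or.inl rfl), by rw [h4]; rfl, fun z hz1 hz2 => ?_⟩
      rw [← h3, h4]
      exact hz1
    · refine ⟨.v 2, Or.inr (Or.inr rfl), by rw [h4]; rfl, fun z hz1 hz2 => ?_⟩
      rw [← h3, h4]
      exact hz2
    · refine ⟨.v 0, Or.inl rfl, by rw [h4]; rfl, fun z hz1 hz2 => ?_⟩
      rw [← h3, h4]
      rfl
  obtain ⟨p, hp, h01, h02⟩ := hbe _ hF ha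
  obtain ⟨p0, hp0, h11, h12⟩ := hbe F (by omega) ha.1
  obtain ⟨p1, hp1, hw1, hw2⟩ := hbe G (by omega) ha.2
  have h1 := h.use (![.lit a, .cst false, .cst true] : Fin 3 → Tr L) (by
    intro i
    fin_cases i
    · exact hs
    · exact Nat.zero_le _
    · exact Nat.zero_le _) (j := 0) [(.v 1, .ff), (.v 2, .tt)] p (.op o p0 p1) (by
      intro g hg
      rcases List.mem_cons.1 hg with rfl | hg
      · show U (.cst false) - 0 ∈ Sm 0
        rw [sub_zero]
        exact h.c0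
      · rw [List.mem_singleton] at hg
        subst hg
        exact h.c1) (by
      intro z hz
      have hz1 : z 1 = false := hz (.v 1, .ff) (by simp)
      have hz2 : z 2 = true := hz (.v 2, .tt) (by simp)
      rw [h02 z hz1 hz2]
      cases o
      · show _ = (bv z p0 || bv z p1)
        rw [h12 z hz1 hz2, hw2 z hz1 hz2]
        rfl
      · show _ = (bv z p0 && bv z p1)
        rw [h12 z hz1 hz2, hw2 z hz1 hz2]
        rfl)
  have h2 : ev (fun i => U ((![.lit a, .cst false, .cst true] : Fin 3 → Tr L) i)) (.op o p0 p1) =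
      opv o (U F) (U G) := by
    rw [h11, hw1]
    rfl
  rw [h2, ← h01] at h1
  refine h.lev.mono ?_ h1
  cases o <;> rcases hp with rfl | rfl | rfl <;> rcases hp0 with rfl | rfl | rfl <;>
    rcases hp1 with rfl | rfl | rfl <;> decide

end Pool.Agent.H24.QL
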