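import Pool.Agent.H24.QL.Step

/-!
# [H24 QL StepB] THEOREM QL (MP_576eff_lc), chapter (5): the steps (G), (H), (P) of the induction
-/

set_option autoImplicit false

namespace Pool.Agent.H24.QL

variable {L R : Type} [CommRing R] {Sm : ℕ → Set R} {k s : ℕ} {U : Tr L → R}

/-- the levels lost in one use of the reflection lemma -/
def KK : ℕ := 10000

private theorem bG1 (o o' F0 F1 V1 V2 A0 A1 W W1 W2 G0 G1 Z0 Z1 : Bool) (e1 : V1 = opb false A0 (opb true A1 W))
    (e2 : W = opb o' W1 W2) (e3 : G0 = opb false F0 (opb true F1 Z0)) (e4 : G1 = opb false F0 (opb true F1 Z1))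
    (e5 : Z0 = opb o A0 V2) (e6 : Z1 = opb o A1 V2) :
    opb false F0 (opb true F1 (opb o V1 V2)) = opb false G0 (opb true G1 (opb o' W1 W2)) := by
  subst e1 e3 e4 e5 e6
  rw [← e2]
  clear e2
  revert o F0 F1 A0 A1 V2 W
  decide

private theorem bG2 (o o' F0 F1 V1 V2 A0 A1 W W1 W2 G0 G1 Z0 Z1 : Bool) (e1 : V2 = opb false A0 (opb true A1 W))
    (e2 : W = opb o' W1 W2) (e3 : G0 = opb false F0 (opb true F1 Z0)) (e4 : G1 = opb false F0 (opb true F1 Z1))
    (e5 : Z0 = opb o V1 A0) (e6 : Z1 = opb o V1 A1) :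
    opb false F0 (opb true F1 (opb o V1 V2)) = opb false G0 (opb true G1 (opb o' W1 W2)) := by
  subst e1 e3 e4 e5 e6
  rw [← e2]
  clear e2
  revert o F0 F1 A0 A1 V1 W
  decide

/-- (G), the inner node is in the left child -/
theorem swap_l (h : HU Sm k s U) {σ j : ℕ} (hP : PIc Sm U σ j) (hH : HOMc Sm U σ j) (C D : Cx L) (o o' : Bool)
    (w₁ w₂ v₂ : Tr L) (hs : C.sz + (D.sz + (w₁.sz + w₂.sz) + v₂.sz) ≤ s) (h1 : D.sz + (w₁.sz + w₂.sz) ≤ σ)
    (h2 : C.sz + (D.sz + v₂.sz) ≤ σ) :
    opv false (U (plug C (.cst false))) (opv true (U (plug C (.cst true)))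
        (opv o (U (plug D (.op o' w₁ w₂))) (U v₂))) -
      opv false (U (plug (comp C (.l o D v₂)) (.cst false)))
        (opv true (U (plug (comp C (.l o D v₂)) (.cst true))) (opv o' (U w₁) (U w₂))) ∈ Sm (j + KK) := by
  have hz : ∀ b, (plug (comp C (.l o D v₂)) (.cst b)) = plug C (.op o (plug D (.cst b)) v₂) := by
    intro b
    rw [plug_comp]
    rfl
  have key := h.use (![plug C (.cst false), plug C (.cst true), plug D (.op o' w₁ w₂), v₂, plug D (.cst false),
    plug D (.cst true), .op o' w₁ w₂, w₁, w₂, plug (comp C (.l o D v₂)) (.cst false),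
    plug (comp C (.l o D v₂)) (.cst true), .op o (plug D (.cst false)) v₂, .op o (plug D (.cst true)) v₂] :
      Fin 13 → Tr L) (by
    intro i
    fin_cases i <;> simp [plug_sz, comp_sz, Tr.sz, Cx.sz] <;> omega) (j := j)
    [(.v 2, .op false (.v 4) (.op true (.v 5) (.v 6))), (.v 6, .op o' (.v 7) (.v 8)),
      (.v 9, .op false (.v 0) (.op true (.v 1) (.v 11))), (.v 10, .op false (.v 0) (.op true (.v 1) (.v 12))),
      (.v 11, .op o (.v 4) (.v 3)), (.v 12, .op o (.v 5) (.v 3))]
    (.op false (.v 0) (.op true (.v 1) (.op o (.v 2) (.v 3))))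
    (.op false (.v 9) (.op true (.v 10) (.op o' (.v 7) (.v 8)))) (by
      simp only [List.mem_cons, List.not_mem_nil, or_false]
      rintro g (rfl | rfl | rfl | rfl | rfl | rfl)
      · exact hP D (.op o' w₁ w₂) h1
      · exact hH o' w₁ w₂ (by omega)
      · have h3 := hP C (.op o (plug D (.cst false)) v₂) (by
          simp only [Tr.sz, plug_sz]
          omega)
        rw [← hz] at h3
        exact h3
      · have h3 := hP C (.op o (plug D (.cst true)) v₂) (by
          simp only [Tr.sz, plug_sz]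
          omega)
        rw [← hz] at h3
        exact h3
      · exact hH o (plug D (.cst false)) v₂ (by
          simp only [Tr.sz, plug_sz]
          omega)
      · exact hH o (plug D (.cst true)) v₂ (by
          simp only [Tr.sz, plug_sz]
          omega)) (by
      intro a ha
      exact bG1 o o' (a 0) (a 1) (a 2) (a 3) (a 4) (a 5) (a 6) (a 7) (a 8) (a 9) (a 10) (a 11) (a 12)
        (ha (.v 2, .op false (.v 4) (.op true (.v 5) (.v 6))) (by simp))
        (ha (.v 6, .op o' (.v 7) (.v 8)) (by simp))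
        (ha (.v 9, .op false (.v 0) (.op true (.v 1) (.v 11))) (by simp))
        (ha (.v 10, .op false (.v 0) (.op true (.v 1) (.v 12))) (by simp))
        (ha (.v 11, .op o (.v 4) (.v 3)) (by simp))
        (ha (.v 12, .op o (.v 5) (.v 3)) (by simp)))
  refine h.lev.mono (Nat.add_le_add_left ?_ j) key
  cases o <;> cases o' <;> decide

/-- (G), the inner node is in the right child -/
theorem swap_r (h : HU Sm k s U) {σ j : ℕ} (hP : PIc Sm U σ j) (hH : HOMc Sm U σ j) (C D : Cx L) (o o' : Bool)
    (w₁ w₂ v₁ : Tr L) (hs : C.sz + (v₁.sz + (D.sz + (w₁.sz + w₂.sz))) ≤ s) (h1 : D.sz + (w₁.sz + w₂.sz) ≤ σ)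
    (h2 : C.sz + (v₁.sz + D.sz) ≤ σ) :
    opv false (U (plug C (.cst false))) (opv true (U (plug C (.cst true)))
        (opv o (U v₁) (U (plug D (.op o' w₁ w₂))))) -
      opv false (U (plug (comp C (.r o v₁ D)) (.cst false)))
        (opv true (U (plug (comp C (.r o v₁ D)) (.cst true))) (opv o' (U w₁) (U w₂))) ∈ Sm (j + KK) := by
  have hz : ∀ b, (plug (comp C (.r o v₁ D)) (.cst b)) = plug C (.op o v₁ (plug D (.cst b))) := by
    intro b
    rw [plug_comp]
    rfl
  have key := h.use (![plug C (.cst false), plug C (.cst true), v₁, plug D (.op o' w₁ w₂), plug D (.cst false),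
    plug D (.cst true), .op o' w₁ w₂, w₁, w₂, plug (comp C (.r o v₁ D)) (.cst false),
    plug (comp C (.r o v₁ D)) (.cst true), .op o v₁ (plug D (.cst false)), .op o v₁ (plug D (.cst true))] :
      Fin 13 → Tr L) (by
    intro i
    fin_cases i <;> simp [plug_sz, comp_sz, Tr.sz, Cx.sz] <;> omega) (j := j)
    [(.v 3, .op false (.v 4) (.op true (.v 5) (.v 6))), (.v 6, .op o' (.v 7) (.v 8)),
      (.v 9, .op false (.v 0) (.op true (.v 1) (.v 11))), (.v 10, .op false (.v 0) (.op true (.v 1) (.v 12))),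
      (.v 11, .op o (.v 2) (.v 4)), (.v 12, .op o (.v 2) (.v 5))]
    (.op false (.v 0) (.op true (.v 1) (.op o (.v 2) (.v 3))))
    (.op false (.v 9) (.op true (.v 10) (.op o' (.v 7) (.v 8)))) (by
      simp only [List.mem_cons, List.not_mem_nil, or_false]
      rintro g (rfl | rfl | rfl | rfl | rfl | rfl)
      · exact hP D (.op o' w₁ w₂) h1
      · exact hH o' w₁ w₂ (by omega)
      · have h3 := hP C (.op o v₁ (plug D (.cst false))) (by
          simp only [Tr.sz, plug_sz]
          omega)
        rw [← hz] at h3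
        exact h3
      · have h3 := hP C (.op o v₁ (plug D (.cst true))) (by
          simp only [Tr.sz, plug_sz]
          omega)
        rw [← hz] at h3
        exact h3
      · exact hH o v₁ (plug D (.cst false)) (by
          simp only [Tr.sz, plug_sz]
          omega)
      · exact hH o v₁ (plug D (.cst true)) (by
          simp only [Tr.sz, plug_sz]
          omega)) (by
      intro a ha
      exact bG2 o o' (a 0) (a 1) (a 2) (a 3) (a 4) (a 5) (a 6) (a 7) (a 8) (a 9) (a 10) (a 11) (a 12)
        (ha (.v 3, .op false (.v 4) (.op true (.v 5) (.v 6))) (by simp))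
        (ha (.v 6, .op o' (.v 7) (.v 8)) (by simp))
        (ha (.v 9, .op false (.v 0) (.op true (.v 1) (.v 11))) (by simp))
        (ha (.v 10, .op false (.v 0) (.op true (.v 1) (.v 12))) (by simp))
        (ha (.v 11, .op o (.v 2) (.v 4)) (by simp))
        (ha (.v 12, .op o (.v 2) (.v 5)) (by simp)))
  refine h.lev.mono (Nat.add_le_add_left ?_ j) key
  cases o <;> cases o' <;> decide

/-- the expansion at a node from PI and HOM -/
theorem exp_of (h : HU Sm k s U) {j : ℕ} (C : Cx L) (o : Bool) (v₁ v₂ : Tr L)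
    (hs : C.sz + (v₁.sz + v₂.sz) ≤ s)
    (h1 : U (plug C (.op o v₁ v₂)) -
      opv false (U (plug C (.cst false))) (opv true (U (plug C (.cst true))) (U (.op o v₁ v₂))) ∈ Sm j)
    (h2 : U (.op o v₁ v₂) - opv o (U v₁) (U v₂) ∈ Sm j) : EXP Sm U (j + KK) C o v₁ v₂ := by
  have key := h.use (![plug C (.cst false), plug C (.cst true), plug C (.op o v₁ v₂), .op o v₁ v₂, v₁, v₂] :
      Fin 6 → Tr L) (by
    intro i
    fin_cases i <;> simp [plug_sz, Tr.sz] <;> omega) (j := j)
    [(.v 2, .op false (.v 0) (.op true (.v 1) (.v 3))), (.v 3, .op o (.v 4) (.v 5))]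
    (.v 2) (.op false (.v 0) (.op true (.v 1) (.op o (.v 4) (.v 5)))) (by
      simp only [List.mem_cons, List.not_mem_nil, or_false]
      rintro g (rfl | rfl)
      · exact h1
      · exact h2) (by
      intro a ha
      have e1 : a 2 = opb false (a 0) (opb true (a 1) (a 3)) :=
        ha (.v 2, .op false (.v 0) (.op true (.v 1) (.v 3))) (by simp)
      have e2 : a 3 = opb o (a 4) (a 5) := ha (.v 3, .op o (.v 4) (.v 5)) (by simp)
      show a 2 = opb false (a 0) (opb true (a 1) (opb o (a 4) (a 5)))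
      rw [← e2, e1])
  refine h.lev.mono (Nat.add_le_add_left ?_ j) key
  cases o <;> decide

/-- **(G)**: the expansion at every good node -/
theorem good (h : HU Sm k s U) (a₀ : L) {n j : ℕ} (hn : n ≤ s) (hs : 1 ≤ s) (hj : 200 ≤ j) (hP : PIc Sm U (sg k n) j)
    (hH : HOMc Sm U (sg k n) j) (C : Cx L) (o : Bool) (v₁ v₂ : Tr L) (hF : C.sz + (v₁.sz + v₂.sz) ≤ n)
    (h1 : C.sz ≤ sg k n) (h2 : v₁.sz ≤ sg k n) (h3 : v₂.sz ≤ sg k n) (h4 : C.sz < v₁.sz + v₂.sz) :
    EXP Sm U (j + KK + 1) C o v₁ v₂ := by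
  rcases Nat.lt_or_ge (C.sz + (v₁.sz + v₂.sz)) 2 with h5 | h5
  · have e1 := pi_base h hs a₀ C (.op o v₁ v₂) (by simp only [Tr.sz]; omega)
    have e2 := hom_base h hs a₀ o v₁ v₂ (by omega)
    exact h.lev.mono (Nat.le_succ _) (exp_of h C o v₁ v₂ (by omega) (h.lev.mono hj e1) (h.lev.mono hj e2))
  · obtain ⟨C', o', u₁, u₂, e1, e2, e3, e4, e5⟩ := h.step (plug C (.op o v₁ v₂)) (by
      simp only [plug_sz, Tr.sz]
      omega) (by
      simp only [plug_sz, Tr.sz]
      omega)
    have hk := h.hk
    have hsz : (plug C (.op o v₁ v₂)).sz = C.sz + (v₁.sz + v₂.sz) := by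
      simp only [plug_sz, Tr.sz]
    have hsz' : C.sz + (v₁.sz + v₂.sz) = C'.sz + (u₁.sz + u₂.sz) := by
      rw [← hsz, e1]
      simp only [plug_sz, Tr.sz]
    rw [hsz] at e2 e3 e4
    have g1 : C'.sz ≤ sg k n := le_sg1 hk e2 hF
    have g2 : u₁.sz ≤ sg k n := le_sg3 hk e3 hF
    have g3 : u₂.sz ≤ sg k n := le_sg3 hk e4 hF
    have g4 : C'.sz < u₁.sz + u₂.sz := ctx_lt hk (by rw [← hsz']; exact e2) (by omega)
    rcases tri e1 with ⟨D, hD1, hD2⟩ | ⟨D, hD1, hD2⟩ | ⟨A, o₂, D₁, D₂, hD1, hD2⟩ | ⟨A, o₂, D₁, D₂, hD1, hD2⟩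
    · -- the node of the recursion is inside
      cases D with
      | hole =>
        simp only [plug, Tr.op.injEq] at hD2
        obtain ⟨rfl, rfl, rfl⟩ := hD2
        have hC : C' = C := by
          rw [hD1]
          clear * -
          induction C with
          | hole => rfl
          | l o C t ih => simp only [comp, ih]
          | r o t C ih => simp only [comp, ih]
        rw [hC] at e5
        exact h.lev.mono (Nat.zero_le _) e5
      | l o₂ D t =>
        simp only [plug, Tr.op.injEq] at hD2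
        obtain ⟨rfl, rfl, rfl⟩ := hD2
        rw [hD1, comp_sz] at g1 hsz'
        simp only [Cx.sz, plug_sz, Tr.sz] at g1 hsz' h2 hF
        have h6 := swap_l h hP hH C D o o' u₁ u₂ v₂ (by omega) (by omega) (by omega)
        rw [← hD1] at h6
        have h7 := h.lev.sub (h.lev.mono (Nat.zero_le _) e5) h6
        unfold EXP
        convert h7 using 1
        ring
      | r o₂ t D =>
        simp only [plug, Tr.op.injEq] at hD2
        obtain ⟨rfl, rfl, rfl⟩ := hD2
        rw [hD1, comp_sz] at g1 hsz'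
        simp only [Cx.sz, plug_sz, Tr.sz] at g1 hsz' h3 hF
        have h6 := swap_r h hP hH C D o o' u₁ u₂ v₁ (by omega) (by omega) (by omega)
        rw [← hD1] at h6
        have h7 := h.lev.sub (h.lev.mono (Nat.zero_le _) e5) h6
        unfold EXP
        convert h7 using 1
        ring
    · cases D with
      | hole =>
        simp only [plug, Tr.op.injEq] at hD2
        obtain ⟨rfl, rfl, rfl⟩ := hD2
        have hC : C = C' := by
          rw [hD1]
          clear * -
          induction C' with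
          | hole => rfl
          | l o C t ih => simp only [comp, ih]
          | r o t C ih => simp only [comp, ih]
        rw [← hC] at e5
        exact h.lev.mono (Nat.zero_le _) e5
      | l o₂ D t =>
        simp only [plug, Tr.op.injEq] at hD2
        obtain ⟨rfl, rfl, rfl⟩ := hD2
        rw [hD1, comp_sz] at h1 hsz' hF
        simp only [Cx.sz, plug_sz, Tr.sz] at h1 hsz' g2 hF
        have h6 := swap_l h hP hH C' D o' o v₁ v₂ u₂ (by omega) (by omega) (by omega)
        rw [← hD1] at h6
        have h7 := h.lev.add _ _ _ (h.lev.mono (Nat.zero_le _) e5) h6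
        unfold EXP
        convert h7 using 1
        ring
      | r o₂ t D =>
        simp only [plug, Tr.op.injEq] at hD2
        obtain ⟨rfl, rfl, rfl⟩ := hD2
        rw [hD1, comp_sz] at h1 hsz' hF
        simp only [Cx.sz, plug_sz, Tr.sz] at h1 hsz' g3 hF
        have h6 := swap_r h hP hH C' D o' o v₁ v₂ u₁ (by omega) (by omega) (by omega)
        rw [← hD1] at h6
        have h7 := h.lev.add _ _ _ (h.lev.mono (Nat.zero_le _) e5) h6
        unfold EXP
        convert h7 using 1
        ring
    · exfalso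
      rw [hD1, comp_sz] at h4
      rw [hD2, comp_sz] at g4
      simp only [Cx.sz, plug_sz, Tr.sz] at h4 g4
      omega
    · exfalso
      rw [hD1, comp_sz] at h4
      rw [hD2, comp_sz] at g4
      simp only [Cx.sz, plug_sz, Tr.sz] at h4 g4
      omega

end Pool.Agent.H24.QL
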