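import Pool.Agent.H24.QL.StepB

/-!
# [H24 QL StepC] THEOREM QL (MP_576eff_lc), chapter (5): the steps (H) and (P) of the induction
-/

set_option autoImplicit false

namespace Pool.Agent.H24.QL

variable {L R : Type} [CommRing R] {Sm : ℕ → Set R} {k s : ℕ} {U : Tr L → R}

private theorem bH1 (o o' N F G N0 N1 X0 X1 W1 W2 : Bool) (e1 : N = opb false N0 (opb true N1 (opb o' W1 W2)))
    (e2 : N0 = opb o X0 G) (e3 : N1 = opb o X1 G) (e4 : F = opb false X0 (opb true X1 (opb o' W1 W2))) :
    N = opb o F G := by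
  subst e2 e3
  rw [e1, e4]
  clear e1 e4
  generalize opb o' W1 W2 = w
  revert o X0 X1 G w
  decide

private theorem bH2 (o o' N F G N0 N1 X0 X1 W1 W2 : Bool) (e1 : N = opb false N0 (opb true N1 (opb o' W1 W2)))
    (e2 : N0 = opb o F X0) (e3 : N1 = opb o F X1) (e4 : G = opb false X0 (opb true X1 (opb o' W1 W2))) :
    N = opb o F G := by
  subst e2 e3
  rw [e1, e4]
  clear e1 e4
  generalize opb o' W1 W2 = w
  revert o X0 X1 F w
  decide

private theorem bH0 (o N F G Z0 Z1 : Bool) (e1 : N = opb false Z0 (opb true Z1 (opb o F G))) (e2 : Z0 = false)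
    (e3 : Z1 = true) : N = opb o F G := by
  subst e2 e3
  rw [e1]
  generalize opb o F G = w
  revert w
  decide

/-- **(H)** -/
theorem hom_step (h : HU Sm k s U) (a₀ : L) {n j : ℕ} (hn : n ≤ s) (hs : 1 ≤ s) (hj : 200 ≤ j)
    (hP : PIc Sm U (sg k n) j) (hH : HOMc Sm U (sg k n) j) : HOMc Sm U n (j + KK + 1 + KK) := by
  intro o F G hF
  rcases Nat.lt_or_ge (F.sz + G.sz) 2 with h5 | h5
  · exact h.lev.mono (by omega) (hom_base h hs a₀ o F G (by omega))
  · obtain ⟨C', o', u₁, u₂, e1, e2, e3, e4, e5⟩ := h.step (.op o F G) h5 (hF.trans hn)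
    have hk := h.hk
    have hsz' : F.sz + G.sz = C'.sz + (u₁.sz + u₂.sz) := by
      have := congrArg Tr.sz e1
      simpa only [plug_sz, Tr.sz] using this
    simp only [Tr.sz] at e2 e3 e4
    have g1 : C'.sz ≤ sg k n := le_sg1 hk e2 hF
    have g2 : u₁.sz ≤ sg k n := le_sg3 hk e3 hF
    have g3 : u₂.sz ≤ sg k n := le_sg3 hk e4 hF
    have g4 : C'.sz < u₁.sz + u₂.sz := ctx_lt hk (by rw [← hsz']; exact e2) (by omega)
    cases C' with
    | hole =>
      simp only [plug, Tr.op.injEq] at e1
      obtain ⟨rfl, rfl, rfl⟩ := e1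
      have key := h.use (![.op o F G, F, G, .cst false, .cst true] : Fin 5 → Tr L) (by
        intro i
        fin_cases i <;> simp [Tr.sz] <;> omega) (j := 0)
        [(.v 0, .op false (.v 3) (.op true (.v 4) (.op o (.v 1) (.v 2)))), (.v 3, .ff), (.v 4, .tt)]
        (.v 0) (.op o (.v 1) (.v 2)) (by
          simp only [List.mem_cons, List.not_mem_nil, or_false]
          rintro g (rfl | rfl | rfl)
          · exact e5
          · show U (.cst false) - 0 ∈ Sm 0
            rw [sub_zero]
            exact h.c0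
          · exact h.c1) (by
          intro a ha
          exact bH0 o (a 0) (a 1) (a 2) (a 3) (a 4)
            (ha (.v 0, .op false (.v 3) (.op true (.v 4) (.op o (.v 1) (.v 2)))) (by simp))
            (ha (.v 3, .ff) (by simp)) (ha (.v 4, .tt) (by simp)))
      refine h.lev.mono ?_ key
      have h6 : loss (N := 5) [(.v 0, .op false (.v 3) (.op true (.v 4) (.op o (.v 1) (.v 2)))), (.v 3, .ff),
          (.v 4, .tt)] (.v 0) (.op o (.v 1) (.v 2)) ≤ KK := by
        cases o <;> decide
      omega
    | l o₂ C₁ t =>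
      simp only [plug, Tr.op.injEq] at e1
      obtain ⟨rfl, rfl, rfl⟩ := e1
      simp only [Cx.sz, plug_sz, Tr.sz] at g1 g4 hsz' hF
      have h6 := good h a₀ hn hs hj hP hH C₁ o' u₁ u₂ (by omega) (by omega) g2 g3 (by omega)
      have h7 : ∀ b, U (plug (.l o C₁ G) (.cst b)) - opv o (U (plug C₁ (.cst b))) (U G) ∈ Sm j := fun b =>
        hH o (plug C₁ (.cst b)) G (by
          simp only [plug_sz, Tr.sz]
          omega)
      have key := h.use (![.op o (plug C₁ (.op o' u₁ u₂)) G, plug C₁ (.op o' u₁ u₂), G, plug (.l o C₁ G) (.cst false),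
        plug (.l o C₁ G) (.cst true), plug C₁ (.cst false), plug C₁ (.cst true), u₁, u₂] : Fin 9 → Tr L) (by
        intro i
        fin_cases i <;> simp [Tr.sz, plug_sz, Cx.sz] <;> omega) (j := j + KK + 1)
        [(.v 0, .op false (.v 3) (.op true (.v 4) (.op o' (.v 7) (.v 8)))), (.v 3, .op o (.v 5) (.v 2)),
          (.v 4, .op o (.v 6) (.v 2)), (.v 1, .op false (.v 5) (.op true (.v 6) (.op o' (.v 7) (.v 8))))]
        (.v 0) (.op o (.v 1) (.v 2)) (by
          simp only [List.mem_cons, List.not_mem_nil, or_false]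
          rintro g (rfl | rfl | rfl | rfl)
          · exact h.lev.mono (Nat.zero_le _) e5
          · exact h.lev.mono (by omega) (h7 false)
          · exact h.lev.mono (by omega) (h7 true)
          · exact h6) (by
          intro a ha
          exact bH1 o o' (a 0) (a 1) (a 2) (a 3) (a 4) (a 5) (a 6) (a 7) (a 8)
            (ha (.v 0, .op false (.v 3) (.op true (.v 4) (.op o' (.v 7) (.v 8)))) (by simp))
            (ha (.v 3, .op o (.v 5) (.v 2)) (by simp)) (ha (.v 4, .op o (.v 6) (.v 2)) (by simp))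
            (ha (.v 1, .op false (.v 5) (.op true (.v 6) (.op o' (.v 7) (.v 8)))) (by simp)))
      refine h.lev.mono ?_ key
      refine Nat.add_le_add_left ?_ _
      cases o <;> cases o' <;> decide
    | r o₂ t C₁ =>
      simp only [plug, Tr.op.injEq] at e1
      obtain ⟨rfl, rfl, rfl⟩ := e1
      simp only [Cx.sz, plug_sz, Tr.sz] at g1 g4 hsz' hF
      have h6 := good h a₀ hn hs hj hP hH C₁ o' u₁ u₂ (by omega) (by omega) g2 g3 (by omega)
      have h7 : ∀ b, U (plug (.r o F C₁) (.cst b)) - opv o (U F) (U (plug C₁ (.cst b))) ∈ Sm j := fun b =>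
        hH o F (plug C₁ (.cst b)) (by
          simp only [plug_sz, Tr.sz]
          omega)
      have key := h.use (![.op o F (plug C₁ (.op o' u₁ u₂)), F, plug C₁ (.op o' u₁ u₂), plug (.r o F C₁) (.cst false),
        plug (.r o F C₁) (.cst true), plug C₁ (.cst false), plug C₁ (.cst true), u₁, u₂] : Fin 9 → Tr L) (by
        intro i
        fin_cases i <;> simp [Tr.sz, plug_sz, Cx.sz] <;> omega) (j := j + KK + 1)
        [(.v 0, .op false (.v 3) (.op true (.v 4) (.op o' (.v 7) (.v 8)))), (.v 3, .op o (.v 1) (.v 5)),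
          (.v 4, .op o (.v 1) (.v 6)), (.v 2, .op false (.v 5) (.op true (.v 6) (.op o' (.v 7) (.v 8))))]
        (.v 0) (.op o (.v 1) (.v 2)) (by
          simp only [List.mem_cons, List.not_mem_nil, or_false]
          rintro g (rfl | rfl | rfl | rfl)
          · exact h.lev.mono (Nat.zero_le _) e5
          · exact h.lev.mono (by omega) (h7 false)
          · exact h.lev.mono (by omega) (h7 true)
          · exact h6) (by
          intro a ha
          exact bH2 o o' (a 0) (a 1) (a 2) (a 3) (a 4) (a 5) (a 6) (a 7) (a 8)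
            (ha (.v 0, .op false (.v 3) (.op true (.v 4) (.op o' (.v 7) (.v 8)))) (by simp))
            (ha (.v 3, .op o (.v 1) (.v 5)) (by simp)) (ha (.v 4, .op o (.v 1) (.v 6)) (by simp))
            (ha (.v 2, .op false (.v 5) (.op true (.v 6) (.op o' (.v 7) (.v 8)))) (by simp)))
      refine h.lev.mono ?_ key
      refine Nat.add_le_add_left ?_ _
      cases o <;> cases o' <;> decide

private theorem bP1 (o F F0 F1 V V1 V2 : Bool) (e1 : F = opb false F0 (opb true F1 (opb o V1 V2)))
    (e2 : V = opb o V1 V2) : F = opb false F0 (opb true F1 V) := by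
  rw [e2, e1]

private theorem bP2 (o F F0 F1 V1 V2 F00 F01 F10 F11 W H0 H1 : Bool)
    (e1 : F = opb false F0 (opb true F1 (opb o V1 V2)))
    (e2 : F0 = opb false F00 (opb true F01 W)) (e3 : F1 = opb false F10 (opb true F11 W))
    (e4 : H0 = opb false F00 (opb true F10 (opb o V1 V2))) (e5 : H1 = opb false F01 (opb true F11 (opb o V1 V2))) :
    F = opb false H0 (opb true H1 W) := by
  rw [e1, e2, e3, e4, e5]
  clear e1 e2 e3 e4 e5
  generalize opb o V1 V2 = V
  revert F00 F01 F10 F11 V W
  decide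

private theorem bP3 (o F F0 F1 V1 V2 A0 A1 W H0 H1 : Bool)
    (e1 : F = opb false F0 (opb true F1 (opb o V1 V2))) (e2 : V1 = opb false A0 (opb true A1 W))
    (e3 : H0 = opb false F0 (opb true F1 (opb o A0 V2))) (e4 : H1 = opb false F0 (opb true F1 (opb o A1 V2))) :
    F = opb false H0 (opb true H1 W) := by
  rw [e1, e2, e3, e4]
  clear e1 e2 e3 e4
  revert o F0 F1 A0 A1 V2 W
  decide

private theorem bP3' (o F F0 F1 V1 V2 A0 A1 W H0 H1 : Bool)
    (e1 : F = opb false F0 (opb true F1 (opb o V1 V2))) (e2 : V2 = opb false A0 (opb true A1 W))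
    (e3 : H0 = opb false F0 (opb true F1 (opb o V1 A0))) (e4 : H1 = opb false F0 (opb true F1 (opb o V1 A1))) :
    F = opb false H0 (opb true H1 W) := by
  rw [e1, e2, e3, e4]
  clear e1 e2 e3 e4
  revert o F0 F1 A0 A1 V1 W
  decide

private theorem bP4 (o F F0 F1 V1 V2 Y0 Y1 w0 w1 W : Bool)
    (e1 : F = opb false F0 (opb true F1 (opb o V1 V2))) (e2 : F0 = opb false Y0 (opb true Y1 w0))
    (e3 : F1 = opb false Y0 (opb true Y1 w1)) (e4 : W = opb false w0 (opb true w1 (opb o V1 V2))) :
    F = opb false Y0 (opb true Y1 W) := by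
  rw [e1, e2, e3, e4]
  clear e1 e2 e3 e4
  generalize opb o V1 V2 = V
  revert Y0 Y1 w0 w1 V
  decide

/-- (P), disjoint nodes -/
private theorem pi_disj (h : HU Sm k s U) {j : ℕ} (o : Bool) (v₁ v₂ : Tr L) (E₀ E₁ F₀ F₁ w : Tr L)
    (F F00 F01 F10 F11 : Tr L)
    (hsz : F.sz ≤ s ∧ v₁.sz ≤ s ∧ v₂.sz ≤ s ∧ E₀.sz ≤ s ∧ E₁.sz ≤ s ∧ F₀.sz ≤ s ∧ F₁.sz ≤ s ∧ w.sz ≤ s ∧
      F00.sz ≤ s ∧ F01.sz ≤ s ∧ F10.sz ≤ s ∧ F11.sz ≤ s)
    (h1 : U F - opv false (U F₀) (opv true (U F₁) (opv o (U v₁) (U v₂))) ∈ Sm j)
    (h2 : U F₀ - opv false (U F00) (opv true (U F01) (U w)) ∈ Sm j)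
    (h3 : U F₁ - opv false (U F10) (opv true (U F11) (U w)) ∈ Sm j)
    (h4 : U E₀ - opv false (U F00) (opv true (U F10) (opv o (U v₁) (U v₂))) ∈ Sm j)
    (h5 : U E₁ - opv false (U F01) (opv true (U F11) (opv o (U v₁) (U v₂))) ∈ Sm j) :
    U F - opv false (U E₀) (opv true (U E₁) (U w)) ∈ Sm (j + KK) := by
  obtain ⟨g1, g2, g3, g4, g5, g6, g7, g8, g9, g10, g11, g12⟩ := hsz
  have key := h.use (![F, F₀, F₁, v₁, v₂, F00, F01, F10, F11, w, E₀, E₁] : Fin 12 → Tr L) (by
    intro i
    fin_cases i <;> assumption) (j := j)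
    [(.v 0, .op false (.v 1) (.op true (.v 2) (.op o (.v 3) (.v 4)))),
      (.v 1, .op false (.v 5) (.op true (.v 6) (.v 9))), (.v 2, .op false (.v 7) (.op true (.v 8) (.v 9))),
      (.v 10, .op false (.v 5) (.op true (.v 7) (.op o (.v 3) (.v 4)))),
      (.v 11, .op false (.v 6) (.op true (.v 8) (.op o (.v 3) (.v 4))))]
    (.v 0) (.op false (.v 10) (.op true (.v 11) (.v 9))) (by
      simp only [List.mem_cons, List.not_mem_nil, or_false]
      rintro g (rfl | rfl | rfl | rfl | rfl)
      · exact h1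
      · exact h2
      · exact h3
      · exact h4
      · exact h5) (by
      intro a ha
      exact bP2 o (a 0) (a 1) (a 2) (a 3) (a 4) (a 5) (a 6) (a 7) (a 8) (a 9) (a 10) (a 11)
        (ha (.v 0, .op false (.v 1) (.op true (.v 2) (.op o (.v 3) (.v 4)))) (by simp))
        (ha (.v 1, .op false (.v 5) (.op true (.v 6) (.v 9))) (by simp))
        (ha (.v 2, .op false (.v 7) (.op true (.v 8) (.v 9))) (by simp))
        (ha (.v 10, .op false (.v 5) (.op true (.v 7) (.op o (.v 3) (.v 4)))) (by simp))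
        (ha (.v 11, .op false (.v 6) (.op true (.v 8) (.op o (.v 3) (.v 4)))) (by simp)))
  refine h.lev.mono (Nat.add_le_add_left ?_ j) key
  cases o <;> decide

/-- **(P)** -/
theorem pi_step (h : HU Sm k s U) (a₀ : L) {n j : ℕ} (hn : n ≤ s) (hs : 1 ≤ s) (hj : 200 ≤ j)
    (hP : PIc Sm U (sg k n) j) (hH : HOMc Sm U (sg k n) j) : PIc Sm U n (j + KK + 1 + KK + KK) := by
  intro B w hF
  have hHn := hom_step h a₀ hn hs hj hP hH
  rcases Nat.lt_or_ge (B.sz + w.sz) 2 with h5 | h5
  · exact h.lev.mono (by omega) (pi_base h hs a₀ B w (by omega))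
  obtain ⟨C, o, v₁, v₂, e1, e2, e3, e4, e5⟩ := h.step (plug B w) (by rw [plug_sz]; exact h5)
    (by rw [plug_sz]; exact hF.trans hn)
  have hk := h.hk
  have hsz' : B.sz + w.sz = C.sz + (v₁.sz + v₂.sz) := by
    have := congrArg Tr.sz e1
    simpa only [plug_sz, Tr.sz] using this
  rw [plug_sz] at e2 e3 e4
  have g1 : C.sz ≤ sg k n := le_sg1 hk e2 hF
  have g1' : 2 * C.sz ≤ sg k n := le_sg2 hk e2 hF
  have g2 : v₁.sz ≤ sg k n := le_sg3 hk e3 hF
  have g3 : v₂.sz ≤ sg k n := le_sg3 hk e4 hF
  have g4 : C.sz < v₁.sz + v₂.sz := ctx_lt hk (by rw [← hsz']; exact e2) (by omega)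
  have hsgn : sg k n ≤ n := sg_le
  rcases tri e1 with ⟨D, hD1, hD2⟩ | ⟨D, hD1, hD2⟩ | ⟨A, o₂, D₁, D₂, hD1, hD2⟩ | ⟨A, o₂, D₁, D₂, hD1, hD2⟩
  · -- `w` is above or equal to `v`: `w = plug D v`
    subst hD2
    subst hD1
    rw [comp_sz] at g1 g1' g4 hsz'
    simp only [plug_sz, Tr.sz] at hF hsz'
    have h6 := good h a₀ hn hs hj hP hH D o v₁ v₂ (by omega) (by omega) g2 g3 (by omega)
    have h7 : ∀ b, U (plug (comp B D) (.cst b)) -
        opv false (U (plug B (.cst false))) (opv true (U (plug B (.cst true))) (U (plug D (.cst b)))) ∈ Sm j := by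
      intro b
      have h8 := hP B (plug D (.cst b)) (by
        simp only [plug_sz, Tr.sz]
        omega)
      rw [← plug_comp] at h8
      exact h8
    have key := h.use (![plug B (plug D (.op o v₁ v₂)), plug (comp B D) (.cst false), plug (comp B D) (.cst true), v₁,
      v₂, plug B (.cst false), plug B (.cst true), plug D (.cst false), plug D (.cst true), plug D (.op o v₁ v₂)] :
        Fin 10 → Tr L) (by
      intro i
      fin_cases i <;> simp [Tr.sz, plug_sz, comp_sz] <;> omega) (j := j + KK + 1)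
      [(.v 0, .op false (.v 1) (.op true (.v 2) (.op o (.v 3) (.v 4)))),
        (.v 1, .op false (.v 5) (.op true (.v 6) (.v 7))), (.v 2, .op false (.v 5) (.op true (.v 6) (.v 8))),
        (.v 9, .op false (.v 7) (.op true (.v 8) (.op o (.v 3) (.v 4))))]
      (.v 0) (.op false (.v 5) (.op true (.v 6) (.v 9))) (by
        simp only [List.mem_cons, List.not_mem_nil, or_false]
        rintro g (rfl | rfl | rfl | rfl)
        · exact h.lev.mono (Nat.zero_le _) e5
        · exact h.lev.mono (by omega) (h7 false)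
        · exact h.lev.mono (by omega) (h7 true)
        · exact h6) (by
        intro a ha
        exact bP4 o (a 0) (a 1) (a 2) (a 3) (a 4) (a 5) (a 6) (a 7) (a 8) (a 9)
          (ha (.v 0, .op false (.v 1) (.op true (.v 2) (.op o (.v 3) (.v 4)))) (by simp))
          (ha (.v 1, .op false (.v 5) (.op true (.v 6) (.v 7))) (by simp))
          (ha (.v 2, .op false (.v 5) (.op true (.v 6) (.v 8))) (by simp))
          (ha (.v 9, .op false (.v 7) (.op true (.v 8) (.op o (.v 3) (.v 4)))) (by simp)))
    refine h.lev.mono ?_ key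
    have h8 : loss (N := 10) [(.v 0, .op false (.v 1) (.op true (.v 2) (.op o (.v 3) (.v 4)))),
        (.v 1, .op false (.v 5) (.op true (.v 6) (.v 7))), (.v 2, .op false (.v 5) (.op true (.v 6) (.v 8))),
        (.v 9, .op false (.v 7) (.op true (.v 8) (.op o (.v 3) (.v 4))))]
      (.v 0) (.op false (.v 5) (.op true (.v 6) (.v 9))) ≤ KK := by
      cases o <;> decide
    omega
  · -- `w` is inside `v`: `v = plug D w`
    cases D with
    | hole =>
      simp only [plug] at hD2
      subst hD2
      have hBC : B = C := by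
        rw [hD1]
        clear * -
        induction C with
        | hole => rfl
        | l o C t ih => simp only [comp, ih]
        | r o t C ih => simp only [comp, ih]
      subst hBC
      have h6 := hHn o v₁ v₂ (by omega)
      simp only [Tr.sz] at hF
      have key := h.use (![plug B (.op o v₁ v₂), plug B (.cst false), plug B (.cst true), .op o v₁ v₂, v₁, v₂] :
          Fin 6 → Tr L) (by
        intro i
        fin_cases i <;> simp [Tr.sz, plug_sz] <;> omega) (j := j + KK + 1 + KK)
        [(.v 0, .op false (.v 1) (.op true (.v 2) (.op o (.v 4) (.v 5)))), (.v 3, .op o (.v 4) (.v 5))]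
        (.v 0) (.op false (.v 1) (.op true (.v 2) (.v 3))) (by
          simp only [List.mem_cons, List.not_mem_nil, or_false]
          rintro g (rfl | rfl)
          · exact h.lev.mono (Nat.zero_le _) e5
          · exact h6) (by
          intro a ha
          exact bP1 o (a 0) (a 1) (a 2) (a 3) (a 4) (a 5)
            (ha (.v 0, .op false (.v 1) (.op true (.v 2) (.op o (.v 4) (.v 5)))) (by simp))
            (ha (.v 3, .op o (.v 4) (.v 5)) (by simp)))
      refine h.lev.mono (Nat.add_le_add_left ?_ _) key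
      cases o <;> decide
    | l o₂ D t =>
      simp only [plug, Tr.op.injEq] at hD2
      obtain ⟨rfl, hv, rfl⟩ := hD2
      -- `v₁ = plug D w`
      subst hD1
      rw [comp_sz] at hsz' hF
      simp only [Cx.sz] at hsz' hF
      have hv1 : v₁.sz = D.sz + w.sz := by rw [hv, plug_sz]
      have h6 : U v₁ - opv false (U (plug D (.cst false))) (opv true (U (plug D (.cst true))) (U w)) ∈ Sm j := by
        rw [hv]
        exact hP D w (by omega)
      have h7 : ∀ b, EXP Sm U (j + KK + 1) C o (plug D (.cst b)) v₂ := by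
        intro b
        have hDb : (plug D (.cst b)).sz = D.sz := by simp [plug_sz, Tr.sz]
        rcases Nat.lt_or_ge C.sz ((plug D (.cst b)).sz + v₂.sz) with h8 | h8
        · exact good h a₀ hn hs hj hP hH C o (plug D (.cst b)) v₂ (by omega) g1 (by omega) g3 h8
        · exact h.lev.mono (by omega) (exp_of h C o (plug D (.cst b)) v₂ (by omega)
            (hP C (.op o (plug D (.cst b)) v₂) (by simp only [Tr.sz]; omega))
            (hH o (plug D (.cst b)) v₂ (by omega)))
      have h9 : ∀ b, plug (comp C (.l o D v₂)) (.cst b) = plug C (.op o (plug D (.cst b)) v₂) := by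
        intro b
        rw [plug_comp]
        rfl
      have h10 : plug (comp C (.l o D v₂)) w = plug C (.op o v₁ v₂) := e1
      rw [h10, h9, h9]
      rw [h10] at e5
      have key := h.use (![plug C (.op o v₁ v₂), plug C (.cst false), plug C (.cst true), v₁, v₂,
        plug D (.cst false), plug D (.cst true), w, plug C (.op o (plug D (.cst false)) v₂),
        plug C (.op o (plug D (.cst true)) v₂)] : Fin 10 → Tr L) (by
        intro i
        fin_cases i <;> simp [Tr.sz, plug_sz] <;> omega) (j := j + KK + 1)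
        [(.v 0, .op false (.v 1) (.op true (.v 2) (.op o (.v 3) (.v 4)))),
          (.v 3, .op false (.v 5) (.op true (.v 6) (.v 7))),
          (.v 8, .op false (.v 1) (.op true (.v 2) (.op o (.v 5) (.v 4)))),
          (.v 9, .op false (.v 1) (.op true (.v 2) (.op o (.v 6) (.v 4))))]
        (.v 0) (.op false (.v 8) (.op true (.v 9) (.v 7))) (by
          simp only [List.mem_cons, List.not_mem_nil, or_false]
          rintro g (rfl | rfl | rfl | rfl)
          · exact h.lev.mono (Nat.zero_le _) e5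
          · exact h.lev.mono (by omega) h6
          · exact h7 false
          · exact h7 true) (by
          intro a ha
          exact bP3 o (a 0) (a 1) (a 2) (a 3) (a 4) (a 5) (a 6) (a 7) (a 8) (a 9)
            (ha (.v 0, .op false (.v 1) (.op true (.v 2) (.op o (.v 3) (.v 4)))) (by simp))
            (ha (.v 3, .op false (.v 5) (.op true (.v 6) (.v 7))) (by simp))
            (ha (.v 8, .op false (.v 1) (.op true (.v 2) (.op o (.v 5) (.v 4)))) (by simp))
            (ha (.v 9, .op false (.v 1) (.op true (.v 2) (.op o (.v 6) (.v 4)))) (by simp)))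
      refine h.lev.mono ?_ key
      have h8 : loss (N := 10) [(.v 0, .op false (.v 1) (.op true (.v 2) (.op o (.v 3) (.v 4)))),
          (.v 3, .op false (.v 5) (.op true (.v 6) (.v 7))),
          (.v 8, .op false (.v 1) (.op true (.v 2) (.op o (.v 5) (.v 4)))),
          (.v 9, .op false (.v 1) (.op true (.v 2) (.op o (.v 6) (.v 4))))]
        (.v 0) (.op false (.v 8) (.op true (.v 9) (.v 7))) ≤ KK := by
        cases o <;> decide
      omega
    | r o₂ t D =>
      simp only [plug, Tr.op.injEq] at hD2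
      obtain ⟨rfl, rfl, hv⟩ := hD2
      -- `v₂ = plug D w`
      subst hD1
      rw [comp_sz] at hsz' hF
      simp only [Cx.sz] at hsz' hF
      have hv1 : v₂.sz = D.sz + w.sz := by rw [hv, plug_sz]
      have h6 : U v₂ - opv false (U (plug D (.cst false))) (opv true (U (plug D (.cst true))) (U w)) ∈ Sm j := by
        rw [hv]
        exact hP D w (by omega)
      have h7 : ∀ b, EXP Sm U (j + KK + 1) C o v₁ (plug D (.cst b)) := by
        intro b
        have hDb : (plug D (.cst b)).sz = D.sz := by simp [plug_sz, Tr.sz]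
        rcases Nat.lt_or_ge C.sz (v₁.sz + (plug D (.cst b)).sz) with h8 | h8
        · exact good h a₀ hn hs hj hP hH C o v₁ (plug D (.cst b)) (by omega) g1 g2 (by omega) h8
        · exact h.lev.mono (by omega) (exp_of h C o v₁ (plug D (.cst b)) (by omega)
            (hP C (.op o v₁ (plug D (.cst b))) (by simp only [Tr.sz]; omega))
            (hH o v₁ (plug D (.cst b)) (by omega)))
      have h9 : ∀ b, plug (comp C (.r o v₁ D)) (.cst b) = plug C (.op o v₁ (plug D (.cst b))) := by
        intro b
        rw [plug_comp]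
        rfl
      have h10 : plug (comp C (.r o v₁ D)) w = plug C (.op o v₁ v₂) := e1
      rw [h10, h9, h9]
      rw [h10] at e5
      have key := h.use (![plug C (.op o v₁ v₂), plug C (.cst false), plug C (.cst true), v₁, v₂,
        plug D (.cst false), plug D (.cst true), w, plug C (.op o v₁ (plug D (.cst false))),
        plug C (.op o v₁ (plug D (.cst true)))] : Fin 10 → Tr L) (by
        intro i
        fin_cases i <;> simp [Tr.sz, plug_sz] <;> omega) (j := j + KK + 1)
        [(.v 0, .op false (.v 1) (.op true (.v 2) (.op o (.v 3) (.v 4)))),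
          (.v 4, .op false (.v 5) (.op true (.v 6) (.v 7))),
          (.v 8, .op false (.v 1) (.op true (.v 2) (.op o (.v 3) (.v 5)))),
          (.v 9, .op false (.v 1) (.op true (.v 2) (.op o (.v 3) (.v 6))))]
        (.v 0) (.op false (.v 8) (.op true (.v 9) (.v 7))) (by
          simp only [List.mem_cons, List.not_mem_nil, or_false]
          rintro g (rfl | rfl | rfl | rfl)
          · exact h.lev.mono (Nat.zero_le _) e5
          · exact h.lev.mono (by omega) h6
          · exact h7 false
          · exact h7 true) (by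
          intro a ha
          exact bP3' o (a 0) (a 1) (a 2) (a 3) (a 4) (a 5) (a 6) (a 7) (a 8) (a 9)
            (ha (.v 0, .op false (.v 1) (.op true (.v 2) (.op o (.v 3) (.v 4)))) (by simp))
            (ha (.v 4, .op false (.v 5) (.op true (.v 6) (.v 7))) (by simp))
            (ha (.v 8, .op false (.v 1) (.op true (.v 2) (.op o (.v 3) (.v 5)))) (by simp))
            (ha (.v 9, .op false (.v 1) (.op true (.v 2) (.op o (.v 3) (.v 6)))) (by simp)))
      refine h.lev.mono ?_ key
      have h8 : loss (N := 10) [(.v 0, .op false (.v 1) (.op true (.v 2) (.op o (.v 3) (.v 4)))),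
          (.v 4, .op false (.v 5) (.op true (.v 6) (.v 7))),
          (.v 8, .op false (.v 1) (.op true (.v 2) (.op o (.v 3) (.v 5)))),
          (.v 9, .op false (.v 1) (.op true (.v 2) (.op o (.v 3) (.v 6))))]
        (.v 0) (.op false (.v 8) (.op true (.v 9) (.v 7))) ≤ KK := by
        cases o <;> decide
      omega
  · -- disjoint: `B = comp A (.l o₂ D₁ (plug D₂ v))`, `C = comp A (.r o₂ (plug D₁ w) D₂)`
    subst hD1 hD2
    rw [comp_sz] at g1 g4 hsz' hF
    simp only [Cx.sz, plug_sz, Tr.sz] at g1 g4 hsz' hF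
    have hk1 : ∀ b d, plug (comp A (.l o₂ D₁ (plug D₂ (.cst d)))) (.cst b) =
        plug (comp A (.r o₂ (plug D₁ (.cst b)) D₂)) (.cst d) := by
      intro b d
      rw [plug_comp, plug_comp]
      rfl
    -- the two substitutions
    have hPd : ∀ d, U (plug (comp A (.r o₂ (plug D₁ w) D₂)) (.cst d)) -
        opv false (U (plug (comp A (.l o₂ D₁ (plug D₂ (.cst d)))) (.cst false)))
          (opv true (U (plug (comp A (.l o₂ D₁ (plug D₂ (.cst d)))) (.cst true))) (U w)) ∈ Sm j := by
      intro d
      have h8 := hP (comp A (.l o₂ D₁ (plug D₂ (.cst d)))) w (by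
        rw [comp_sz]
        simp only [Cx.sz, plug_sz, Tr.sz]
        omega)
      have h9 : plug (comp A (.l o₂ D₁ (plug D₂ (.cst d)))) w =
          plug (comp A (.r o₂ (plug D₁ w) D₂)) (.cst d) := by
        rw [plug_comp, plug_comp]
        rfl
      rw [h9] at h8
      exact h8
    have hEb : ∀ b, U (plug (comp A (.l o₂ D₁ (plug D₂ (.op o v₁ v₂)))) (.cst b)) -
        opv false (U (plug (comp A (.l o₂ D₁ (plug D₂ (.cst false)))) (.cst b)))
          (opv true (U (plug (comp A (.l o₂ D₁ (plug D₂ (.cst true)))) (.cst b))) (opv o (U v₁) (U v₂))) ∈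
          Sm (j + KK + 1) := by
      intro b
      have h8 := good h a₀ hn hs hj hP hH (comp A (.r o₂ (plug D₁ (.cst b)) D₂)) o v₁ v₂ (by
        rw [comp_sz]
        simp only [Cx.sz, plug_sz, Tr.sz]
        omega) (by
        rw [comp_sz]
        simp only [Cx.sz, plug_sz, Tr.sz]
        omega) g2 g3 (by
        rw [comp_sz]
        simp only [Cx.sz, plug_sz, Tr.sz]
        omega)
      unfold EXP at h8
      have h9 : plug (comp A (.l o₂ D₁ (plug D₂ (.op o v₁ v₂)))) (.cst b) =
          plug (comp A (.r o₂ (plug D₁ (.cst b)) D₂)) (.op o v₁ v₂) := by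
        rw [plug_comp, plug_comp]
        rfl
      rw [h9, hk1, hk1]
      exact h8
    have hsz2 : ∀ (t : Tr L), (plug (comp A (.l o₂ D₁ t)) w).sz = A.sz + (D₁.sz + t.sz) + w.sz := by
      intro t
      rw [plug_sz, comp_sz]
      rfl
    refine h.lev.mono (show j + KK + 1 + KK ≤ _ by omega) (pi_disj h o v₁
      v₂ _ _ _ _ w _ _ _ _ _ ?_ (h.lev.mono (Nat.zero_le _) e5) (h.lev.mono (by omega) (hPd false))
      (h.lev.mono (by omega) (hPd true)) (hEb false) (hEb true))
    simp only [plug_sz, comp_sz, Cx.sz, Tr.sz]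
    omega
  · -- disjoint, the other order
    subst hD1 hD2
    rw [comp_sz] at g1 g4 hsz' hF
    simp only [Cx.sz, plug_sz, Tr.sz] at g1 g4 hsz' hF
    have hk1 : ∀ b d, plug (comp A (.r o₂ (plug D₂ (.cst d)) D₁)) (.cst b) =
        plug (comp A (.l o₂ D₂ (plug D₁ (.cst b)))) (.cst d) := by
      intro b d
      rw [plug_comp, plug_comp]
      rfl
    have hPd : ∀ d, U (plug (comp A (.l o₂ D₂ (plug D₁ w))) (.cst d)) -
        opv false (U (plug (comp A (.r o₂ (plug D₂ (.cst d)) D₁)) (.cst false)))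
          (opv true (U (plug (comp A (.r o₂ (plug D₂ (.cst d)) D₁)) (.cst true))) (U w)) ∈ Sm j := by
      intro d
      have h8 := hP (comp A (.r o₂ (plug D₂ (.cst d)) D₁)) w (by
        rw [comp_sz]
        simp only [Cx.sz, plug_sz, Tr.sz]
        omega)
      have h9 : plug (comp A (.r o₂ (plug D₂ (.cst d)) D₁)) w =
          plug (comp A (.l o₂ D₂ (plug D₁ w))) (.cst d) := by
        rw [plug_comp, plug_comp]
        rfl
      rw [h9] at h8
      exact h8
    have hEb : ∀ b, U (plug (comp A (.r o₂ (plug D₂ (.op o v₁ v₂)) D₁)) (.cst b)) -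
        opv false (U (plug (comp A (.r o₂ (plug D₂ (.cst false)) D₁)) (.cst b)))
          (opv true (U (plug (comp A (.r o₂ (plug D₂ (.cst true)) D₁)) (.cst b))) (opv o (U v₁) (U v₂))) ∈
          Sm (j + KK + 1) := by
      intro b
      have h8 := good h a₀ hn hs hj hP hH (comp A (.l o₂ D₂ (plug D₁ (.cst b)))) o v₁ v₂ (by
        rw [comp_sz]
        simp only [Cx.sz, plug_sz, Tr.sz]
        omega) (by
        rw [comp_sz]
        simp only [Cx.sz, plug_sz, Tr.sz]
        omega) g2 g3 (by
        rw [comp_sz]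
        simp only [Cx.sz, plug_sz, Tr.sz]
        omega)
      unfold EXP at h8
      have h9 : plug (comp A (.r o₂ (plug D₂ (.op o v₁ v₂)) D₁)) (.cst b) =
          plug (comp A (.l o₂ D₂ (plug D₁ (.cst b)))) (.op o v₁ v₂) := by
        rw [plug_comp, plug_comp]
        rfl
      rw [h9, hk1, hk1]
      exact h8
    refine h.lev.mono (show j + KK + 1 + KK ≤ _ by omega) (pi_disj h o v₁
      v₂ _ _ _ _ w _ _ _ _ _ ?_ (h.lev.mono (Nat.zero_le _) e5) (h.lev.mono (by omega) (hPd false))
      (h.lev.mono (by omega) (hPd true)) (hEb false) (hEb true))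
    simp only [plug_sz, comp_sz, Cx.sz, Tr.sz]
    omega

end Pool.Agent.H24.QL
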