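import Pool.Agent.H24.QL.Bool

/-!
# [H24 QL Tree] THEOREM QL (MP_576eff_lc), chapter (5): trees and contexts

`Tr l`: formulas in negation normal form (literals, constants, and, or); `sz`: the number of literals (constants do not count).
`Cx l`: contexts with one hole.  `tri`: two nodes of a tree are nested or disjoint.
-/

set_option autoImplicit false

namespace Pool.Agent.H24.QL

/-- formulas in negation normal form; `op true` is the conjunction, `op false` the disjunction -/
inductive Tr (L : Type) : Type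
  | lit (a : L)
  | cst (b : Bool)
  | op (o : Bool) (s t : Tr L)

/-- contexts with one hole -/
inductive Cx (L : Type) : Type
  | hole
  | l (o : Bool) (C : Cx L) (t : Tr L)
  | r (o : Bool) (t : Tr L) (C : Cx L)

variable {L : Type}

/-- the number of literals -/
def Tr.sz : Tr L → ℕ
  | .lit _ => 1
  | .cst _ => 0
  | .op _ s t => s.sz + t.sz

/-- the number of literals of a context -/
def Cx.sz : Cx L → ℕ
  | .hole => 0
  | .l _ C t => C.sz + t.sz
  | .r _ t C => t.sz + C.sz

/-- fill the hole -/
def plug : Cx L → Tr L → Tr L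
  | .hole, w => w
  | .l o C t, w => .op o (plug C w) t
  | .r o t C, w => .op o t (plug C w)

/-- composition -/
def comp : Cx L → Cx L → Cx L
  | .hole, D => D
  | .l o C t, D => .l o (comp C D) t
  | .r o t C, D => .r o t (comp C D)

theorem plug_sz (C : Cx L) (w : Tr L) : (plug C w).sz = C.sz + w.sz := by
  induction C with
  | hole => simp [plug, Cx.sz]
  | l o C t ih =>
    simp only [plug, Cx.sz, Tr.sz, ih]
    omega
  | r o t C ih =>
    simp only [plug, Cx.sz, Tr.sz, ih]
    omega

theorem plug_comp (C D : Cx L) (w : Tr L) : plug (comp C D) w = plug C (plug D w) := by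
  induction C with
  | hole => rfl
  | l o C t ih => simp only [plug, comp, ih]
  | r o t C ih => simp only [plug, comp, ih]

theorem comp_sz (C D : Cx L) : (comp C D).sz = C.sz + D.sz := by
  induction C with
  | hole => simp [comp, Cx.sz]
  | l o C t ih =>
    simp only [comp, Cx.sz, ih]
    omega
  | r o t C ih =>
    simp only [comp, Cx.sz, ih]
    omega

/-- two nodes are nested or disjoint -/
theorem tri {C C' : Cx L} {v w : Tr L} (h : plug C v = plug C' w) :
    (∃ D, C' = comp C D ∧ v = plug D w) ∨ (∃ D, C = comp C' D ∧ w = plug D v) ∨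
      (∃ A o D₁ D₂, C = comp A (.l o D₁ (plug D₂ w)) ∧ C' = comp A (.r o (plug D₁ v) D₂)) ∨
      (∃ A o D₁ D₂, C = comp A (.r o (plug D₂ w) D₁) ∧ C' = comp A (.l o D₂ (plug D₁ v))) := by
  induction C generalizing C' with
  | hole => exact Or.inl ⟨C', rfl, h⟩
  | l o C t ih =>
    cases C' with
    | hole => exact Or.inr (Or.inl ⟨_, rfl, h.symm⟩)
    | l o' C₁ t' =>
      simp only [plug, Tr.op.injEq] at h
      obtain ⟨rfl, h1, rfl⟩ := h
      rcases ih h1 with ⟨D, rfl, hD⟩ | ⟨D, rfl, hD⟩ | ⟨A, o₂, D₁, D₂, rfl, rfl⟩ | ⟨A, o₂, D₁, D₂, rfl, rfl⟩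
      · exact Or.inl ⟨D, rfl, hD⟩
      · exact Or.inr (Or.inl ⟨D, rfl, hD⟩)
      · exact Or.inr (Or.inr (Or.inl ⟨.l o A t, o₂, D₁, D₂, rfl, rfl⟩))
      · exact Or.inr (Or.inr (Or.inr ⟨.l o A t, o₂, D₁, D₂, rfl, rfl⟩))
    | r o' t' C₁ =>
      simp only [plug, Tr.op.injEq] at h
      obtain ⟨rfl, h1, h2⟩ := h
      refine Or.inr (Or.inr (Or.inl ⟨.hole, o, C, C₁, ?_, ?_⟩))
      · rw [← h2]
        rfl
      · rw [h1]
        rfl
  | r o t C ih =>
    cases C' with
    | hole => exact Or.inr (Or.inl ⟨_, rfl, h.symm⟩)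
    | r o' t' C₁ =>
      simp only [plug, Tr.op.injEq] at h
      obtain ⟨rfl, rfl, h1⟩ := h
      rcases ih h1 with ⟨D, rfl, hD⟩ | ⟨D, rfl, hD⟩ | ⟨A, o₂, D₁, D₂, rfl, rfl⟩ | ⟨A, o₂, D₁, D₂, rfl, rfl⟩
      · exact Or.inl ⟨D, rfl, hD⟩
      · exact Or.inr (Or.inl ⟨D, rfl, hD⟩)
      · exact Or.inr (Or.inr (Or.inl ⟨.r o t A, o₂, D₁, D₂, rfl, rfl⟩))
      · exact Or.inr (Or.inr (Or.inr ⟨.r o t A, o₂, D₁, D₂, rfl, rfl⟩))
    | l o' C₁ t' =>
      simp only [plug, Tr.op.injEq] at h
      obtain ⟨rfl, h1, h2⟩ := h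
      refine Or.inr (Or.inr (Or.inr ⟨.hole, o, C, C₁, ?_, ?_⟩))
      · rw [h1]
        rfl
      · rw [← h2]
        rfl

/-! ### constant folding -/

/-- conjunction and disjunction with simplification -/
def sop : Bool → Tr L → Tr L → Tr L
  | true, .cst false, _ => .cst false
  | true, .cst true, t => t
  | true, _, .cst false => .cst false
  | true, s, .cst true => s
  | true, s, t => .op true s t
  | false, .cst true, _ => .cst true
  | false, .cst false, t => t
  | false, _, .cst true => .cst true
  | false, s, .cst false => s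
  | false, s, t => .op false s t

/-- constant folding -/
def red : Tr L → Tr L
  | .lit a => .lit a
  | .cst b => .cst b
  | .op o s t => sop o (red s) (red t)

/-- the value -/
def vl (y : L → Bool) : Tr L → Bool
  | .lit a => y a
  | .cst b => b
  | .op o s t => if o then vl y s && vl y t else vl y s || vl y t

/-- all literals are `a` -/
def All (a : L) : Tr L → Prop
  | .lit b => b = a
  | .cst _ => True
  | .op _ s t => All a s ∧ All a t

/-- a tree which is a constant or the literal `a` -/
def Bas (a : L) (t : Tr L) : Prop := t = .cst false ∨ t = .cst true ∨ t = .lit a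

theorem sop_bas {a : L} {o : Bool} {s t : Tr L} (hs : Bas a s) (ht : Bas a t)
    (h : (∃ b, s = .cst b) ∨ ∃ b, t = .cst b) : Bas a (sop o s t) := by
  rcases hs with rfl | rfl | rfl <;> rcases ht with rfl | rfl | rfl <;> cases o <;>
    first
    | (left; rfl)
    | (right; left; rfl)
    | (right; right; rfl)
    | (exfalso; rcases h with ⟨b, h⟩ | ⟨b, h⟩ <;> cases h)

theorem sop_vl (y : L → Bool) (o : Bool) {a : L} {s t : Tr L} (hs : Bas a s) (ht : Bas a t) :
    vl y (sop o s t) = if o then vl y s && vl y t else vl y s || vl y t := by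
  rcases hs with rfl | rfl | rfl <;> rcases ht with rfl | rfl | rfl <;> cases o <;>
    simp [sop, vl]

/-- a tree without literals reduces to a constant -/
theorem red_zero {F : Tr L} (h : F.sz = 0) : ∃ b, red F = .cst b := by
  induction F with
  | lit a => simp [Tr.sz] at h
  | cst b => exact ⟨b, rfl⟩
  | op o s t ihs iht =>
    simp only [Tr.sz] at h
    obtain ⟨b, hb⟩ := ihs (by omega)
    obtain ⟨d, hd⟩ := iht (by omega)
    simp only [red, hb, hd]
    cases o <;> cases b <;> cases d <;> exact ⟨_, rfl⟩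

theorem red_bas {a : L} {F : Tr L} (h : F.sz ≤ 1) (hA : All a F) : Bas a (red F) := by
  induction F with
  | lit b =>
    have h1 : b = a := hA
    rw [h1]
    exact Or.inr (Or.inr rfl)
  | cst b =>
    cases b
    · exact Or.inl rfl
    · exact Or.inr (Or.inl rfl)
  | op o s t ihs iht =>
    simp only [Tr.sz] at h
    refine sop_bas (ihs (by omega) hA.1) (iht (by omega) hA.2) ?_
    rcases Nat.eq_zero_or_pos s.sz with h1 | h1
    · exact Or.inl (red_zero h1)
    · exact Or.inr (red_zero (by omega))

theorem red_vl {a : L} {F : Tr L} (h : F.sz ≤ 1) (hA : All a F) (y : L → Bool) : vl y (red F) = vl y F := by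
  induction F with
  | lit b => rfl
  | cst b => rfl
  | op o s t ihs iht =>
    simp only [Tr.sz] at h
    show vl y (sop o (red s) (red t)) = _
    rw [sop_vl y o (red_bas (by omega) hA.1) (red_bas (by omega) hA.2), ihs (by omega) hA.1, iht (by omega) hA.2]
    rfl

theorem all_of_sz {F : Tr L} (h : F.sz ≤ 1) (a₀ : L) : ∃ a, All a F := by
  have key : ∀ F : Tr L, F.sz = 0 → ∀ a, All a F := by
    intro F
    induction F with
    | lit a =>
      intro h
      simp [Tr.sz] at h
    | cst b => exact fun _ _ => trivial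
    | op o s t ihs iht =>
      intro h a
      simp only [Tr.sz] at h
      exact ⟨ihs (by omega) a, iht (by omega) a⟩
  induction F with
  | lit a => exact ⟨a, rfl⟩
  | cst b => exact ⟨a₀, trivial⟩
  | op o s t ihs iht =>
    simp only [Tr.sz] at h
    rcases Nat.eq_zero_or_pos s.sz with h1 | h1
    · obtain ⟨a, ha⟩ := iht (by omega)
      exact ⟨a, key s h1 a, ha⟩
    · obtain ⟨a, ha⟩ := ihs (by omega)
      exact ⟨a, ha, key t (by omega) a⟩

theorem all_plug {a : L} {C : Cx L} {w : Tr L} (h : All a (plug C w)) :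
    All a w ∧ ∀ b, All a (plug C (.cst b)) := by
  induction C with
  | hole => exact ⟨h, fun b => trivial⟩
  | l o C t ih => exact ⟨(ih h.1).1, fun b => ⟨(ih h.1).2 b, h.2⟩⟩
  | r o t C ih => exact ⟨(ih h.2).1, fun b => ⟨h.1, (ih h.2).2 b⟩⟩

/-- the value is a monotone function of the node -/
theorem vl_plug (y : L → Bool) (C : Cx L) (w : Tr L) :
    vl y (plug C w) = (vl y (plug C (.cst false)) || (vl y (plug C (.cst true)) && vl y w)) := by
  induction C with
  | hole => simp [plug, vl]
  | l o C t ih =>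
    simp only [plug, vl]
    rw [ih]
    cases o <;> cases vl y (plug C (.cst false)) <;> cases vl y (plug C (.cst true)) <;> cases vl y w <;>
      cases vl y t <;> rfl
  | r o t C ih =>
    simp only [plug, vl]
    rw [ih]
    cases o <;> cases vl y (plug C (.cst false)) <;> cases vl y (plug C (.cst true)) <;> cases vl y w <;>
      cases vl y t <;> rfl

end Pool.Agent.H24.QL
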