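import Pool.Agent.H24.QL.Frm
import Pool.Agent.H6.QL.RwDefs

/-!
# [H24 QL Vi] THEOREM QL (MP_576eff_lc): bridge between chapters (0)-(4), (5) and (6)

`toBf`: trees to formulas in `¬, ∨`; the constant true is the variable `none`.
`SmR`: the small elements of level `j` of the ring of functions on the cube.
`ht_of_bhom`: the hypotheses `HT` of chapter (5) from `BHom`.  `vi_exists`: the approximate valuation.
-/

set_option autoImplicit false

namespace Pool.Agent.H24.QL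

open Pool.Agent.H3.Frg Pool.Agent.H81.QG Pool.H6.QL

/-- trees to formulas in `¬, ∨` -/
def toBf {n : ℕ} : Tr (Fin n × Bool) → Bf (Option (Fin n))
  | .lit a => if a.2 then .var (some a.1) else .neg (.var (some a.1))
  | .cst b => if b then .var none else .neg (.var none)
  | .op o s t => if o then .neg (.or (.neg (toBf s)) (.neg (toBf t))) else .or (toBf s) (toBf t)

theorem toBf_sz {n : ℕ} (F : Tr (Fin n × Bool)) : (toBf F).sz = F.lv := by
  induction F with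
  | lit a =>
    obtain ⟨i, b⟩ := a
    cases b <;> rfl
  | cst b => cases b <;> rfl
  | op o s t ihs iht =>
    cases o
    · show (toBf s).sz + (toBf t).sz = _
      rw [ihs, iht]
      rfl
    · show (toBf s).sz + (toBf t).sz = _
      rw [ihs, iht]
      rfl

theorem toBf_dp {n : ℕ} (F : Tr (Fin n × Bool)) : (toBf F).dp ≤ F.dp := by
  induction F with
  | lit a =>
    obtain ⟨i, b⟩ := a
    cases b <;> exact le_rfl
  | cst b => cases b <;> exact le_rfl
  | op o s t ihs iht =>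
    cases o
    · show max (toBf s).dp (toBf t).dp + 1 ≤ max s.dp t.dp + 1
      omega
    · show max (toBf s).dp (toBf t).dp + 1 ≤ max s.dp t.dp + 1
      omega

section

variable {H : Type} [NormedAddCommGroup H] [InnerProductSpace ℝ H] {n K : ℕ}
  {Gam : Set (List (Fin n × Bool))} {X : Option (Fin n) → Op H} {L : ℕ → Submodule ℝ H}
  {cl : Rn n →ₗ[ℝ] H} {dg : ℕ → Submodule ℝ (Rn n)}

/-- the small elements -/
def SmR (cl : Rn n →ₗ[ℝ] H) (dg : ℕ → Submodule ℝ (Rn n)) (K R : ℕ) (E : ℝ) (j : ℕ) : Set (Rn n) :=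
  {r | ∀ b, b + (8 + j) * (R + 1) ≤ K → Sml cl dg b (4 ^ j * E) r}

theorem lev_SmR {R : ℕ} {E : ℝ} (hE : 0 ≤ E) : Lev (SmR cl dg K R E) := by
  have h4 : ∀ j : ℕ, (4 : ℝ) ^ (j + 1) * E = 4 * (4 ^ j * E) := fun j => by ring
  have h0 : ∀ j : ℕ, 0 ≤ (4 : ℝ) ^ j * E := fun j => by positivity
  have hb : ∀ b j : ℕ, b + (8 + (j + 1)) * (R + 1) ≤ K → b + (8 + j) * (R + 1) ≤ K := by
    intro b j h
    have h1 : (8 + j) * (R + 1) ≤ (8 + (j + 1)) * (R + 1) := Nat.mul_le_mul_right _ (by omega)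
    omega
  refine ⟨?_, ?_, ?_, ?_⟩
  · intro b _ p _
    rw [zero_mul, map_zero, norm_zero]
    exact mul_nonneg (h0 0) (norm_nonneg _)
  · intro j a ha b hbK p hp
    rw [neg_mul, map_neg, norm_neg]
    exact ha b hbK p hp
  · intro j x y hx hy b hbK p hp
    rw [add_mul, map_add, h4]
    have h1 := hx b (hb b j hbK) p hp
    have h2 := hy b (hb b j hbK) p hp
    have h3 := norm_add_le (cl (x * p)) (cl (y * p))
    have h5 : 0 ≤ (4 ^ j * E) * ‖cl p‖ := mul_nonneg (h0 j) (norm_nonneg _)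
    nlinarith
  · intro j x hx b hbK p hp
    rw [h4]
    have h1 := hx b (hb b j hbK) p hp
    have h5 : 0 ≤ (4 ^ j * E) * ‖cl p‖ := mul_nonneg (h0 j) (norm_nonneg _)
    nlinarith

theorem ht_of_bhom (h : RW n K Gam X L cl dg) {R d S : ℕ} {E : ℝ} (hE : 0 ≤ E) (hE1 : E ≤ 1) {T : Bf (Option (Fin n)) → Op H}
    {P : Bf (Option (Fin n)) → Prop} (hB : BHom X L K R E P T) (hS : 1 ≤ S)
    (hP : ∀ F : Bf (Option (Fin n)), F.sz ≤ S → F.dp ≤ d → P F) :
    ∃ T' : Tr (Fin n × Bool) → Rn n, HT (SmR cl dg K R (8 * E)) ngl d S T' ∧ (∀ F, T' F ∈ dg R) ∧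
      ∀ i, ∀ b, R + b ≤ K → ∀ q ∈ dg b, cl (T' (.lit (i, true)) * q) = T (.var (some i)) (cl q) := by
  classical
  have hgood : ∀ F : Tr (Fin n × Bool), F.dp ≤ d ∧ F.lv ≤ S → P (toBf F) := fun F hF =>
    hP _ (by rw [toBf_sz]; exact hF.2) ((toBf_dp F).trans hF.1)
  have hex : ∀ F : Tr (Fin n × Bool), ∃ r : Rn n, r ∈ dg R ∧ (F.dp ≤ d ∧ F.lv ≤ S →
      ∀ b, R + b ≤ K → ∀ q ∈ dg b, cl (r * q) = T (toBf F) (cl q)) ∧ (¬ (F.dp ≤ d ∧ F.lv ≤ S) → r = 0) := by
    intro F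
    by_cases hF : F.dp ≤ d ∧ F.lv ≤ S
    · obtain ⟨r, hr, h1⟩ := h.lift R _ (hB.deg _ (hgood F hF))
      exact ⟨r, hr, fun _ => h1, fun h2 => absurd hF h2⟩
    · exact ⟨0, zero_mem _, fun h2 => absurd h2 hF, fun _ => rfl⟩
  choose T' hT1 hT2 hT3 using hex
  have hlev : Lev (SmR cl dg K R (8 * E)) := lev_SmR (by positivity)
  have hmem0 : ∀ r : Rn n, (∀ b, b + 8 * (R + 1) ≤ K → ∀ p ∈ dg b, ‖cl (r * p)‖ ≤ 8 * E * ‖cl p‖) →
      r ∈ SmR cl dg K R (8 * E) 0 := by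
    intro r hr b hb p hp
    rw [pow_zero, one_mul]
    exact hr b (by simpa using hb) p hp
  have hL := h.liar
  have hK1 : ∀ b, b + 8 * (R + 1) ≤ K → b ≤ K ∧ R + b ≤ K ∧ R + (R + b) ≤ K ∧ b + 8 * R ≤ K := by
    intro b hb
    omega
  -- bounds of the operators
  have hn1 : ∀ F : Bf (Option (Fin n)), P F → ∀ v, ‖T F v‖ ≤ 2 * ‖v‖ := by
    intro F hF v
    have h1 := (hB.norm F hF).1
    exact (T F).le_of_opNorm_le (by linarith) v
  have hn2 : ∀ F : Bf (Option (Fin n)), P F → ∀ v, ‖v - T F v‖ ≤ 2 * ‖v‖ := by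
    intro F hF v
    have h1 := (hB.norm F hF).2
    exact (1 - T F).le_of_opNorm_le (by linarith) v
  have hng : ∀ F : Bf (Option (Fin n)), P F → ∀ v, ‖T (.neg F) v - (v - T F v)‖ ≤ E * ‖v‖ := by
    intro F hF v
    exact (T (.neg F) - (1 - T F)).le_of_opNorm_le (hB.neg F hF) v
  have hvar : ∀ i v, ‖T (.var i) v - (1 / 2 : ℝ) • (v + X i v)‖ ≤ E * ‖v‖ := by
    intro i v
    exact (T (.var i) - (1 / 2 : ℝ) • (1 + X i)).le_of_opNorm_le (hB.var i) v
  have hd0 : ∀ F : Tr (Fin n × Bool), F.dp = 0 → F.lv = 1 → F.dp ≤ d ∧ F.lv ≤ S := fun F h1 h2 =>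
    ⟨by rw [h1]; exact Nat.zero_le _, by rw [h2]; exact hS⟩
  have hP1 : ∀ F : Bf (Option (Fin n)), F.sz = 1 → F.dp = 0 → P F := fun F h1 h2 =>
    hP F (by rw [h1]; exact hS) (by rw [h2]; exact Nat.zero_le _)
  refine ⟨T', ⟨hlev, ?_, ?_, ?_, ?_, ?_, ?_⟩, hT1, fun i => hT2 _ (hd0 _ rfl rfl)⟩
  · -- mu
    intro F j x hx
    by_cases hF : F.dp ≤ d ∧ F.lv ≤ S
    · intro b hb p hp
      have e : T' F * x * p = x * (T' F * p) := by ring
      have hb' : (8 + (j + 1)) * (R + 1) = (8 + j) * (R + 1) + (R + 1) := by ring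
      have h1 := hx (R + b) (by omega) (T' F * p) (hL.mul _ _ _ _ (hT1 F) hp)
      rw [e]
      refine h1.trans ?_
      rw [hT2 F hF b (by omega) p hp]
      have h2 := hn1 _ (hgood F hF) (cl p)
      have h3 : (0 : ℝ) ≤ 4 ^ j * (8 * E) := by positivity
      calc 4 ^ j * (8 * E) * ‖T (toBf F) (cl p)‖ ≤ 4 ^ j * (8 * E) * (2 * ‖cl p‖) := mul_le_mul_of_nonneg_left h2 h3
        _ ≤ 4 ^ (j + 1) * (8 * E) * ‖cl p‖ := by
          have h4 : 0 ≤ 4 ^ j * (8 * E) * ‖cl p‖ := mul_nonneg h3 (norm_nonneg _)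
          rw [pow_succ]
          nlinarith
    · rw [hT3 F hF, zero_mul]
      exact hlev.zero' _
  · -- idem
    intro F hd hS'
    refine hmem0 _ fun b hb p hp => ?_
    obtain ⟨b1, b2, b3, b4⟩ := hK1 b hb
    have e : cl ((T' F * T' F - T' F) * p) = T (toBf F) (T (toBf F) (cl p)) - T (toBf F) (cl p) := by
      rw [sub_mul, map_sub, mul_assoc, hT2 F ⟨hd, hS'⟩ (R + b) b3 _ (hL.mul _ _ _ _ (hT1 F) hp),
        hT2 F ⟨hd, hS'⟩ b b2 p hp]
    rw [e]
    have h1 := hB.idem _ (hgood F ⟨hd, hS'⟩) b b4 (cl p) (h.into b b1 p hp)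
    have h2 : 0 ≤ E * ‖cl p‖ := mul_nonneg hE (norm_nonneg _)
    linarith
  · -- hom
    intro o F G hd hS'
    have hdF : F.dp ≤ d ∧ F.lv ≤ S := by
      simp only [Tr.dp, Tr.lv] at hd hS'
      exact ⟨by omega, by omega⟩
    have hdG : G.dp ≤ d ∧ G.lv ≤ S := by
      simp only [Tr.dp, Tr.lv] at hd hS'
      exact ⟨by omega, by omega⟩
    refine hmem0 _ fun b hb p hp => ?_
    obtain ⟨b1, b2, b3, b4⟩ := hK1 b hb
    have h2 : 0 ≤ E * ‖cl p‖ := mul_nonneg hE (norm_nonneg _)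
    have eFG : cl (T' F * T' G * p) = T (toBf F) (T (toBf G) (cl p)) := by
      rw [mul_assoc, hT2 F hdF (R + b) b3 _ (hL.mul _ _ _ _ (hT1 G) hp), hT2 G hdG b b2 p hp]
    have eF := hT2 F hdF b b2 p hp
    have eG := hT2 G hdG b b2 p hp
    cases o
    · have e : cl ((T' (.op false F G) - opv false (T' F) (T' G)) * p) = T (.or (toBf F) (toBf G)) (cl p) -
          (T (toBf F) (cl p) + T (toBf G) (cl p) - T (toBf F) (T (toBf G) (cl p))) := by
        show cl ((T' (.op false F G) - (T' F + T' G - T' F * T' G)) * p) = _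
        rw [sub_mul, map_sub, sub_mul, map_sub, add_mul, map_add, eFG, eF, eG,
          hT2 (.op false F G) ⟨hd, hS'⟩ b b2 p hp]
        rfl
      rw [e]
      have h1 := hB.or (toBf F) (toBf G) (hgood (.op false F G) ⟨hd, hS'⟩) b b4 (cl p) (h.into b b1 p hp)
      linarith
    · have e : cl ((T' (.op true F G) - opv true (T' F) (T' G)) * p) =
          T (.neg (.or (.neg (toBf F)) (.neg (toBf G)))) (cl p) - T (toBf F) (T (toBf G) (cl p)) := by
        show cl ((T' (.op true F G) - T' F * T' G) * p) = _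
        rw [sub_mul, map_sub, eFG, hT2 (.op true F G) ⟨hd, hS'⟩ b b2 p hp]
        rfl
      have hPo : P (.or (.neg (toBf F)) (.neg (toBf G))) := by
        refine hP _ ?_ ?_
        · show (toBf F).sz + (toBf G).sz ≤ S
          rw [toBf_sz, toBf_sz]
          exact hS'
        · show max (toBf F).dp (toBf G).dp + 1 ≤ d
          have h3 := toBf_dp F
          have h4 := toBf_dp G
          simp only [Tr.dp] at hd
          omega
      have hPF := hgood F hdF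
      have hPG := hgood G hdG
      have hPnG : P (.neg (toBf G)) := by
        refine hP _ ?_ ((toBf_dp G).trans hdG.1)
        show (toBf G).sz ≤ S
        rw [toBf_sz]
        exact hdG.2
      obtain ⟨v, hv⟩ : ∃ v, v = cl p := ⟨_, rfl⟩
      rw [e, ← hv]
      have h1 := hng _ hPo v
      have h3 := hB.or (.neg (toBf F)) (.neg (toBf G)) hPo b b4 v (by rw [hv]; exact h.into b b1 p hp)
      have h5 := hng _ hPF v
      have h6 := hng _ hPG v
      have h7 := hng _ hPF (T (.neg (toBf G)) v)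
      have h8 := hn1 _ hPnG v
      have h9 := hn2 _ hPF (T (.neg (toBf G)) v - (v - T (toBf G) v))
      have e2 : T (.neg (.or (.neg (toBf F)) (.neg (toBf G)))) v - T (toBf F) (T (toBf G) v) =
          (T (.neg (.or (.neg (toBf F)) (.neg (toBf G)))) v - (v - T (.or (.neg (toBf F)) (.neg (toBf G))) v)) -
          (T (.or (.neg (toBf F)) (.neg (toBf G))) v - (T (.neg (toBf F)) v + T (.neg (toBf G)) v -
            T (.neg (toBf F)) (T (.neg (toBf G)) v))) -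
          (T (.neg (toBf F)) v - (v - T (toBf F) v)) - (T (.neg (toBf G)) v - (v - T (toBf G) v)) +
          (T (.neg (toBf F)) (T (.neg (toBf G)) v) - (T (.neg (toBf G)) v - T (toBf F) (T (.neg (toBf G)) v))) +
          ((T (.neg (toBf G)) v - (v - T (toBf G) v)) -
            T (toBf F) (T (.neg (toBf G)) v - (v - T (toBf G) v))) := by
        simp only [map_sub]
        abel
      rw [e2]
      have h10 : 0 ≤ E * ‖v‖ := mul_nonneg hE (norm_nonneg _)
      have h11 : E * ‖T (.neg (toBf G)) v‖ ≤ 2 * (E * ‖v‖) := by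
        calc E * ‖T (.neg (toBf G)) v‖ ≤ E * (2 * ‖v‖) := mul_le_mul_of_nonneg_left h8 hE
          _ = 2 * (E * ‖v‖) := by ring
      refine (norm_add_le _ _).trans ?_
      refine (add_le_add ((norm_add_le _ _).trans (add_le_add ((norm_sub_le _ _).trans (add_le_add
        ((norm_sub_le _ _).trans (add_le_add ((norm_sub_le _ _).trans (add_le_add h1 h3)) h5)) h6)) h7)) h9).trans ?_
      linarith
  · -- c0
    refine hmem0 _ fun b hb p hp => ?_
    obtain ⟨b1, b2, b3, b4⟩ := hK1 b hb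
    have h2 : 0 ≤ E * ‖cl p‖ := mul_nonneg hE (norm_nonneg _)
    rw [hT2 (.cst false) (hd0 _ rfl rfl) b b2 p hp]
    have h3 := hng (.var none) (hP1 _ rfl rfl) (cl p)
    have h4 := hvar none (cl p)
    rw [h.none] at h4
    have e : T (toBf (.cst false)) (cl p) = (T (.neg (.var none)) (cl p) - (cl p - T (.var none) (cl p))) -
        (T (.var none) (cl p) - (1 / 2 : ℝ) • (cl p + (1 : Op H) (cl p))) := by
      have e2 : (1 / 2 : ℝ) • (cl p + (1 : Op H) (cl p)) = cl p := by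
        show (1 / 2 : ℝ) • (cl p + cl p) = cl p
        rw [← two_smul ℝ (cl p), smul_smul]
        norm_num
      rw [e2]
      show T (.neg (.var none)) (cl p) = _
      abel
    rw [e]
    refine (norm_sub_le _ _).trans ?_
    linarith
  · -- c1
    refine hmem0 _ fun b hb p hp => ?_
    obtain ⟨b1, b2, b3, b4⟩ := hK1 b hb
    have h2 : 0 ≤ E * ‖cl p‖ := mul_nonneg hE (norm_nonneg _)
    have h4 := hvar none (cl p)
    rw [h.none] at h4
    have e : cl ((T' (.cst true) - 1) * p) =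
        T (.var none) (cl p) - (1 / 2 : ℝ) • (cl p + (1 : Op H) (cl p)) := by
      have e2 : (1 / 2 : ℝ) • (cl p + (1 : Op H) (cl p)) = cl p := by
        show (1 / 2 : ℝ) • (cl p + cl p) = cl p
        rw [← two_smul ℝ (cl p), smul_smul]
        norm_num
      rw [e2, sub_mul, map_sub, one_mul, hT2 (.cst true) (hd0 _ rfl rfl) b b2 p hp]
      rfl
    rw [e]
    linarith
  · -- negation of literals
    rintro ⟨i, c⟩
    refine hmem0 _ fun b hb p hp => ?_
    obtain ⟨b1, b2, b3, b4⟩ := hK1 b hb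
    have h2 : 0 ≤ E * ‖cl p‖ := mul_nonneg hE (norm_nonneg _)
    have h3 := hng (.var (some i)) (hP1 _ rfl rfl) (cl p)
    have e : cl ((T' (.lit (ngl (i, c))) - (1 - T' (.lit (i, c)))) * p) =
        T (.neg (.var (some i))) (cl p) - (cl p - T (.var (some i)) (cl p)) := by
      rw [sub_mul, map_sub, sub_mul, map_sub, one_mul, hT2 (.lit (ngl (i, c))) (hd0 _ rfl rfl) b b2 p hp,
        hT2 (.lit (i, c)) (hd0 _ rfl rfl) b b2 p hp]
      cases c
      · show T (.var (some i)) (cl p) - (cl p - T (.neg (.var (some i))) (cl p)) = _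
        abel
      · rfl
    rw [e]
    linarith

end

/-- **the approximate valuation of the Frege formulas** -/
theorem vi_exists (eps : ℝ) (heps : 0 < eps) : ∃ C : ℕ, ∀ (H : Type) [NormedAddCommGroup H] [InnerProductSpace ℝ H]
    (n K : ℕ) (Gam : Set (List (Fin n × Bool))) (X : Option (Fin n) → Op H) (L : ℕ → Submodule ℝ H)
    (cl : Rn n →ₗ[ℝ] H) (dg : ℕ → Submodule ℝ (Rn n)), RW n K Gam X L cl dg →
    ∀ (s R : ℕ) (E : ℝ) (T : Bf (Option (Fin n)) → Op H), 1 ≤ s → 0 < E → (C : ℝ) * (s : ℝ) ^ C * E ≤ 1 →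
    BHom X L K R E (fun F => (F.sz : ℝ) ≤ C * (s : ℝ) ^ (1 + eps) ∧ F.dp ≤ C * (Nat.log 2 s + 1) ^ 2) T →
    ∃ V : Fm (Fin n) → Rn n, ∀ k, k + C * (Nat.log 2 s + 1) * (R + 1) ≤ K →
      VI cl dg V yy (C * (Nat.log 2 s + 1) * (R + 1)) s k ((C : ℝ) * (s : ℝ) ^ C * E) := by
  obtain ⟨C₀, hC₀⟩ := rebalance eps heps
  refine ⟨8 * 4 ^ C₀ + 2 * C₀ + 16, ?_⟩
  obtain ⟨C, hC⟩ : ∃ C, C = 8 * 4 ^ C₀ + 2 * C₀ + 16 := ⟨_, rfl⟩
  rw [← hC]
  intro H _ _ n K Gam X L cl dg h s R E T hs hE hE1 hB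
  have hs1 : (1 : ℝ) ≤ s := by exact_mod_cast hs
  have hC1 : (1 : ℝ) ≤ C := by
    have : 1 ≤ C := by omega
    exact_mod_cast this
  have hCs : 1 ≤ (C : ℝ) * (s : ℝ) ^ C := by
    have h1 : 1 ≤ (s : ℝ) ^ C := one_le_pow₀ hs1
    nlinarith
  have hEle : E ≤ C * (s : ℝ) ^ C * E := le_mul_of_one_le_left hE.le hCs
  have hE2 : E ≤ 1 := hEle.trans hE1
  obtain ⟨S, hS⟩ : ∃ S, S = ⌊(C : ℝ) * (s : ℝ) ^ (1 + eps)⌋₊ := ⟨_, rfl⟩
  have hse : 1 ≤ (s : ℝ) ^ (1 + eps) := Real.one_le_rpow hs1 (by linarith)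
  have hS0 : (S : ℝ) ≤ C * (s : ℝ) ^ (1 + eps) := by
    rw [hS]
    exact Nat.floor_le (by positivity)
  have hS1 : (C₀ : ℝ) * (s : ℝ) ^ (1 + eps) ≤ S := by
    have h1 : (C : ℝ) * (s : ℝ) ^ (1 + eps) < S + 1 := by
      rw [hS]
      exact Nat.lt_floor_add_one _
    have h2 : (C₀ : ℝ) + 1 ≤ C := by
      have : C₀ + 1 ≤ C := by omega
      exact_mod_cast this
    have h3 : ((C₀ : ℝ) + 1) * (s : ℝ) ^ (1 + eps) ≤ C * (s : ℝ) ^ (1 + eps) :=
      mul_le_mul_of_nonneg_right h2 (by positivity)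
    linarith
  have hS2 : 1 ≤ S := by
    rw [hS]
    refine (Nat.one_le_floor_iff _).2 ?_
    nlinarith
  obtain ⟨l, hl⟩ : ∃ l, l = Nat.log 2 s + 1 := ⟨_, rfl⟩
  have hl1 : 1 ≤ l := by omega
  rw [← hl] at hB ⊢
  have hd : C₀ * l ≤ C * l ^ 2 := by
    have h1 : l ≤ l ^ 2 := by nlinarith
    exact Nat.mul_le_mul (by omega) h1
  obtain ⟨T', hT', hdeg, hvar⟩ := ht_of_bhom h hE.le hE2 hB (S := S) (d := C * l ^ 2) hS2 (fun F h1 h2 =>
    ⟨le_trans (by exact_mod_cast h1) hS0, h2⟩)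
  obtain ⟨V, hV1, hV2, hV3, hV4, hV5, hV6⟩ := hC₀ (Fin n) (Rn n) _ _ _ s T' hs hT' (by rw [← hl]; exact hd) hS1
  rw [← hl] at hV5 hV6
  refine ⟨V, fun k hk => ?_⟩
  have hCl : (8 + C₀ * l) * (R + 1) ≤ C * l * (R + 1) := by
    refine Nat.mul_le_mul_right _ ?_
    have h1 : 8 * 1 ≤ 8 * l := Nat.mul_le_mul_left _ hl1
    have h2 : (8 + C₀) * l ≤ C * l := Nat.mul_le_mul_right _ (by omega)
    have h3 : (8 + C₀) * l = 8 * l + C₀ * l := by ring
    omega
  have hR : R + 1 ≤ C * l * (R + 1) := by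
    have h1 : 1 ≤ C * l := Nat.mul_pos (by omega) hl1
    exact Nat.le_mul_of_pos_left _ h1
  have hη : (4 : ℝ) ^ (C₀ * l) * (8 * E) ≤ C * (s : ℝ) ^ C * E := by
    have h1 : (2 : ℝ) ^ Nat.log 2 s ≤ s := by
      have := Nat.pow_log_le_self 2 (x := s) (by omega)
      exact_mod_cast this
    have h2 : (4 : ℝ) ^ (C₀ * l) = 4 ^ C₀ * ((2 : ℝ) ^ Nat.log 2 s) ^ (2 * C₀) := by
      have h4 : (4 : ℝ) = 2 ^ 2 := by norm_num
      rw [hl, h4, ← pow_mul, ← pow_mul, ← pow_mul, ← pow_add]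
      congr 1
      ring
    have h3 : ((2 : ℝ) ^ Nat.log 2 s) ^ (2 * C₀) ≤ (s : ℝ) ^ C :=
      (pow_le_pow_left₀ (by positivity) h1 _).trans (pow_le_pow_right₀ hs1 (by omega))
    have h5 : (8 : ℝ) * 4 ^ C₀ ≤ C := by
      have : 8 * 4 ^ C₀ ≤ C := by omega
      exact_mod_cast this
    rw [h2]
    calc (4 : ℝ) ^ C₀ * ((2 : ℝ) ^ Nat.log 2 s) ^ (2 * C₀) * (8 * E)
        = (8 * 4 ^ C₀) * ((2 : ℝ) ^ Nat.log 2 s) ^ (2 * C₀) * E := by ring
      _ ≤ (8 * 4 ^ C₀) * (s : ℝ) ^ C * E := by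
        refine mul_le_mul_of_nonneg_right (mul_le_mul_of_nonneg_left h3 (by positivity)) hE.le
      _ ≤ C * (s : ℝ) ^ C * E := by
        refine mul_le_mul_of_nonneg_right (mul_le_mul_of_nonneg_right h5 (by positivity)) hE.le
  have hsm : ∀ (r : Rn n) (j : ℕ), j ≤ C₀ * l → r ∈ SmR cl dg K R (8 * E) j →
      Sml cl dg k (C * (s : ℝ) ^ C * E) r := by
    intro r j hj hr p hp
    have h1 := (lev_SmR (by positivity)).mono hj hr k (by omega) p hp
    exact h1.trans (mul_le_mul_of_nonneg_right hη (norm_nonneg _))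
  refine ⟨?_, h.ymem, ?_, ?_, ?_, ?_, ?_⟩
  · intro F _
    obtain ⟨G, hG⟩ := hV2 F
    rw [hG]
    exact h.liar.mono (by omega) (hdeg G)
  · intro i
    funext a
    show (if a i = true then (1 : ℝ) else 0) * (if a i = true then (1 : ℝ) else 0) = if a i = true then (1 : ℝ) else 0
    split_ifs <;> norm_num
  · intro F hF
    exact hsm _ 0 (Nat.zero_le _) (hV4 F hF)
  · intro i p hp
    have h1 := hvar i k (by omega) p hp
    have h2 := h.yval i k (by omega) p hp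
    rw [hV3, sub_mul, map_sub, h1, h2]
    have h3 : ‖T (.var (some i)) (cl p) - (1 / 2 : ℝ) • (cl p + X (some i) (cl p))‖ ≤ E * ‖cl p‖ :=
      (T (.var (some i)) - (1 / 2 : ℝ) • (1 + X (some i))).le_of_opNorm_le (hB.var (some i)) (cl p)
    exact h3.trans (mul_le_mul_of_nonneg_right hEle (norm_nonneg _))
  · intro F hF
    exact hsm _ _ le_rfl (hV5 F hF)
  · intro A B hAB
    exact hsm _ _ le_rfl (hV6 A B hAB)

end Pool.Agent.H24.QL
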